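import Pool.Agent.Helper90.Hilb8C.Keys44

/-!
# Structure constants of quartic algebras (Bhargava) in characteristic 2

A commutative algebra of rank 4 with basis `1, x₁, x₂, x₃` is given by the coefficients
`c s k` of `x_k` and `z s` of `1` in the product number `s` (`x₁², x₁x₂, x₁x₃, x₂², x₂x₃, x₃²`).
-/

set_option maxRecDepth 100000

namespace Pool.Agent.Helper90.Hilb8C

noncomputable section

instance : Zero Ex := ⟨Ex.z⟩

instance : One Ex := ⟨Ex.o⟩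

/-- The number of a product. -/
def sy : Fin 3 → Fin 3 → Fin 6 := ![![0, 1, 2], ![1, 3, 4], ![2, 4, 5]]

theorem sy_comm (i j : Fin 3) : sy i j = sy j i := by
  fin_cases i <;> fin_cases j <;> rfl

section Poly

variable {α : Type*} [Add α] [Mul α]

/-- The structure constants in terms of the 15 coordinates and 3 translations. -/
def cF (l : ℕ → α) : Fin 6 → Fin 3 → α :=
  ![![l 3 + l 5, l 1, l 0], ![l 16, l 15, l 2], ![l 17, l 4, l 15 + l 3], ![l 12, l 9 + l 7, l 6],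
    ![l 13, l 17 + l 8, l 16 + l 9], ![l 14, l 11, l 8 + l 10]]

/-- The coordinates in terms of the structure constants (table). -/
def lofT (c : Fin 6 → Fin 3 → α) : Fin 18 → α :=
  ![c 0 2, c 0 1, c 1 2, c 2 2 + c 1 1, c 2 1, c 0 0 + (c 2 2 + c 1 1), c 3 2,
    c 3 1 + (c 4 2 + c 1 0), c 4 1 + c 2 0, c 4 2 + c 1 0, c 5 2 + (c 4 1 + c 2 0), c 5 1, c 3 0,
    c 4 0, c 5 0, c 1 1, c 1 0, c 2 0]

/-- Quadratic expressions. -/
def qG (c : Fin 6 → Fin 3 → α) (i j w k : Fin 3) : α :=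
  (c (sy j w) 0 * c (sy i 0) k + c (sy i w) 0 * c (sy j 0) k) +
  (c (sy j w) 1 * c (sy i 1) k + c (sy i w) 1 * c (sy j 1) k) +
  (c (sy j w) 2 * c (sy i 2) k + c (sy i w) 2 * c (sy j 2) k)

/-- The coefficients of `1`. -/
def c0G (c : Fin 6 → Fin 3 → α) : Fin 6 → α :=
  ![qG c 2 0 0 2, qG c 2 0 1 2, qG c 2 0 2 2, qG c 2 1 1 2, qG c 2 1 2 2, qG c 1 2 2 1]

/-- All coefficients. -/
def cA (c : Fin 6 → Fin 3 → α) (z : Fin 6 → α) (s : Fin 6) : Fin 4 → α :=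
  ![z s, c s 0, c s 1, c s 2]

/-- The Pluecker relations. -/
def PlF (l : ℕ → α) : Fin 15 → α :=
  ![l 0 * l 9 + l 1 * l 6 + l 2 * l 5,
    l 0 * l 10 + l 1 * l 7 + l 3 * l 5,
    l 0 * l 11 + l 1 * l 8 + l 4 * l 5,
    l 0 * l 12 + l 2 * l 7 + l 3 * l 6,
    l 0 * l 13 + l 2 * l 8 + l 4 * l 6,
    l 0 * l 14 + l 3 * l 8 + l 4 * l 7,
    l 1 * l 12 + l 2 * l 10 + l 3 * l 9,
    l 1 * l 13 + l 2 * l 11 + l 4 * l 9,
    l 1 * l 14 + l 3 * l 11 + l 4 * l 10,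
    l 2 * l 14 + l 3 * l 13 + l 4 * l 12,
    l 5 * l 12 + l 6 * l 10 + l 7 * l 9,
    l 5 * l 13 + l 6 * l 11 + l 8 * l 9,
    l 5 * l 14 + l 7 * l 11 + l 8 * l 10,
    l 6 * l 14 + l 7 * l 13 + l 8 * l 12,
    l 9 * l 14 + l 10 * l 13 + l 11 * l 12]

variable [Zero α] [One α]

/-- Kronecker symbols. -/
def krF (r : Fin 4) (i : Fin 3) : α := if r = i.succ then 1 else 0

/-- Entries of the commutators. -/
def entG (c : Fin 6 → Fin 3 → α) (z : Fin 6 → α) (i j k : Fin 3) (r : Fin 4) : α :=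
  (krF r i * z (sy j k) + krF r j * z (sy i k)) +
  (cA c z (sy i 0) r * c (sy j k) 0 + cA c z (sy j 0) r * c (sy i k) 0) +
  (cA c z (sy i 1) r * c (sy j k) 1 + cA c z (sy j 1) r * c (sy i k) 1) +
  (cA c z (sy i 2) r * c (sy j k) 2 + cA c z (sy j 2) r * c (sy i k) 2)

/-- Matrices of the multiplications by `x_i`. -/
def LG (c : Fin 6 → Fin 3 → α) (z : Fin 6 → α) (i : Fin 3) : Matrix (Fin 4) (Fin 4) α :=
  Matrix.of fun r => Fin.cases (krF r i) (fun k => cA c z (sy i k) r)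

end Poly

/-- The coordinates in terms of the structure constants. -/
def lof {α : Type*} [Add α] [Zero α] (c : Fin 6 → Fin 3 → α) (p : ℕ) : α :=
  if h : p < 18 then lofT c ⟨p, h⟩ else 0

/-- Sums of products. -/
def lsum {α β : Type*} [Add α] [Mul α] [Zero α] (f : β → α) (l : List (α × β)) : α :=
  l.foldr (fun x s => x.1 * f x.2 + s) 0

/-- Certificates: the entries are combinations of the Pluecker relations. -/
def certA : Fin 3 → Fin 3 → Fin 4 → List (Ex × Fin 15) :=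
  ![![![[((.v 8), 0), ((.v 10), 0), ((.v 17), 0), ((.v 9), 1), ((.v 16), 1), ((.v 6), 2), ((.v 5), 4), ((.v 3), 6), ((.v 15), 6), ((.v 2), 7)],
      [(.o, 6)],
      [(.o, 1)],
      [(.o, 0)]],
    ![[((.v 12), 1), ((.v 8), 3), ((.v 17), 3), ((.v 7), 4), ((.v 9), 4), ((.v 16), 4), ((.v 6), 5), ((.v 7), 6), ((.v 9), 6), ((.v 16), 6), ((.v 2), 9), ((.v 15), 10)],
      [(.o, 10)],
      [(.o, 4), (.o, 6)],
      [(.o, 3)]],
    ![[((.v 13), 1), ((.v 12), 2), ((.v 11), 3), ((.v 17), 4), ((.v 9), 5), ((.v 16), 5), ((.v 8), 6), ((.v 7), 7), ((.v 9), 7), ((.v 16), 7), ((.v 3), 9), ((.v 15), 9), ((.v 4), 10), ((.v 15), 11)],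
      [(.o, 9), (.o, 11)],
      [(.o, 5), (.o, 7)],
      [(.o, 4)]]],
  ![![[((.v 11), 0), ((.v 8), 1), ((.v 7), 2), ((.v 9), 2), ((.v 16), 2), ((.v 5), 5), ((.v 3), 7), ((.v 15), 7), ((.v 2), 8)],
      [(.o, 7)],
      [(.o, 2)],
      []],
    ![[((.v 13), 1), ((.v 9), 5), ((.v 7), 7), ((.v 9), 7), ((.v 16), 7), ((.v 15), 11)],
      [(.o, 11)],
      [(.o, 7)],
      []],
    ![[((.v 14), 1), ((.v 11), 4), ((.v 10), 5), ((.v 7), 8), ((.v 9), 8), ((.v 16), 8), ((.v 15), 12)],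
      [(.o, 12)],
      [(.o, 8)],
      []]],
  ![![[((.v 12), 2), ((.v 11), 3), ((.v 17), 4), ((.v 16), 5), ((.v 8), 6), ((.v 3), 9), ((.v 15), 9), ((.v 4), 10)],
      [(.o, 9)],
      [(.o, 5)],
      [(.o, 4)]],
    ![[((.v 13), 4), ((.v 12), 5), ((.v 13), 6), ((.v 12), 7), ((.v 7), 9), ((.v 16), 9), ((.v 15), 13)],
      [(.o, 13)],
      [(.o, 9)],
      []],
    ![[((.v 14), 6), ((.v 12), 8), ((.v 10), 9), ((.v 15), 14)],
      [(.o, 14)],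
      [],
      []]]]

/-- The pairs `i < j`. -/
def prI : Fin 3 → Fin 3 := ![0, 0, 1]

/-- The pairs `i < j`. -/
def prJ : Fin 3 → Fin 3 := ![1, 2, 2]

/-- Certificates: the Pluecker relations are sums of entries. -/
def certB : Fin 15 → List (Fin 3 × Fin 3 × Fin 3 × Fin 4) :=
  ![[(0, 1, 0, 3)],
    [(0, 1, 0, 2), (0, 2, 0, 3)],
    [(0, 2, 0, 2)],
    [(0, 1, 1, 3)],
    [(0, 1, 0, 1), (0, 1, 1, 2)],
    [(0, 1, 2, 2), (0, 2, 0, 1)],
    [(0, 1, 0, 1), (0, 2, 1, 3)],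
    [(0, 2, 1, 2)],
    [(0, 2, 2, 2)],
    [(0, 1, 2, 1), (0, 2, 1, 1)],
    [(0, 1, 1, 1), (1, 2, 1, 3)],
    [(0, 1, 2, 1), (1, 2, 1, 2)],
    [(0, 2, 2, 1), (1, 2, 2, 2)],
    [(1, 2, 1, 1)],
    [(1, 2, 2, 1)]]

theorem chkA : ∀ p k : Fin 3, ∀ r : Fin 4,
    Ex.chk vk 44 (entG (cF Ex.v) (c0G (cF Ex.v)) (prI p) (prJ p) k r +
      lsum (PlF Ex.v) (certA p k r)) = true := by
  decide +kernel

/-- Structure constants as variables. -/
def cV (s : Fin 6) (k : Fin 3) : Ex := Ex.v (3 * s + k)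

/-- Coefficients of `1` as variables. -/
def zV (s : Fin 6) : Ex := Ex.v (18 + s)

theorem chkB : ∀ I : Fin 15,
    Ex.chk vk 44 (PlF (lof cV) I +
      (certB I).foldr (fun x s => entG cV zV x.1 x.2.1 x.2.2.1 x.2.2.2 + s) 0) = true := by
  decide +kernel

end

end Pool.Agent.Helper90.Hilb8C
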