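import Pool.Agent.Helper90.Hilb8C.Alg

/-!
# Quartic algebras in characteristic 2: commuting matrices and Pluecker relations
-/

namespace Pool.Agent.Helper90.Hilb8C

noncomputable section

section Ev

variable {D : Type*} [CommRing D] (ρ : ℕ → D)

theorem ev_add' (e f : Ex) : (e + f).ev ρ = e.ev ρ + f.ev ρ := rfl

theorem ev_mul' (e f : Ex) : (e * f).ev ρ = e.ev ρ * f.ev ρ := rfl

theorem ev_zero' : (0 : Ex).ev ρ = 0 := rfl

theorem ev_one' : (1 : Ex).ev ρ = 1 := rfl

theorem ev_v (i : ℕ) : (Ex.v i).ev ρ = ρ i := rfl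

theorem ev_cF (s : Fin 6) (k : Fin 3) : (cF Ex.v s k).ev ρ = cF ρ s k := by
  fin_cases s <;> fin_cases k <;> rfl

theorem ev_qG (c : Fin 6 → Fin 3 → Ex) (i j w k : Fin 3) :
    (qG c i j w k).ev ρ = qG (fun s k => (c s k).ev ρ) i j w k := rfl

theorem ev_c0G (c : Fin 6 → Fin 3 → Ex) (s : Fin 6) :
    (c0G c s).ev ρ = c0G (fun s k => (c s k).ev ρ) s := by
  fin_cases s <;> rfl

theorem ev_cA (c : Fin 6 → Fin 3 → Ex) (z : Fin 6 → Ex) (s : Fin 6) (r : Fin 4) :
    (cA c z s r).ev ρ = cA (fun s k => (c s k).ev ρ) (fun s => (z s).ev ρ) s r := by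
  fin_cases r <;> rfl

theorem ev_krF (r : Fin 4) (i : Fin 3) : (krF r i : Ex).ev ρ = krF r i := by
  unfold krF
  split_ifs <;> rfl

theorem ev_entG (c : Fin 6 → Fin 3 → Ex) (z : Fin 6 → Ex) (i j k : Fin 3) (r : Fin 4) :
    (entG c z i j k r).ev ρ =
      entG (fun s k => (c s k).ev ρ) (fun s => (z s).ev ρ) i j k r := by
  unfold entG
  simp only [ev_add', ev_mul', ev_krF, ev_cA]

theorem ev_PlF (I : Fin 15) : (PlF Ex.v I).ev ρ = PlF ρ I := by
  fin_cases I <;> rfl

theorem ev_lsum {β : Type*} (f : β → Ex) (l : List (Ex × β)) (h : ∀ b, (f b).ev ρ = 0) :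
    (lsum f l).ev ρ = 0 := by
  induction l with
  | nil => rfl
  | cons x l ih =>
    change x.1.ev ρ * (f x.2).ev ρ + (lsum f l).ev ρ = 0
    rw [h, ih, mul_zero, add_zero]

theorem ev_foldr {β : Type*} (f : β → Ex) (l : List β) (h : ∀ b ∈ l, (f b).ev ρ = 0) :
    (l.foldr (fun x s => f x + s) 0).ev ρ = 0 := by
  induction l with
  | nil => rfl
  | cons x l ih =>
    change (f x).ev ρ + (l.foldr (fun x s => f x + s) 0).ev ρ = 0
    rw [h x List.mem_cons_self, ih fun b hb => h b (List.mem_cons_of_mem _ hb), add_zero]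

end Ev

section Ring

variable {D : Type*} [CommRing D]

theorem eq_of_add_two (h2 : (2 : D) = 0) {x y : D} (h : x + y = 0) : x = y := by
  linear_combination h - y * h2

theorem LG_zero (c : Fin 6 → Fin 3 → D) (z : Fin 6 → D) (i : Fin 3) (r : Fin 4) :
    LG c z i r 0 = krF r i := rfl

theorem LG_succ (c : Fin 6 → Fin 3 → D) (z : Fin 6 → D) (i k : Fin 3) (r : Fin 4) :
    LG c z i r k.succ = cA c z (sy i k) r := rfl

/-- The entries of the commutators in characteristic 2. -/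
theorem mul_entry (c : Fin 6 → Fin 3 → D) (z : Fin 6 → D) (i j k : Fin 3) (r : Fin 4) :
    (LG c z i * LG c z j) r k.succ + (LG c z j * LG c z i) r k.succ = entG c z i j k r := by
  have h : ∀ i j, (LG c z i * LG c z j) r k.succ = krF r i * z (sy j k) +
      (cA c z (sy i 0) r * c (sy j k) 0 + (cA c z (sy i 1) r * c (sy j k) 1 +
        cA c z (sy i 2) r * c (sy j k) 2)) := by
    intro i j
    rw [Matrix.mul_apply, Fin.sum_univ_four]
    have e0 : LG c z j 0 k.succ = z (sy j k) := rfl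
    have e1 : LG c z j 1 k.succ = c (sy j k) 0 := rfl
    have e2 : LG c z j 2 k.succ = c (sy j k) 1 := rfl
    have e3 : LG c z j 3 k.succ = c (sy j k) 2 := rfl
    have f1 : LG c z i r 1 = cA c z (sy i 0) r := rfl
    have f2 : LG c z i r 2 = cA c z (sy i 1) r := rfl
    have f3 : LG c z i r 3 = cA c z (sy i 2) r := rfl
    rw [e0, e1, e2, e3, f1, f2, f3, LG_zero]
    ring
  rw [h, h]
  unfold entG
  ring

theorem mul_entry0 (c : Fin 6 → Fin 3 → D) (z : Fin 6 → D) (i j : Fin 3) (r : Fin 4) :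
    (LG c z i * LG c z j) r 0 = cA c z (sy i j) r := by
  rw [Matrix.mul_apply, Fin.sum_univ_four]
  have f1 : LG c z i r 1 = cA c z (sy i 0) r := rfl
  have f2 : LG c z i r 2 = cA c z (sy i 1) r := rfl
  have f3 : LG c z i r 3 = cA c z (sy i 2) r := rfl
  rw [f1, f2, f3, LG_zero, LG_zero, LG_zero, LG_zero, LG_zero]
  unfold krF
  fin_cases j <;> simp

theorem comm_iff (h2 : (2 : D) = 0) (c : Fin 6 → Fin 3 → D) (z : Fin 6 → D) (i j : Fin 3) :
    LG c z i * LG c z j = LG c z j * LG c z i ↔ ∀ k r, entG c z i j k r = 0 := by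
  constructor
  · intro h k r
    rw [← mul_entry, h]
    linear_combination (LG c z j * LG c z i) r k.succ * h2
  · intro h
    ext r s
    refine Fin.cases ?_ (fun k => ?_) s
    · rw [mul_entry0, mul_entry0, sy_comm]
    · apply eq_of_add_two h2
      rw [mul_entry, h]

/-- Bhargava's structure constants give commuting matrices. -/
theorem comm_of_pl (h2 : (2 : D) = 0) (l : ℕ → D) (hl : ∀ I, PlF l I = 0) (i j : Fin 3) :
    LG (cF l) (c0G (cF l)) i * LG (cF l) (c0G (cF l)) j =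
      LG (cF l) (c0G (cF l)) j * LG (cF l) (c0G (cF l)) i := by
  have key : ∀ p : Fin 3, LG (cF l) (c0G (cF l)) (prI p) * LG (cF l) (c0G (cF l)) (prJ p) =
      LG (cF l) (c0G (cF l)) (prJ p) * LG (cF l) (c0G (cF l)) (prI p) := by
    intro p
    rw [comm_iff h2]
    intro k r
    have h := Ex.eq_zero h2 l _ (chkA p k r)
    rw [ev_add', ev_lsum l _ _ (fun b => by rw [ev_PlF, hl]), add_zero, ev_entG] at h
    simp only [ev_cF, ev_c0G] at h
    exact h
  fin_cases i <;> fin_cases j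
  · rfl
  · exact key 0
  · exact key 1
  · exact (key 0).symm
  · rfl
  · exact key 2
  · exact (key 1).symm
  · exact (key 2).symm
  · rfl

/-- Commuting matrices satisfy Bhargava's relations. -/
theorem pl_of_comm (h2 : (2 : D) = 0) (c : Fin 6 → Fin 3 → D) (z : Fin 6 → D)
    (h : ∀ i j, LG c z i * LG c z j = LG c z j * LG c z i) (I : Fin 15) : PlF (lof c) I = 0 := by
  let ρ : ℕ → D := fun v => if h : v < 18 then c ⟨v / 3, by omega⟩ ⟨v % 3, Nat.mod_lt _ (by omega)⟩
    else if h' : v < 24 then z ⟨v - 18, by omega⟩ else 0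
  have hc : ∀ s k, (cV s k).ev ρ = c s k := by
    intro s k
    fin_cases s <;> fin_cases k <;> rfl
  have hz : ∀ s, (zV s).ev ρ = z s := by
    intro s
    fin_cases s <;> rfl
  have h1 := Ex.eq_zero h2 ρ _ (chkB I)
  rw [ev_add', ev_foldr ρ (fun x : Fin 3 × Fin 3 × Fin 3 × Fin 4 =>
    entG cV zV x.1 x.2.1 x.2.2.1 x.2.2.2)] at h1
  · rw [add_zero] at h1
    rw [← h1]
    fin_cases I <;> rfl
  · intro x _
    rw [ev_entG]
    simp only [hc, hz]
    exact (comm_iff h2 c z x.1 x.2.1).mp (h _ _) _ _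

theorem qG_entry (h2 : (2 : D) = 0) (c : Fin 6 → Fin 3 → D) (z : Fin 6 → D) (u j w : Fin 3)
    (huj : u ≠ j) (h : LG c z u * LG c z j = LG c z j * LG c z u) :
    z (sy j w) = qG c u j w u := by
  have h1 := (comm_iff h2 c z u j).mp h w u.succ
  unfold entG at h1
  have e1 : (krF u.succ u : D) = 1 := by
    unfold krF
    rw [if_pos rfl]
  have e2 : (krF u.succ j : D) = 0 := by
    unfold krF
    rw [if_neg (fun h => huj (Fin.succ_injective _ h))]
  have e3 : ∀ s, cA c z s u.succ = c s u := by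
    intro s
    fin_cases u <;> rfl
  rw [e1, e2, e3, e3, e3, e3, e3, e3] at h1
  apply eq_of_add_two h2
  unfold qG
  linear_combination h1

theorem c0_of_comm (h2 : (2 : D) = 0) (c : Fin 6 → Fin 3 → D) (z : Fin 6 → D)
    (h : ∀ i j, LG c z i * LG c z j = LG c z j * LG c z i) (s : Fin 6) : z s = c0G c s := by
  fin_cases s
  · exact qG_entry h2 c z 2 0 0 (by decide) (h _ _)
  · exact qG_entry h2 c z 2 0 1 (by decide) (h _ _)
  · exact qG_entry h2 c z 2 0 2 (by decide) (h _ _)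
  · exact qG_entry h2 c z 2 1 1 (by decide) (h _ _)
  · exact qG_entry h2 c z 2 1 2 (by decide) (h _ _)
  · exact qG_entry h2 c z 1 2 2 (by decide) (h _ _)

theorem cF_lof (h2 : (2 : D) = 0) (c : Fin 6 → Fin 3 → D) (s : Fin 6) (k : Fin 3) :
    cF (lof c) s k = c s k := by
  have key : ∀ x y : D, x + (y + x) = y := fun x y => by linear_combination x * h2
  have key' : ∀ x y : D, x + (y + x) = y := fun x y => by linear_combination x * h2
  fin_cases s <;> fin_cases k
  · exact key (c 2 2 + c 1 1) (c 0 0)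
  · rfl
  · rfl
  · rfl
  · rfl
  · rfl
  · rfl
  · rfl
  · exact key (c 1 1) (c 2 2)
  · rfl
  · exact key (c 4 2 + c 1 0) (c 3 1)
  · rfl
  · rfl
  · exact key (c 2 0) (c 4 1)
  · exact key (c 1 0) (c 4 2)
  · rfl
  · rfl
  · exact key (c 4 1 + c 2 0) (c 5 2)

end Ring

end

end Pool.Agent.Helper90.Hilb8C
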