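import Pool.Agent.Helper97.Hilb8.ChartDefs

/-!
# Chart c of the Hilbert scheme of 8 points of affine 4-space
-/

namespace Pool.Agent.Helper90.Hilb8C

open Pool.Agent.Helper97.Hilb8

/-- Exponent vectors in chart c: basis `1,x₁,x₂,x₃,x₄,x₁x₄,x₂x₄,x₃x₄`; border
`x₁²,x₁x₂,x₁x₃,x₂²,x₂x₃,x₃²,x₄²,x₁x₄²,x₂x₄²,x₃x₄²,x₁²x₄,x₁x₂x₄,x₁x₃x₄,x₂²x₄,x₂x₃x₄,x₃²x₄`. -/
def monoC : List (List ℕ) :=
  [[0,0,0,0],[1,0,0,0],[0,1,0,0],[0,0,1,0],[0,0,0,1],[1,0,0,1],[0,1,0,1],[0,0,1,1],[2,0,0,0],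
   [1,1,0,0],[1,0,1,0],[0,2,0,0],[0,1,1,0],[0,0,2,0],[0,0,0,2],[1,0,0,2],[0,1,0,2],[0,0,1,2],
   [2,0,0,1],[1,1,0,1],[1,0,1,1],[0,2,0,1],[0,1,1,1],[0,0,2,1]]

/-- Successor table of chart c. -/
def nxtC : List (List ℕ) :=
  [[1,8,9,10,5,18,19,20],[2,9,11,12,6,19,21,22],[3,10,12,13,7,20,22,23],
   [4,5,6,7,14,15,16,17]]

/-- Chart c. -/
def chartC : Chart where
  nb := 16
  mono := fun n i => (monoC.getD n []).getD i 0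
  nxt := fun i c => (nxtC.getD i []).getD c 0
  nxt_lt := by decide
  mono_zero := by decide
  mono_nxt := by decide
  pred := by decide
  border := by decide

end Pool.Agent.Helper90.Hilb8C
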