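import Pool.Agent.Helper97.Hilb8.Charts
import Pool.Agent.Helper97.Hilb8.L.LI2
import Pool.Agent.Helper97.Hilb8.L.Loc2
import Pool.Agent.Helper28.Hilb8.D.ChartD
import Pool.Agent.Helper90.Hilb8C.Chart

/-!
# The four charts cover everything in characteristic 2
-/

universe u

namespace Pool.Agent.Helper90.Hilb8C

open Pool.Agent.Helper97.Hilb8 Pool.Agent.Helper28.Hilb8 MvPolynomial TensorProduct

/-- A coordinate that vanishes in the closed fibre. -/
theorem residue_repr_eq_zero {O : Type u} [CommRing O] [IsLocalRing O] {A : Type u} [CommRing A]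
    [Algebra O A] (b : Module.Basis (Fin 8) O A) (s : Set (Fin 8)) (a : A)
    (h : (1 : IsLocalRing.ResidueField O) ⊗ₜ[O] a ∈ Submodule.span (IsLocalRing.ResidueField O)
      ((fun i => (1 : IsLocalRing.ResidueField O) ⊗ₜ[O] b i) '' s)) (c : Fin 8) (hc : c ∉ s) :
    IsLocalRing.residue O (b.repr a c) = 0 := by
  have e : (fun i => (1 : IsLocalRing.ResidueField O) ⊗ₜ[O] b i) =
      (b.baseChange (IsLocalRing.ResidueField O) : Fin 8 → _) := by
    funext i
    rw [Module.Basis.baseChange_apply]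
  rw [e] at h
  have h1 := (Module.Basis.mem_span_image (b.baseChange (IsLocalRing.ResidueField O))).mp h
  have h2 : (b.baseChange (IsLocalRing.ResidueField O)).repr
      ((1 : IsLocalRing.ResidueField O) ⊗ₜ[O] a) c = 0 := by
    by_contra hne
    exact hc (h1 (Finset.mem_coe.mpr (Finsupp.mem_support_iff.mpr hne)))
  rw [Module.Basis.baseChange_repr_tmul, Algebra.smul_def, mul_one] at h2
  exact h2

/-- The four charts cover everything in characteristic 2. -/
theorem versalLift_of_charts2 (k : Type u) [Field k] [Infinite k] (h2 : (2 : k) = 0)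
    (hA : _root_.IsReduced (MvPolynomial (Fin (8 * chartA.nb)) k ⧸ chartA.ideal k))
    (hB : _root_.IsReduced (MvPolynomial (Fin (8 * chartB.nb)) k ⧸ chartB.ideal k))
    (hC : LocRed chartC k) (hD : LocRed chartD k)
    (O : Type u) [CommRing O] [IsLocalRing O] [Algebra k O] (A : Type u) [CommRing A]
    [Algebra O A] (bA : Module.Basis (Fin 8) O A) (x : Fin 4 → A)
    (hx : Algebra.adjoin O (Set.range x) = ⊤) : VersalLift k O A := by
  let κ := IsLocalRing.ResidueField O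
  let f : k →+* κ := (IsLocalRing.residue O).comp (algebraMap k O)
  have hinf : Infinite κ := Infinite.of_injective f f.injective
  have h2' : (2 : κ) = 0 := by
    have : (2 : κ) = f 2 := by rw [map_ofNat]
    rw [this, h2, map_zero]
  have hcard : Module.finrank κ (κ ⊗[O] A) = 8 := by
    rw [Module.finrank_eq_card_basis (bA.baseChange κ), Fintype.card_fin]
  have hm : ∀ a b : A, (1 : κ) ⊗ₜ[O] a * (1 : κ) ⊗ₜ[O] b = (1 : κ) ⊗ₜ[O] (a * b) := fun a b => by
    rw [Algebra.TensorProduct.tmul_mul_tmul, one_mul]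
  rcases lemmaI2 h2' hcard (fun i => (1 : κ) ⊗ₜ[O] x i) (adjoin_tmul x hx) with
    ⟨y, z, h⟩ | ⟨w, y, z, h⟩ | ⟨x1, x2, x3, z, h, hz⟩ | ⟨x1, x2, x3, w, h, hs1, hs2, hs3⟩
  · obtain ⟨v, h⟩ := exists_linearIndependent_cons_of_lt_finrank h (by rw [hcard]; norm_num)
    obtain ⟨u, h⟩ := exists_linearIndependent_cons_of_lt_finrank h (by rw [hcard]; norm_num)
    obtain ⟨y, rfl⟩ := residue_lift y
    obtain ⟨z, rfl⟩ := residue_lift z
    obtain ⟨u, rfl⟩ := residue_lift u
    obtain ⟨v, rfl⟩ := residue_lift v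
    have hs := h.comp ![(2 : Fin 8), 0, 1, 3, 4, 5, 6, 7] (by decide)
    have e : (Fin.cons ((1 : κ) ⊗ₜ[O] u) (Fin.cons ((1 : κ) ⊗ₜ[O] v)
        ![1, (1 : κ) ⊗ₜ[O] y, (1 : κ) ⊗ₜ[O] z, (1 : κ) ⊗ₜ[O] y * (1 : κ) ⊗ₜ[O] y,
          (1 : κ) ⊗ₜ[O] y * (1 : κ) ⊗ₜ[O] z, (1 : κ) ⊗ₜ[O] z * (1 : κ) ⊗ₜ[O] z]) :
          Fin 8 → κ ⊗[O] A) ∘ ![(2 : Fin 8), 0, 1, 3, 4, 5, 6, 7] =
        (fun i => (1 : κ) ⊗ₜ[O] (![1, u, v, y, z, y * y, y * z, z * z] : Fin 8 → A) i) := by
      funext i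
      fin_cases i
      · rfl
      · rfl
      · rfl
      · rfl
      · rfl
      · exact (hm y y)
      · exact (hm y z)
      · exact (hm z z)
    rw [e] at hs
    obtain ⟨b, hb⟩ := basis_of_residue bA ![1, u, v, y, z, y * y, y * z, z * z] hs
    refine chartB.versalLift_of_basis k hB O A ![u, v, y, z] b ?_
    intro c
    rw [hb]
    fin_cases c <;> simp [Chart.monoEl, chartB, monoB, pow_two]
  · obtain ⟨u, h⟩ := exists_linearIndependent_cons_of_lt_finrank h (by rw [hcard]; norm_num)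
    obtain ⟨w, rfl⟩ := residue_lift w
    obtain ⟨y, rfl⟩ := residue_lift y
    obtain ⟨z, rfl⟩ := residue_lift z
    obtain ⟨u, rfl⟩ := residue_lift u
    have hs := h.comp ![(1 : Fin 8), 0, 2, 3, 4, 5, 6, 7] (by decide)
    have e : (Fin.cons ((1 : κ) ⊗ₜ[O] u)
        ![1, (1 : κ) ⊗ₜ[O] w, (1 : κ) ⊗ₜ[O] y, (1 : κ) ⊗ₜ[O] z,
          (1 : κ) ⊗ₜ[O] z * (1 : κ) ⊗ₜ[O] z,
          (1 : κ) ⊗ₜ[O] y * (1 : κ) ⊗ₜ[O] z, (1 : κ) ⊗ₜ[O] w * (1 : κ) ⊗ₜ[O] z] :
          Fin 8 → κ ⊗[O] A) ∘ ![(1 : Fin 8), 0, 2, 3, 4, 5, 6, 7] =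
        (fun i => (1 : κ) ⊗ₜ[O] (![1, u, w, y, z, z * z, y * z, w * z] : Fin 8 → A) i) := by
      funext i
      fin_cases i
      · rfl
      · rfl
      · rfl
      · rfl
      · rfl
      · exact (hm z z)
      · exact (hm y z)
      · exact (hm w z)
    rw [e] at hs
    obtain ⟨b, hb⟩ := basis_of_residue bA ![1, u, w, y, z, z * z, y * z, w * z] hs
    refine chartA.versalLift_of_basis k hA O A ![u, w, y, z] b ?_
    intro c
    rw [hb]
    fin_cases c <;> simp [Chart.monoEl, chartA, monoA, pow_two]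
  · obtain ⟨x1, rfl⟩ := residue_lift x1
    obtain ⟨x2, rfl⟩ := residue_lift x2
    obtain ⟨x3, rfl⟩ := residue_lift x3
    obtain ⟨z, rfl⟩ := residue_lift z
    have e : (![1, (1 : κ) ⊗ₜ[O] x1, (1 : κ) ⊗ₜ[O] x2, (1 : κ) ⊗ₜ[O] x3, (1 : κ) ⊗ₜ[O] z,
          (1 : κ) ⊗ₜ[O] x1 * (1 : κ) ⊗ₜ[O] z, (1 : κ) ⊗ₜ[O] x2 * (1 : κ) ⊗ₜ[O] z,
          (1 : κ) ⊗ₜ[O] x3 * (1 : κ) ⊗ₜ[O] z] : Fin 8 → κ ⊗[O] A) =
        (fun i => (1 : κ) ⊗ₜ[O] (![1, x1, x2, x3, z, x1 * z, x2 * z, x3 * z] : Fin 8 → A) i) := by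
      funext i
      fin_cases i
      · rfl
      · rfl
      · rfl
      · rfl
      · rfl
      · exact (hm x1 z)
      · exact (hm x2 z)
      · exact (hm x3 z)
    rw [e] at h
    obtain ⟨b, hb⟩ := basis_of_residue bA ![1, x1, x2, x3, z, x1 * z, x2 * z, x3 * z] h
    refine versalLift_loc2 chartC k hC ![3, 3, 3, 2] O A ![x1, x2, x3, z] b ?_ ?_
    · intro c
      rw [hb]
      fin_cases c <;> simp [Chart.monoEl, chartC, monoC]
    · intro v hv hp
      have key : ∀ v < 8 * chartC.nb, pr chartC ![3, 3, 3, 2] (8 + v / 8) ≤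
          pr chartC ![3, 3, 3, 2] (v % 8) → v / 8 = 6 ∧ 5 ≤ v % 8 := by decide +kernel
      obtain ⟨h6, h5⟩ := key v hv hp
      rw [coord_eq, h6]
      have hmon : chartC.monoEl ![x1, x2, x3, z] (8 + 6) = z * z := by
        simp [Chart.monoEl, chartC, monoC, pow_two]
      rw [hmon]
      refine residue_repr_eq_zero b {i | (i : ℕ) < 5} (z * z) ?_ _ (by
        simp only [Set.mem_ofPred_eq, not_lt]
        exact h5)
      have himg : ((fun i => (1 : κ) ⊗ₜ[O] b i) '' {i : Fin 8 | (i : ℕ) < 5}) =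
          {1, (1 : κ) ⊗ₜ[O] x1, (1 : κ) ⊗ₜ[O] x2, (1 : κ) ⊗ₜ[O] x3, (1 : κ) ⊗ₜ[O] z} := by
        ext t
        simp only [Set.mem_image, Set.mem_ofPred_eq, Set.mem_insert_iff, Set.mem_singleton_iff]
        constructor
        · rintro ⟨i, hi, rfl⟩
          rw [hb]
          fin_cases i
          · exact Or.inl rfl
          · exact Or.inr (Or.inl rfl)
          · exact Or.inr (Or.inr (Or.inl rfl))
          · exact Or.inr (Or.inr (Or.inr (Or.inl rfl)))
          · exact Or.inr (Or.inr (Or.inr (Or.inr rfl)))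
          · exact absurd hi (by decide)
          · exact absurd hi (by decide)
          · exact absurd hi (by decide)
        · rintro (rfl | rfl | rfl | rfl | rfl)
          · exact ⟨0, by decide, by rw [hb]; rfl⟩
          · exact ⟨1, by decide, by rw [hb]; rfl⟩
          · exact ⟨2, by decide, by rw [hb]; rfl⟩
          · exact ⟨3, by decide, by rw [hb]; rfl⟩
          · exact ⟨4, by decide, by rw [hb]; rfl⟩
      rw [himg, ← hm]
      exact hz
  · obtain ⟨x1, rfl⟩ := residue_lift x1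
    obtain ⟨x2, rfl⟩ := residue_lift x2
    obtain ⟨x3, rfl⟩ := residue_lift x3
    obtain ⟨w, rfl⟩ := residue_lift w
    have e : (![1, (1 : κ) ⊗ₜ[O] x1, (1 : κ) ⊗ₜ[O] x2, (1 : κ) ⊗ₜ[O] x3, (1 : κ) ⊗ₜ[O] w,
          (1 : κ) ⊗ₜ[O] x1 * (1 : κ) ⊗ₜ[O] x2, (1 : κ) ⊗ₜ[O] x1 * (1 : κ) ⊗ₜ[O] x3,
          (1 : κ) ⊗ₜ[O] x2 * (1 : κ) ⊗ₜ[O] x3] : Fin 8 → κ ⊗[O] A) =
        (fun i => (1 : κ) ⊗ₜ[O] (![1, x1, x2, x3, w, x1 * x2, x1 * x3, x2 * x3] :
          Fin 8 → A) i) := by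
      funext i
      fin_cases i
      · rfl
      · rfl
      · rfl
      · rfl
      · rfl
      · exact (hm x1 x2)
      · exact (hm x1 x3)
      · exact (hm x2 x3)
    rw [e] at h
    obtain ⟨b, hb⟩ := basis_of_residue bA ![1, x1, x2, x3, w, x1 * x2, x1 * x3, x2 * x3] h
    have himg : ((fun i => (1 : κ) ⊗ₜ[O] b i) '' {i : Fin 8 | (i : ℕ) < 5}) =
        {1, (1 : κ) ⊗ₜ[O] x1, (1 : κ) ⊗ₜ[O] x2, (1 : κ) ⊗ₜ[O] x3, (1 : κ) ⊗ₜ[O] w} := by
      ext t
      simp only [Set.mem_image, Set.mem_ofPred_eq, Set.mem_insert_iff, Set.mem_singleton_iff]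
      constructor
      · rintro ⟨i, hi, rfl⟩
        rw [hb]
        fin_cases i
        · exact Or.inl rfl
        · exact Or.inr (Or.inl rfl)
        · exact Or.inr (Or.inr (Or.inl rfl))
        · exact Or.inr (Or.inr (Or.inr (Or.inl rfl)))
        · exact Or.inr (Or.inr (Or.inr (Or.inr rfl)))
        · exact absurd hi (by decide)
        · exact absurd hi (by decide)
        · exact absurd hi (by decide)
      · rintro (rfl | rfl | rfl | rfl | rfl)
        · exact ⟨0, by decide, by rw [hb]; rfl⟩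
        · exact ⟨1, by decide, by rw [hb]; rfl⟩
        · exact ⟨2, by decide, by rw [hb]; rfl⟩
        · exact ⟨3, by decide, by rw [hb]; rfl⟩
        · exact ⟨4, by decide, by rw [hb]; rfl⟩
    refine versalLift_loc2 chartD k hD ![2, 2, 2, 3] O A ![x1, x2, x3, w] b ?_ ?_
    · intro c
      rw [hb]
      fin_cases c <;> simp [Chart.monoEl, chartD, monoD]
    · intro v hv hp
      have key : ∀ v < 8 * chartD.nb, pr chartD ![2, 2, 2, 3] (8 + v / 8) ≤
          pr chartD ![2, 2, 2, 3] (v % 8) → (v / 8 = 0 ∨ v / 8 = 2 ∨ v / 8 = 4) ∧ 5 ≤ v % 8 := by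
        decide +kernel
      obtain ⟨h6, h5⟩ := key v hv hp
      rw [coord_eq]
      rcases h6 with h6 | h6 | h6
      · rw [h6]
        have hmon : chartD.monoEl ![x1, x2, x3, w] (8 + 0) = x1 * x1 := by
          simp [Chart.monoEl, chartD, monoD, pow_two]
        rw [hmon]
        refine residue_repr_eq_zero b {i | (i : ℕ) < 5} _ ?_ _ (by
          simp only [Set.mem_ofPred_eq, not_lt]
          exact h5)
        rw [himg, ← hm]
        exact hs1
      · rw [h6]
        have hmon : chartD.monoEl ![x1, x2, x3, w] (8 + 2) = x2 * x2 := by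
          simp [Chart.monoEl, chartD, monoD, pow_two]
        rw [hmon]
        refine residue_repr_eq_zero b {i | (i : ℕ) < 5} _ ?_ _ (by
          simp only [Set.mem_ofPred_eq, not_lt]
          exact h5)
        rw [himg, ← hm]
        exact hs2
      · rw [h6]
        have hmon : chartD.monoEl ![x1, x2, x3, w] (8 + 4) = x3 * x3 := by
          simp [Chart.monoEl, chartD, monoD, pow_two]
        rw [hmon]
        refine residue_repr_eq_zero b {i | (i : ℕ) < 5} _ ?_ _ (by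
          simp only [Set.mem_ofPred_eq, not_lt]
          exact h5)
        rw [himg, ← hm]
        exact hs3

end Pool.Agent.Helper90.Hilb8C
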