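import Pool.Agent.Helper90.Hilb8C.Chart
import Pool.Agent.Helper90.Hilb8C.Alg2
import Pool.Agent.Helper97.Hilb8.Charts

/-!
# Block structure of chart c and exact relations
-/

namespace Pool.Agent.Helper90.Hilb8C

open Pool.Agent.Helper97.Hilb8 Matrix

noncomputable section

section Defs

variable {R : Type*} [CommRing R] (a : ℕ → R)

/-- Coefficients of `x_k` in the products. -/
def cS (s : Fin 6) (k : Fin 3) : R := a (8 * s + (k + 1))

/-- Coefficients of `1` in the products. -/
def zS (s : Fin 6) : R := a (8 * s)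

/-- Coefficients of `x_k x₄` in the products. -/
def cT (s : Fin 6) (k : Fin 3) : R := a (8 * s + (k + 5))

/-- Coefficients of `x₄` in the products. -/
def zT (s : Fin 6) : R := a (8 * s + 4)

/-- The part without `x₄`. -/
def SM (i : Fin 3) : Matrix (Fin 4) (Fin 4) R := LG (cS a) (zS a) i

/-- The matrix with structure constants `c`, `z` and first column zero. -/
def TG (c : Fin 6 → Fin 3 → R) (z : Fin 6 → R) (i : Fin 3) : Matrix (Fin 4) (Fin 4) R :=
  Matrix.of fun r => Fin.cases 0 (fun k => cA c z (sy i k) r)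

/-- The part with `x₄`. -/
def TM (i : Fin 3) : Matrix (Fin 4) (Fin 4) R := TG (cT a) (zT a) i

/-- Upper right block. -/
def PM (i : Fin 3) : Matrix (Fin 4) (Fin 4) R :=
  Matrix.of fun r => Fin.cases 0 (fun k => a (8 * (10 + sy i k) + r))

/-- Lower right block. -/
def QM (i : Fin 3) : Matrix (Fin 4) (Fin 4) R :=
  Matrix.of fun r => Fin.cases (krF r i) (fun k => a (8 * (10 + sy i k) + (r + 4)))

/-- Upper right block of `x₄`. -/
def CM : Matrix (Fin 4) (Fin 4) R := Matrix.of fun r c => a (8 * (6 + c) + r)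

/-- Lower right block of `x₄`. -/
def BM : Matrix (Fin 4) (Fin 4) R := Matrix.of fun r c => a (8 * (6 + c) + (r + 4))

/-- The multiplication matrices in block form. -/
def bm (i : Fin 4) : Matrix (Fin 4 ⊕ Fin 4) (Fin 4 ⊕ Fin 4) R :=
  (chartC.mat a i).submatrix (finSumFinEquiv (m := 4) (n := 4)) (finSumFinEquiv (m := 4) (n := 4))

theorem bm_cast (i : Fin 3) : bm a i.castSucc = fromBlocks (SM a i) (PM a i) (TM a i) (QM a i) := by
  ext r c
  rcases r with r | r <;> rcases c with c | c <;>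
    fin_cases i <;> fin_cases r <;> fin_cases c <;> rfl

theorem bm_last : bm a 3 = fromBlocks 0 (CM a) 1 (BM a) := by
  ext r c
  rcases r with r | r <;> rcases c with c | c <;>
    fin_cases r <;> fin_cases c <;> rfl

theorem bm_comm (ha : chartC.IsPt a) (i j : Fin 4) : bm a i * bm a j = bm a j * bm a i := by
  unfold bm
  rw [Matrix.submatrix_mul_equiv, Matrix.submatrix_mul_equiv, ha i j]

theorem isPt_of_bm (h : ∀ i j, bm a i * bm a j = bm a j * bm a i) : chartC.IsPt a := by
  intro i j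
  have h1 := h i j
  unfold bm at h1
  rw [Matrix.submatrix_mul_equiv, Matrix.submatrix_mul_equiv] at h1
  have h2 := congrArg (fun M => M.submatrix (finSumFinEquiv (m := 4) (n := 4)).symm
    (finSumFinEquiv (m := 4) (n := 4)).symm) h1
  simpa using h2

end Defs

section Rel

variable {R : Type*} [CommRing R] (a : ℕ → R) (ha : chartC.IsPt a)

theorem SM_zero (i : Fin 3) (r : Fin 4) : SM a i r 0 = krF r i := rfl

theorem SM_succ (i k : Fin 3) (r : Fin 4) : SM a i r k.succ = cA (cS a) (zS a) (sy i k) r := rfl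

theorem TM_zero (i : Fin 3) (r : Fin 4) : TM a i r 0 = 0 := rfl

theorem TM_succ (i k : Fin 3) (r : Fin 4) : TM a i r k.succ = cA (cT a) (zT a) (sy i k) r := rfl

theorem SM_symm (i k : Fin 3) (r : Fin 4) : SM a i r k.succ = SM a k r i.succ := by
  rw [SM_succ, SM_succ, sy_comm]

theorem TM_symm (i k : Fin 3) (r : Fin 4) : TM a i r k.succ = TM a k r i.succ := by
  rw [TM_succ, TM_succ, sy_comm]

include ha

theorem rel1 (i : Fin 3) : PM a i = CM a * TM a i ∧ QM a i = SM a i + BM a * TM a i ∧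
    CM a * QM a i = SM a i * CM a + PM a i * BM a ∧
    PM a i + BM a * QM a i = TM a i * CM a + QM a i * BM a := by
  have h := bm_comm a ha 3 i.castSucc
  rw [bm_cast, bm_last, fromBlocks_multiply, fromBlocks_multiply, fromBlocks_inj] at h
  obtain ⟨h1, h2, h3, h4⟩ := h
  rw [zero_mul, zero_add, mul_zero, zero_add, mul_one] at h1
  rw [zero_mul, zero_add] at h2
  rw [one_mul, mul_zero, zero_add, mul_one] at h3
  rw [one_mul] at h4
  exact ⟨h1.symm, h3.symm, h2, h4⟩

theorem rel2 (i j : Fin 3) :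
    SM a i * SM a j + CM a * (TM a i * TM a j) = SM a j * SM a i + CM a * (TM a j * TM a i) ∧
    TM a i * SM a j + SM a i * TM a j + BM a * (TM a i * TM a j) =
      TM a j * SM a i + SM a j * TM a i + BM a * (TM a j * TM a i) := by
  have h := bm_comm a ha i.castSucc j.castSucc
  rw [bm_cast, bm_cast, fromBlocks_multiply, fromBlocks_multiply, fromBlocks_inj] at h
  obtain ⟨h1, -, h3, -⟩ := h
  obtain ⟨p1, q1, -, -⟩ := rel1 a ha i
  obtain ⟨p2, q2, -, -⟩ := rel1 a ha j
  rw [p1, p2] at h1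
  rw [q1, q2] at h3
  constructor
  · rw [← mul_assoc, ← mul_assoc]
    exact h1
  · rw [← mul_assoc, ← mul_assoc]
    have e1 : TM a i * SM a j + (SM a i + BM a * TM a i) * TM a j =
      TM a i * SM a j + SM a i * TM a j + BM a * TM a i * TM a j := by
      rw [add_mul]
      abel
    have e2 : TM a j * SM a i + (SM a j + BM a * TM a j) * TM a i =
      TM a j * SM a i + SM a j * TM a i + BM a * TM a j * TM a i := by
      rw [add_mul]
      abel
    rw [← e1, ← e2]
    exact h3

/-- `S_b` for `b` the coefficients of `x₄²`. -/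
theorem CM_eq : CM a = CM a 0 0 • (1 : Matrix (Fin 4) (Fin 4) R) +
    ∑ k : Fin 3, CM a k.succ 0 • SM a k + CM a * ∑ k : Fin 3, BM a k.succ 0 • TM a k := by
  ext r c
  rw [Matrix.add_apply, Matrix.add_apply, Matrix.smul_apply, Matrix.mul_sum, Matrix.sum_apply,
    Matrix.sum_apply, Fin.sum_univ_three, Fin.sum_univ_three]
  simp only [Matrix.smul_apply, Matrix.mul_smul, smul_eq_mul]
  refine Fin.cases ?_ (fun i => ?_) c
  · have h0 : ∀ k, (CM a * TM a k) r 0 = 0 := by
      intro k
      rw [Matrix.mul_apply]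
      apply Finset.sum_eq_zero
      intro s _
      rw [TM_zero, mul_zero]
    rw [h0, h0, h0, SM_zero, SM_zero, SM_zero]
    unfold krF
    fin_cases r <;> simp [Matrix.one_apply]
  · obtain ⟨-, -, h, -⟩ := rel1 a ha i
    have h1 := congrFun (congrFun h r) 0
    obtain ⟨h2, -, -, -⟩ := rel1 a ha i
    rw [h2, Matrix.add_apply, mul_assoc, Matrix.mul_apply, Matrix.mul_apply (M := SM a i)] at h1
    have e1 : ∀ s, QM a i s 0 = krF s i := fun s => rfl
    simp only [e1, Fin.sum_univ_four, SM_zero] at h1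
    have e2 : (CM a * (TM a i * BM a)) r 0 =
        BM a 1 0 * (CM a * TM a 0) r i.succ + BM a 2 0 * (CM a * TM a 1) r i.succ +
          BM a 3 0 * (CM a * TM a 2) r i.succ := by
      rw [Matrix.mul_apply, Matrix.mul_apply, Matrix.mul_apply, Matrix.mul_apply]
      simp only [Fin.sum_univ_four, Matrix.mul_apply, TM_zero]
      have t1 : ∀ s, TM a i s 1 = TM a 0 s i.succ := fun s => TM_symm a i 0 s
      have t2 : ∀ s, TM a i s 2 = TM a 1 s i.succ := fun s => TM_symm a i 1 s
      have t3 : ∀ s, TM a i s 3 = TM a 2 s i.succ := fun s => TM_symm a i 2 s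
      rw [t1, t1, t1, t1, t2, t2, t2, t2, t3, t3, t3, t3]
      ring
    rw [e2] at h1
    have s1 : SM a i r 1 = SM a 0 r i.succ := SM_symm a i 0 r
    have s2 : SM a i r 2 = SM a 1 r i.succ := SM_symm a i 1 r
    have s3 : SM a i r 3 = SM a 2 r i.succ := SM_symm a i 2 r
    rw [s1, s2, s3] at h1
    have e3 : CM a r 0 * krF 0 i + CM a r 1 * krF 1 i + CM a r 2 * krF 2 i + CM a r 3 * krF 3 i =
        CM a r i.succ := by
      unfold krF
      fin_cases i <;> simp
    rw [e3] at h1
    rw [h1]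
    have e4 : (1 : Matrix (Fin 4) (Fin 4) R) r i.succ = krF r i := by
      rw [Matrix.one_apply]
      rfl
    rw [e4]
    have f1 : BM a (Fin.succ 0) 0 = BM a 1 0 := rfl
    have f2 : BM a (Fin.succ 1) 0 = BM a 2 0 := rfl
    have f3 : BM a (Fin.succ 2) 0 = BM a 3 0 := rfl
    have g1 : CM a (Fin.succ 0) 0 = CM a 1 0 := rfl
    have g2 : CM a (Fin.succ 1) 0 = CM a 2 0 := rfl
    have g3 : CM a (Fin.succ 2) 0 = CM a 3 0 := rfl
    rw [f1, f2, f3, g1, g2, g3]
    ring

theorem BM_eq : BM a = BM a 0 0 • (1 : Matrix (Fin 4) (Fin 4) R) +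
    ∑ k : Fin 3, CM a k.succ 0 • TM a k + ∑ k : Fin 3, BM a k.succ 0 • SM a k +
    BM a * ∑ k : Fin 3, BM a k.succ 0 • TM a k := by
  ext r c
  rw [Matrix.add_apply, Matrix.add_apply, Matrix.add_apply, Matrix.smul_apply, Matrix.mul_sum,
    Matrix.sum_apply, Matrix.sum_apply, Matrix.sum_apply, Fin.sum_univ_three, Fin.sum_univ_three,
    Fin.sum_univ_three]
  simp only [Matrix.smul_apply, Matrix.mul_smul, smul_eq_mul]
  refine Fin.cases ?_ (fun i => ?_) c
  · have h0 : ∀ k, (BM a * TM a k) r 0 = 0 := by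
      intro k
      rw [Matrix.mul_apply]
      apply Finset.sum_eq_zero
      intro s _
      rw [TM_zero, mul_zero]
    rw [h0, h0, h0, SM_zero, SM_zero, SM_zero, TM_zero, TM_zero, TM_zero]
    unfold krF
    fin_cases r <;> simp [Matrix.one_apply]
  · obtain ⟨-, hq, -, h⟩ := rel1 a ha i
    have h1 := congrFun (congrFun h r) 0
    rw [Matrix.add_apply, Matrix.add_apply, Matrix.mul_apply (M := BM a),
      Matrix.mul_apply (M := TM a i)] at h1
    have e0 : PM a i r 0 = 0 := rfl
    have e1 : ∀ s, QM a i s 0 = krF s i := fun s => rfl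
    simp only [e0, e1, Fin.sum_univ_four, TM_zero] at h1
    rw [hq, add_mul, Matrix.add_apply, mul_assoc, Matrix.mul_apply (M := SM a i)] at h1
    simp only [Fin.sum_univ_four, SM_zero] at h1
    have e2 : (BM a * (TM a i * BM a)) r 0 =
        BM a 1 0 * (BM a * TM a 0) r i.succ + BM a 2 0 * (BM a * TM a 1) r i.succ +
          BM a 3 0 * (BM a * TM a 2) r i.succ := by
      rw [Matrix.mul_apply, Matrix.mul_apply, Matrix.mul_apply, Matrix.mul_apply]
      simp only [Fin.sum_univ_four, Matrix.mul_apply, TM_zero]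
      have t1 : ∀ s, TM a i s 1 = TM a 0 s i.succ := fun s => TM_symm a i 0 s
      have t2 : ∀ s, TM a i s 2 = TM a 1 s i.succ := fun s => TM_symm a i 1 s
      have t3 : ∀ s, TM a i s 3 = TM a 2 s i.succ := fun s => TM_symm a i 2 s
      rw [t1, t1, t1, t1, t2, t2, t2, t2, t3, t3, t3, t3]
      ring
    rw [e2] at h1
    have s1 : SM a i r 1 = SM a 0 r i.succ := SM_symm a i 0 r
    have s2 : SM a i r 2 = SM a 1 r i.succ := SM_symm a i 1 r
    have s3 : SM a i r 3 = SM a 2 r i.succ := SM_symm a i 2 r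
    have t1 : TM a i r 1 = TM a 0 r i.succ := TM_symm a i 0 r
    have t2 : TM a i r 2 = TM a 1 r i.succ := TM_symm a i 1 r
    have t3 : TM a i r 3 = TM a 2 r i.succ := TM_symm a i 2 r
    rw [s1, s2, s3, t1, t2, t3] at h1
    have e3 : BM a r 0 * krF 0 i + BM a r 1 * krF 1 i + BM a r 2 * krF 2 i + BM a r 3 * krF 3 i =
        BM a r i.succ := by
      unfold krF
      fin_cases i <;> simp
    rw [e3, zero_add] at h1
    rw [h1]
    have e4 : (1 : Matrix (Fin 4) (Fin 4) R) r i.succ = krF r i := by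
      rw [Matrix.one_apply]
      rfl
    rw [e4]
    have f1 : BM a (Fin.succ 0) 0 = BM a 1 0 := rfl
    have f2 : BM a (Fin.succ 1) 0 = BM a 2 0 := rfl
    have f3 : BM a (Fin.succ 2) 0 = BM a 3 0 := rfl
    have g1 : CM a (Fin.succ 0) 0 = CM a 1 0 := rfl
    have g2 : CM a (Fin.succ 1) 0 = CM a 2 0 := rfl
    have g3 : CM a (Fin.succ 2) 0 = CM a 3 0 := rfl
    rw [f1, f2, f3, g1, g2, g3]
    ring

/-- First trace relation. -/
theorem tr1 (i j : Fin 3) : Matrix.trace ((∑ k : Fin 3, CM a k.succ 0 • SM a k +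
    CM a * ∑ k : Fin 3, BM a k.succ 0 • TM a k) * (TM a i * TM a j - TM a j * TM a i)) = 0 := by
  have h1 : Matrix.trace (CM a * (TM a i * TM a j - TM a j * TM a i)) = 0 := by
    have h := (rel2 a ha i j).1
    have h2 : CM a * (TM a i * TM a j - TM a j * TM a i) = SM a j * SM a i - SM a i * SM a j := by
      rw [mul_sub, sub_eq_sub_iff_add_eq_add, add_comm, h, add_comm]
    rw [h2, Matrix.trace_sub, Matrix.trace_mul_comm, sub_self]
  have h2 : (∑ k : Fin 3, CM a k.succ 0 • SM a k +
      CM a * ∑ k : Fin 3, BM a k.succ 0 • TM a k) = CM a - CM a 0 0 • 1 := by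
    conv_rhs => lhs; rw [CM_eq a ha]
    abel
  rw [h2, sub_mul, Matrix.trace_sub, h1, smul_mul_assoc, one_mul, Matrix.trace_smul,
    Matrix.trace_sub, Matrix.trace_mul_comm, sub_self, smul_zero, sub_zero]

/-- Second trace relation. -/
theorem tr2 (i j : Fin 3) : Matrix.trace ((∑ k : Fin 3, CM a k.succ 0 • TM a k +
    ∑ k : Fin 3, BM a k.succ 0 • SM a k +
    BM a * ∑ k : Fin 3, BM a k.succ 0 • TM a k) * (TM a i * TM a j - TM a j * TM a i)) = 0 := by
  have h1 : Matrix.trace (BM a * (TM a i * TM a j - TM a j * TM a i)) = 0 := by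
    have h := (rel2 a ha i j).2
    have h2 : BM a * (TM a i * TM a j - TM a j * TM a i) =
        (TM a j * SM a i - SM a i * TM a j) - (TM a i * SM a j - SM a j * TM a i) := by
      rw [mul_sub]
      have := congrArg (fun M => M - BM a * (TM a j * TM a i) - TM a i * SM a j -
        SM a i * TM a j) h
      rw [show TM a i * SM a j + SM a i * TM a j + BM a * (TM a i * TM a j) -
        BM a * (TM a j * TM a i) - TM a i * SM a j - SM a i * TM a j =
        BM a * (TM a i * TM a j) - BM a * (TM a j * TM a i) by abel] at this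
      rw [this]
      abel
    rw [h2, Matrix.trace_sub, Matrix.trace_sub, Matrix.trace_sub,
      Matrix.trace_mul_comm (TM a j), Matrix.trace_mul_comm (TM a i), sub_self, sub_self, sub_self]
  have h2 : (∑ k : Fin 3, CM a k.succ 0 • TM a k + ∑ k : Fin 3, BM a k.succ 0 • SM a k +
      BM a * ∑ k : Fin 3, BM a k.succ 0 • TM a k) = BM a - BM a 0 0 • 1 := by
    conv_rhs => lhs; rw [BM_eq a ha]
    abel
  rw [h2, sub_mul, Matrix.trace_sub, h1, smul_mul_assoc, one_mul, Matrix.trace_smul,
    Matrix.trace_sub, Matrix.trace_mul_comm, sub_self, smul_zero, sub_zero]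

end Rel

end

end Pool.Agent.Helper90.Hilb8C
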