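import Pool.Agent.Helper90.Hilb8C.Alg2

/-!
# Certificates for identities modulo 2
-/

set_option maxRecDepth 100000

namespace Pool.Agent.Helper90.Hilb8C

noncomputable section

/-- Pairs of expressions: elements `re + im w` with `w² = δ + τ w`. -/
structure PEx where
  re : Ex
  im : Ex

instance : Add PEx := ⟨fun p q => ⟨p.re + q.re, p.im + q.im⟩⟩

instance : Mul PEx := ⟨fun p q => ⟨p.re * q.re + Ex.v 31 * (p.im * q.im),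
  p.re * q.im + p.im * q.re + Ex.v 30 * (p.im * q.im)⟩⟩

/-- The coordinates over the quadratic algebra. -/
def lP (p : ℕ) : PEx := if p < 15 then ⟨Ex.v p, Ex.v (15 + p)⟩ else
  ⟨Ex.v (32 + (p - 15)), Ex.v (35 + (p - 15))⟩

section Poly

variable {α : Type*} [Add α] [Mul α]

/-- Sums of three terms. -/
def sum3 (f : Fin 3 → α) : α := f 0 + f 1 + f 2

/-- The Pfaffian. -/
def pfF (y : ℕ → α) : α :=
  y 0 * (y 9 * y 14) + y 0 * (y 10 * y 13) + y 0 * (y 11 * y 12) + y 1 * (y 6 * y 14) + y 1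
    * (y 7 * y 13) + y 1 * (y 8 * y 12) + y 2 * (y 5 * y 14) + y 2 * (y 7 * y 11) + y 2 * (y 8
    * y 10) + y 3 * (y 5 * y 13) + y 3 * (y 6 * y 11) + y 3 * (y 8 * y 9) + y 4 * (y 5 * y 12)
    + y 4 * (y 6 * y 10) + y 4 * (y 7 * y 9)

/-- The polarised Pfaffian. -/
def pfT (x y : ℕ → α) : α :=
  (x 0 * (y 9 * y 14) + y 0 * (x 9 * y 14) + y 0 * (y 9 * x 14)) + (x 0 * (y 10 * y 13) + y
    0 * (x 10 * y 13) + y 0 * (y 10 * x 13)) + (x 0 * (y 11 * y 12) + y 0 * (x 11 * y 12) + y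
    0 * (y 11 * x 12)) + (x 1 * (y 6 * y 14) + y 1 * (x 6 * y 14) + y 1 * (y 6 * x 14)) + (x 1
    * (y 7 * y 13) + y 1 * (x 7 * y 13) + y 1 * (y 7 * x 13)) + (x 1 * (y 8 * y 12) + y 1 * (x
    8 * y 12) + y 1 * (y 8 * x 12)) + (x 2 * (y 5 * y 14) + y 2 * (x 5 * y 14) + y 2 * (y 5 *
    x 14)) + (x 2 * (y 7 * y 11) + y 2 * (x 7 * y 11) + y 2 * (y 7 * x 11)) + (x 2 * (y 8 * y
    10) + y 2 * (x 8 * y 10) + y 2 * (y 8 * x 10)) + (x 3 * (y 5 * y 13) + y 3 * (x 5 * y 13)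
    + y 3 * (y 5 * x 13)) + (x 3 * (y 6 * y 11) + y 3 * (x 6 * y 11) + y 3 * (y 6 * x 11)) +
    (x 3 * (y 8 * y 9) + y 3 * (x 8 * y 9) + y 3 * (y 8 * x 9)) + (x 4 * (y 5 * y 12) + y 4 *
    (x 5 * y 12) + y 4 * (y 5 * x 12)) + (x 4 * (y 6 * y 10) + y 4 * (x 6 * y 10) + y 4 * (y 6
    * x 10)) + (x 4 * (y 7 * y 9) + y 4 * (x 7 * y 9) + y 4 * (y 7 * x 9))

/-- The trace of a product of three matrices without first row and column. -/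
def trU (c : Fin 6 → Fin 3 → α) (a b d : Fin 3) : α :=
  sum3 fun k => sum3 fun s => sum3 fun t => c (sy a s) k * (c (sy b t) s * c (sy d k) t)

/-- The trace of `S_i [T_a, T_b]`. -/
def gF (c t : Fin 6 → Fin 3 → α) (z : Fin 6 → α) (i a b : Fin 3) : α :=
  (sum3 fun u => z (sy a u) * t (sy b i) u + z (sy b u) * t (sy a i) u) +
  sum3 fun p => sum3 fun q => c (sy i q) p *
    (sum3 fun u => t (sy a u) q * t (sy b p) u + t (sy b u) q * t (sy a p) u)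

end Poly

/-- Combinations of the quadratic relations. -/
def qsum (l : List (Ex × Fin 15) × List (Ex × Fin 15)) : Ex :=
  lsum (fun I => (PlF lP I).re) l.1 + lsum (fun I => (PlF lP I).im) l.2

theorem chkF1 : Ex.chk vk 44 ((trU cV 0 1 2 + trU cV 0 2 1) + pfF (lof cV)) = true := by
  decide +kernel

/-- Certificate. -/
def certG : List (Ex × Fin 15) × List (Ex × Fin 15) :=
  ([], [((.v 27), 2), ((.v 22), 7), ((.v 24), 7), ((.v 36), 7), ((.v 21), 8), ((.v 35), 11),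
    ((.v 17), 12)])

theorem chkG : Ex.chk vk 44 ((gF (fun s k => (cF lP s k).re) (fun s k => (cF lP s k).im)
    (fun s => (c0G (cF lP) s).im) 1 2 0 + (pfT Ex.v (fun p => Ex.v (15 + p)) +
      Ex.v 30 * pfF (fun p => Ex.v (15 + p)))) + qsum certG) = true := by
  decide +kernel

/-- Certificates. -/
def certX : Fin 15 → List (Ex × Fin 15) × List (Ex × Fin 15) :=
  ![([], [((.m (.v 19) (.v 22)), 0), ((.m (.v 18) (.v 23)), 0), ((.m (.v 15) (.v 29)), 0),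
    ((.m (.v 19) (.v 21)), 1), ((.m (.v 17) (.v 23)), 1), ((.m (.v 15) (.v 28)), 1), ((.m (.v
    18) (.v 21)), 2), ((.m (.v 17) (.v 22)), 2), ((.m (.v 15) (.v 27)), 2), ((.m (.v 19) (.v
    20)), 3), ((.m (.v 16) (.v 23)), 3), ((.m (.v 15) (.v 26)), 3), ((.m (.v 18) (.v 20)), 4),
    ((.m (.v 16) (.v 22)), 4), ((.m (.v 15) (.v 25)), 4), ((.m (.v 17) (.v 20)), 5), ((.m (.v
    16) (.v 21)), 5), ((.m (.v 15) (.v 24)), 5)]),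
    ([], [((.m (.v 19) (.v 25)), 0), ((.m (.v 18) (.v 26)), 0), ((.m (.v 16) (.v 29)), 0),
    ((.m (.v 19) (.v 24)), 1), ((.m (.v 17) (.v 26)), 1), ((.m (.v 16) (.v 28)), 1), ((.m (.v
    18) (.v 24)), 2), ((.m (.v 17) (.v 25)), 2), ((.m (.v 16) (.v 27)), 2), ((.m (.v 19) (.v
    20)), 6), ((.m (.v 16) (.v 23)), 6), ((.m (.v 15) (.v 26)), 6), ((.m (.v 18) (.v 20)), 7),
    ((.m (.v 16) (.v 22)), 7), ((.m (.v 15) (.v 25)), 7), ((.m (.v 17) (.v 20)), 8), ((.m (.v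
    16) (.v 21)), 8), ((.m (.v 15) (.v 24)), 8)]),
    ([], [((.m (.v 19) (.v 27)), 0), ((.m (.v 18) (.v 28)), 0), ((.m (.v 17) (.v 29)), 0),
    ((.m (.v 19) (.v 24)), 3), ((.m (.v 17) (.v 26)), 3), ((.m (.v 16) (.v 28)), 3), ((.m (.v
    18) (.v 24)), 4), ((.m (.v 17) (.v 25)), 4), ((.m (.v 16) (.v 27)), 4), ((.m (.v 19) (.v
    21)), 6), ((.m (.v 17) (.v 23)), 6), ((.m (.v 15) (.v 28)), 6), ((.m (.v 18) (.v 21)), 7),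
    ((.m (.v 17) (.v 22)), 7), ((.m (.v 15) (.v 27)), 7), ((.m (.v 17) (.v 20)), 9), ((.m (.v
    16) (.v 21)), 9), ((.m (.v 15) (.v 24)), 9)]),
    ([], [((.m (.v 19) (.v 27)), 1), ((.m (.v 18) (.v 28)), 1), ((.m (.v 17) (.v 29)), 1),
    ((.m (.v 19) (.v 25)), 3), ((.m (.v 18) (.v 26)), 3), ((.m (.v 16) (.v 29)), 3), ((.m (.v
    18) (.v 24)), 5), ((.m (.v 17) (.v 25)), 5), ((.m (.v 16) (.v 27)), 5), ((.m (.v 19) (.v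
    22)), 6), ((.m (.v 18) (.v 23)), 6), ((.m (.v 15) (.v 29)), 6), ((.m (.v 18) (.v 21)), 8),
    ((.m (.v 17) (.v 22)), 8), ((.m (.v 15) (.v 27)), 8), ((.m (.v 18) (.v 20)), 9), ((.m (.v
    16) (.v 22)), 9), ((.m (.v 15) (.v 25)), 9)]),
    ([], [((.m (.v 19) (.v 27)), 2), ((.m (.v 18) (.v 28)), 2), ((.m (.v 17) (.v 29)), 2),
    ((.m (.v 19) (.v 25)), 4), ((.m (.v 18) (.v 26)), 4), ((.m (.v 16) (.v 29)), 4), ((.m (.v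
    19) (.v 24)), 5), ((.m (.v 17) (.v 26)), 5), ((.m (.v 16) (.v 28)), 5), ((.m (.v 19) (.v
    22)), 7), ((.m (.v 18) (.v 23)), 7), ((.m (.v 15) (.v 29)), 7), ((.m (.v 19) (.v 21)), 8),
    ((.m (.v 17) (.v 23)), 8), ((.m (.v 15) (.v 28)), 8), ((.m (.v 19) (.v 20)), 9), ((.m (.v
    16) (.v 23)), 9), ((.m (.v 15) (.v 26)), 9)]),
    ([], [((.m (.v 23) (.v 25)), 0), ((.m (.v 22) (.v 26)), 0), ((.m (.v 20) (.v 29)), 0),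
    ((.m (.v 23) (.v 24)), 1), ((.m (.v 21) (.v 26)), 1), ((.m (.v 20) (.v 28)), 1), ((.m (.v
    22) (.v 24)), 2), ((.m (.v 21) (.v 25)), 2), ((.m (.v 20) (.v 27)), 2), ((.m (.v 19) (.v
    20)), 10), ((.m (.v 16) (.v 23)), 10), ((.m (.v 15) (.v 26)), 10), ((.m (.v 18) (.v 20)),
    11), ((.m (.v 16) (.v 22)), 11), ((.m (.v 15) (.v 25)), 11), ((.m (.v 17) (.v 20)), 12),
    ((.m (.v 16) (.v 21)), 12), ((.m (.v 15) (.v 24)), 12)]),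
    ([], [((.m (.v 23) (.v 27)), 0), ((.m (.v 22) (.v 28)), 0), ((.m (.v 21) (.v 29)), 0),
    ((.m (.v 23) (.v 24)), 3), ((.m (.v 21) (.v 26)), 3), ((.m (.v 20) (.v 28)), 3), ((.m (.v
    22) (.v 24)), 4), ((.m (.v 21) (.v 25)), 4), ((.m (.v 20) (.v 27)), 4), ((.m (.v 19) (.v
    21)), 10), ((.m (.v 17) (.v 23)), 10), ((.m (.v 15) (.v 28)), 10), ((.m (.v 18) (.v 21)),
    11), ((.m (.v 17) (.v 22)), 11), ((.m (.v 15) (.v 27)), 11), ((.m (.v 17) (.v 20)), 13),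
    ((.m (.v 16) (.v 21)), 13), ((.m (.v 15) (.v 24)), 13)]),
    ([], [((.m (.v 23) (.v 27)), 1), ((.m (.v 22) (.v 28)), 1), ((.m (.v 21) (.v 29)), 1),
    ((.m (.v 23) (.v 25)), 3), ((.m (.v 22) (.v 26)), 3), ((.m (.v 20) (.v 29)), 3), ((.m (.v
    22) (.v 24)), 5), ((.m (.v 21) (.v 25)), 5), ((.m (.v 20) (.v 27)), 5), ((.m (.v 19) (.v
    22)), 10), ((.m (.v 18) (.v 23)), 10), ((.m (.v 15) (.v 29)), 10), ((.m (.v 18) (.v 21)),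
    12), ((.m (.v 17) (.v 22)), 12), ((.m (.v 15) (.v 27)), 12), ((.m (.v 18) (.v 20)), 13),
    ((.m (.v 16) (.v 22)), 13), ((.m (.v 15) (.v 25)), 13)]),
    ([], [((.m (.v 23) (.v 27)), 2), ((.m (.v 22) (.v 28)), 2), ((.m (.v 21) (.v 29)), 2),
    ((.m (.v 23) (.v 25)), 4), ((.m (.v 22) (.v 26)), 4), ((.m (.v 20) (.v 29)), 4), ((.m (.v
    23) (.v 24)), 5), ((.m (.v 21) (.v 26)), 5), ((.m (.v 20) (.v 28)), 5), ((.m (.v 19) (.v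
    22)), 11), ((.m (.v 18) (.v 23)), 11), ((.m (.v 15) (.v 29)), 11), ((.m (.v 19) (.v 21)),
    12), ((.m (.v 17) (.v 23)), 12), ((.m (.v 15) (.v 28)), 12), ((.m (.v 19) (.v 20)), 13),
    ((.m (.v 16) (.v 23)), 13), ((.m (.v 15) (.v 26)), 13)]),
    ([], [((.m (.v 26) (.v 27)), 0), ((.m (.v 25) (.v 28)), 0), ((.m (.v 24) (.v 29)), 0),
    ((.m (.v 23) (.v 24)), 6), ((.m (.v 21) (.v 26)), 6), ((.m (.v 20) (.v 28)), 6), ((.m (.v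
    22) (.v 24)), 7), ((.m (.v 21) (.v 25)), 7), ((.m (.v 20) (.v 27)), 7), ((.m (.v 19) (.v
    24)), 10), ((.m (.v 17) (.v 26)), 10), ((.m (.v 16) (.v 28)), 10), ((.m (.v 18) (.v 24)),
    11), ((.m (.v 17) (.v 25)), 11), ((.m (.v 16) (.v 27)), 11), ((.m (.v 17) (.v 20)), 14),
    ((.m (.v 16) (.v 21)), 14), ((.m (.v 15) (.v 24)), 14)]),
    ([], [((.m (.v 26) (.v 27)), 1), ((.m (.v 25) (.v 28)), 1), ((.m (.v 24) (.v 29)), 1),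
    ((.m (.v 23) (.v 25)), 6), ((.m (.v 22) (.v 26)), 6), ((.m (.v 20) (.v 29)), 6), ((.m (.v
    22) (.v 24)), 8), ((.m (.v 21) (.v 25)), 8), ((.m (.v 20) (.v 27)), 8), ((.m (.v 19) (.v
    25)), 10), ((.m (.v 18) (.v 26)), 10), ((.m (.v 16) (.v 29)), 10), ((.m (.v 18) (.v 24)),
    12), ((.m (.v 17) (.v 25)), 12), ((.m (.v 16) (.v 27)), 12), ((.m (.v 18) (.v 20)), 14),
    ((.m (.v 16) (.v 22)), 14), ((.m (.v 15) (.v 25)), 14)]),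
    ([], [((.m (.v 26) (.v 27)), 2), ((.m (.v 25) (.v 28)), 2), ((.m (.v 24) (.v 29)), 2),
    ((.m (.v 23) (.v 25)), 7), ((.m (.v 22) (.v 26)), 7), ((.m (.v 20) (.v 29)), 7), ((.m (.v
    23) (.v 24)), 8), ((.m (.v 21) (.v 26)), 8), ((.m (.v 20) (.v 28)), 8), ((.m (.v 19) (.v
    25)), 11), ((.m (.v 18) (.v 26)), 11), ((.m (.v 16) (.v 29)), 11), ((.m (.v 19) (.v 24)),
    12), ((.m (.v 17) (.v 26)), 12), ((.m (.v 16) (.v 28)), 12), ((.m (.v 19) (.v 20)), 14),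
    ((.m (.v 16) (.v 23)), 14), ((.m (.v 15) (.v 26)), 14)]),
    ([], [((.m (.v 26) (.v 27)), 3), ((.m (.v 25) (.v 28)), 3), ((.m (.v 24) (.v 29)), 3),
    ((.m (.v 23) (.v 27)), 6), ((.m (.v 22) (.v 28)), 6), ((.m (.v 21) (.v 29)), 6), ((.m (.v
    22) (.v 24)), 9), ((.m (.v 21) (.v 25)), 9), ((.m (.v 20) (.v 27)), 9), ((.m (.v 19) (.v
    27)), 10), ((.m (.v 18) (.v 28)), 10), ((.m (.v 17) (.v 29)), 10), ((.m (.v 18) (.v 24)),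
    13), ((.m (.v 17) (.v 25)), 13), ((.m (.v 16) (.v 27)), 13), ((.m (.v 18) (.v 21)), 14),
    ((.m (.v 17) (.v 22)), 14), ((.m (.v 15) (.v 27)), 14)]),
    ([], [((.m (.v 26) (.v 27)), 4), ((.m (.v 25) (.v 28)), 4), ((.m (.v 24) (.v 29)), 4),
    ((.m (.v 23) (.v 27)), 7), ((.m (.v 22) (.v 28)), 7), ((.m (.v 21) (.v 29)), 7), ((.m (.v
    23) (.v 24)), 9), ((.m (.v 21) (.v 26)), 9), ((.m (.v 20) (.v 28)), 9), ((.m (.v 19) (.v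
    27)), 11), ((.m (.v 18) (.v 28)), 11), ((.m (.v 17) (.v 29)), 11), ((.m (.v 19) (.v 24)),
    13), ((.m (.v 17) (.v 26)), 13), ((.m (.v 16) (.v 28)), 13), ((.m (.v 19) (.v 21)), 14),
    ((.m (.v 17) (.v 23)), 14), ((.m (.v 15) (.v 28)), 14)]),
    ([], [((.m (.v 26) (.v 27)), 5), ((.m (.v 25) (.v 28)), 5), ((.m (.v 24) (.v 29)), 5),
    ((.m (.v 23) (.v 27)), 8), ((.m (.v 22) (.v 28)), 8), ((.m (.v 21) (.v 29)), 8), ((.m (.v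
    23) (.v 25)), 9), ((.m (.v 22) (.v 26)), 9), ((.m (.v 20) (.v 29)), 9), ((.m (.v 19) (.v
    27)), 12), ((.m (.v 18) (.v 28)), 12), ((.m (.v 17) (.v 29)), 12), ((.m (.v 19) (.v 25)),
    13), ((.m (.v 18) (.v 26)), 13), ((.m (.v 16) (.v 29)), 13), ((.m (.v 19) (.v 22)), 14),
    ((.m (.v 18) (.v 23)), 14), ((.m (.v 15) (.v 29)), 14)])]

theorem chkX : ∀ p : Fin 15, Ex.chk vk 44 ((Ex.v p * pfF (fun p => Ex.v (15 + p)) +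
    Ex.v (15 + p) * pfT Ex.v (fun p => Ex.v (15 + p))) + qsum (certX p)) = true := by
  decide +kernel

/-- Certificates. -/
def certY : Fin 15 → List (Ex × Fin 15) × List (Ex × Fin 15) :=
  ![([((.m (.v 18) (.v 21)), 2), ((.m (.v 17) (.v 22)), 2), ((.m (.v 15) (.v 27)), 2), ((.m
    (.v 18) (.v 20)), 4), ((.m (.v 16) (.v 22)), 4), ((.m (.v 15) (.v 25)), 4), ((.m (.v 17)
    (.v 20)), 5), ((.m (.v 16) (.v 21)), 5), ((.m (.v 15) (.v 24)), 5)], [((.m (.v 7) (.v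
    19)), 0), ((.m (.v 3) (.v 23)), 0), ((.m (.v 6) (.v 19)), 1), ((.m (.v 2) (.v 23)), 1),
    ((.m (.v 7) (.v 17)), 2), ((.m (.v 6) (.v 18)), 2), ((.m (.v 3) (.v 21)), 2), ((.m (.v 2)
    (.v 22)), 2), ((.m (.v 0) (.v 27)), 2), ((.m (.v 5) (.v 19)), 3), ((.m (.v 1) (.v 23)),
    3), ((.m (.v 7) (.v 16)), 4), ((.m (.v 5) (.v 18)), 4), ((.m (.v 3) (.v 20)), 4), ((.m (.v
    1) (.v 22)), 4), ((.m (.v 0) (.v 25)), 4), ((.m (.v 6) (.v 16)), 5), ((.m (.v 5) (.v 17)),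
    5), ((.m (.v 2) (.v 20)), 5), ((.m (.v 1) (.v 21)), 5), ((.m (.v 0) (.v 24)), 5), ((.m (.v
    0) (.v 23)), 6), ((.m (.v 7) (.v 15)), 7), ((.m (.v 6) (.v 15)), 8), ((.m (.v 5) (.v 15)),
    9), ((.m (.v 0) (.v 19)), 10), ((.m (.v 3) (.v 15)), 11), ((.m (.v 2) (.v 15)), 12), ((.m
    (.v 1) (.v 15)), 13), ((.m (.v 0) (.v 15)), 14)]),
    ([((.m (.v 19) (.v 20)), 6), ((.m (.v 16) (.v 23)), 6), ((.m (.v 15) (.v 26)), 6), ((.m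
    (.v 18) (.v 20)), 7), ((.m (.v 16) (.v 22)), 7), ((.m (.v 15) (.v 25)), 7), ((.m (.v 17)
    (.v 20)), 8), ((.m (.v 16) (.v 21)), 8), ((.m (.v 15) (.v 24)), 8)], [((.m (.v 4) (.v
    25)), 0), ((.m (.v 3) (.v 26)), 0), ((.m (.v 4) (.v 24)), 1), ((.m (.v 2) (.v 26)), 1),
    ((.m (.v 3) (.v 24)), 2), ((.m (.v 2) (.v 25)), 2), ((.m (.v 1) (.v 26)), 3), ((.m (.v 1)
    (.v 25)), 4), ((.m (.v 1) (.v 24)), 5), ((.m (.v 5) (.v 19)), 6), ((.m (.v 4) (.v 20)),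
    6), ((.m (.v 1) (.v 23)), 6), ((.m (.v 5) (.v 18)), 7), ((.m (.v 3) (.v 20)), 7), ((.m (.v
    1) (.v 22)), 7), ((.m (.v 5) (.v 17)), 8), ((.m (.v 2) (.v 20)), 8), ((.m (.v 1) (.v 21)),
    8), ((.m (.v 5) (.v 16)), 9), ((.m (.v 4) (.v 16)), 10), ((.m (.v 3) (.v 16)), 11), ((.m
    (.v 2) (.v 16)), 12), ((.m (.v 1) (.v 16)), 13), ((.m (.v 1) (.v 15)), 14)]),
    ([((.m (.v 19) (.v 27)), 0), ((.m (.v 18) (.v 28)), 0), ((.m (.v 17) (.v 29)), 0), ((.m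
    (.v 18) (.v 24)), 4), ((.m (.v 17) (.v 25)), 4), ((.m (.v 16) (.v 27)), 4), ((.m (.v 18)
    (.v 21)), 7), ((.m (.v 17) (.v 22)), 7), ((.m (.v 15) (.v 27)), 7)], [((.m (.v 13) (.v
    18)), 0), ((.m (.v 3) (.v 28)), 0), ((.m (.v 2) (.v 29)), 0), ((.m (.v 13) (.v 17)), 1),
    ((.m (.v 2) (.v 27)), 2), ((.m (.v 13) (.v 16)), 3), ((.m (.v 9) (.v 19)), 3), ((.m (.v 9)
    (.v 18)), 4), ((.m (.v 3) (.v 24)), 4), ((.m (.v 2) (.v 25)), 4), ((.m (.v 9) (.v 17)),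
    5), ((.m (.v 13) (.v 15)), 6), ((.m (.v 6) (.v 19)), 6), ((.m (.v 6) (.v 18)), 7), ((.m
    (.v 3) (.v 21)), 7), ((.m (.v 2) (.v 22)), 7), ((.m (.v 6) (.v 17)), 8), ((.m (.v 9) (.v
    15)), 9), ((.m (.v 6) (.v 16)), 9), ((.m (.v 2) (.v 19)), 10), ((.m (.v 3) (.v 17)), 11),
    ((.m (.v 2) (.v 17)), 12), ((.m (.v 2) (.v 16)), 13), ((.m (.v 2) (.v 15)), 14)]),
    ([((.m (.v 19) (.v 27)), 1), ((.m (.v 18) (.v 28)), 1), ((.m (.v 17) (.v 29)), 1), ((.m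
    (.v 19) (.v 25)), 3), ((.m (.v 18) (.v 26)), 3), ((.m (.v 16) (.v 29)), 3), ((.m (.v 19)
    (.v 22)), 6), ((.m (.v 18) (.v 23)), 6), ((.m (.v 15) (.v 29)), 6)], [((.m (.v 3) (.v
    29)), 0), ((.m (.v 12) (.v 19)), 1), ((.m (.v 4) (.v 27)), 1), ((.m (.v 3) (.v 28)), 1),
    ((.m (.v 12) (.v 18)), 2), ((.m (.v 10) (.v 19)), 3), ((.m (.v 4) (.v 25)), 3), ((.m (.v
    3) (.v 26)), 3), ((.m (.v 10) (.v 18)), 4), ((.m (.v 12) (.v 16)), 5), ((.m (.v 10) (.v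
    17)), 5), ((.m (.v 7) (.v 19)), 6), ((.m (.v 4) (.v 22)), 6), ((.m (.v 3) (.v 23)), 6),
    ((.m (.v 7) (.v 18)), 7), ((.m (.v 12) (.v 15)), 8), ((.m (.v 7) (.v 17)), 8), ((.m (.v
    10) (.v 15)), 9), ((.m (.v 7) (.v 16)), 9), ((.m (.v 4) (.v 18)), 10), ((.m (.v 3) (.v
    18)), 11), ((.m (.v 3) (.v 17)), 12), ((.m (.v 3) (.v 16)), 13), ((.m (.v 3) (.v 15)),
    14)]),
    ([((.m (.v 19) (.v 29)), 0), ((.m (.v 19) (.v 28)), 1), ((.m (.v 19) (.v 26)), 3), ((.m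
    (.v 19) (.v 23)), 6), ((.m (.v 19) (.v 19)), 10)], [((.m (.m (.v 19) (.v 29)) (.v 30)),
    0), ((.m (.m (.v 19) (.v 28)) (.v 30)), 1), ((.m (.v 12) (.v 19)), 2), ((.m (.v 4) (.v
    27)), 2), ((.m (.v 3) (.v 28)), 2), ((.m (.v 2) (.v 29)), 2), ((.m (.m (.v 19) (.v 27))
    (.v 30)), 2), ((.m (.m (.v 18) (.v 28)) (.v 30)), 2), ((.m (.m (.v 17) (.v 29)) (.v 30)),
    2), ((.m (.m (.v 19) (.v 26)) (.v 30)), 3), ((.m (.v 10) (.v 19)), 4), ((.m (.v 4) (.v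
    25)), 4), ((.m (.v 3) (.v 26)), 4), ((.m (.v 1) (.v 29)), 4), ((.m (.m (.v 19) (.v 25))
    (.v 30)), 4), ((.m (.m (.v 18) (.v 26)) (.v 30)), 4), ((.m (.m (.v 16) (.v 29)) (.v 30)),
    4), ((.m (.v 9) (.v 19)), 5), ((.m (.v 4) (.v 24)), 5), ((.m (.v 2) (.v 26)), 5), ((.m (.v
    1) (.v 28)), 5), ((.m (.m (.v 19) (.v 24)) (.v 30)), 5), ((.m (.m (.v 17) (.v 26)) (.v
    30)), 5), ((.m (.m (.v 16) (.v 28)) (.v 30)), 5), ((.m (.m (.v 19) (.v 23)) (.v 30)), 6),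
    ((.m (.v 14) (.v 15)), 7), ((.m (.v 8) (.v 18)), 7), ((.m (.v 13) (.v 15)), 8), ((.m (.v
    8) (.v 17)), 8), ((.m (.v 11) (.v 15)), 9), ((.m (.v 8) (.v 16)), 9), ((.m (.m (.v 19) (.v
    19)) (.v 30)), 10), ((.m (.v 4) (.v 18)), 11), ((.m (.v 4) (.v 17)), 12), ((.m (.v 4) (.v
    16)), 13), ((.m (.v 4) (.v 15)), 14)]),
    ([((.m (.v 23) (.v 25)), 0), ((.m (.v 22) (.v 26)), 0), ((.m (.v 20) (.v 29)), 0), ((.m
    (.v 23) (.v 24)), 1), ((.m (.v 21) (.v 26)), 1), ((.m (.v 20) (.v 28)), 1), ((.m (.v 22)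
    (.v 24)), 2), ((.m (.v 21) (.v 25)), 2), ((.m (.v 20) (.v 27)), 2)], [((.m (.v 11) (.v
    22)), 0), ((.m (.v 10) (.v 23)), 0), ((.m (.v 8) (.v 25)), 0), ((.m (.v 7) (.v 26)), 0),
    ((.m (.v 5) (.v 29)), 0), ((.m (.v 11) (.v 21)), 1), ((.m (.v 9) (.v 23)), 1), ((.m (.v 8)
    (.v 24)), 1), ((.m (.v 6) (.v 26)), 1), ((.m (.v 5) (.v 28)), 1), ((.m (.v 10) (.v 21)),
    2), ((.m (.v 9) (.v 22)), 2), ((.m (.v 7) (.v 24)), 2), ((.m (.v 6) (.v 25)), 2), ((.m (.v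
    5) (.v 27)), 2), ((.m (.v 11) (.v 20)), 3), ((.m (.v 10) (.v 20)), 4), ((.m (.v 9) (.v
    20)), 5), ((.m (.v 8) (.v 20)), 6), ((.m (.v 7) (.v 20)), 7), ((.m (.v 6) (.v 20)), 8),
    ((.m (.v 5) (.v 20)), 9), ((.m (.v 11) (.v 15)), 10), ((.m (.v 8) (.v 16)), 10), ((.m (.v
    10) (.v 15)), 11), ((.m (.v 7) (.v 16)), 11), ((.m (.v 9) (.v 15)), 12), ((.m (.v 6) (.v
    16)), 12), ((.m (.v 5) (.v 16)), 13), ((.m (.v 5) (.v 15)), 14)]),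
    ([((.m (.v 23) (.v 24)), 3), ((.m (.v 21) (.v 26)), 3), ((.m (.v 20) (.v 28)), 3), ((.m
    (.v 19) (.v 21)), 10), ((.m (.v 17) (.v 23)), 10), ((.m (.v 15) (.v 28)), 10), ((.m (.v
    17) (.v 20)), 13), ((.m (.v 16) (.v 21)), 13), ((.m (.v 15) (.v 24)), 13)], [((.m (.v 12)
    (.v 23)), 0), ((.m (.v 7) (.v 28)), 0), ((.m (.v 6) (.v 28)), 1), ((.m (.v 12) (.v 21)),
    2), ((.m (.v 6) (.v 26)), 3), ((.m (.v 12) (.v 20)), 4), ((.m (.v 7) (.v 24)), 4), ((.m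
    (.v 6) (.v 24)), 5), ((.m (.v 6) (.v 23)), 6), ((.m (.v 7) (.v 21)), 7), ((.m (.v 6) (.v
    21)), 8), ((.m (.v 6) (.v 20)), 9), ((.m (.v 6) (.v 19)), 10), ((.m (.v 12) (.v 15)), 11),
    ((.m (.v 7) (.v 17)), 11), ((.m (.v 6) (.v 17)), 12), ((.m (.v 6) (.v 16)), 13), ((.m (.v
    6) (.v 15)), 14)]),
    ([((.m (.v 22) (.v 24)), 5), ((.m (.v 21) (.v 25)), 5), ((.m (.v 20) (.v 27)), 5), ((.m
    (.v 18) (.v 21)), 12), ((.m (.v 17) (.v 22)), 12), ((.m (.v 15) (.v 27)), 12), ((.m (.v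
    18) (.v 20)), 13), ((.m (.v 16) (.v 22)), 13), ((.m (.v 15) (.v 25)), 13)], [((.m (.v 14)
    (.v 22)), 0), ((.m (.v 14) (.v 21)), 1), ((.m (.v 8) (.v 27)), 1), ((.m (.v 7) (.v 27)),
    2), ((.m (.v 14) (.v 20)), 3), ((.m (.v 8) (.v 25)), 3), ((.m (.v 7) (.v 25)), 4), ((.m
    (.v 7) (.v 24)), 5), ((.m (.v 8) (.v 22)), 6), ((.m (.v 7) (.v 22)), 7), ((.m (.v 7) (.v
    21)), 8), ((.m (.v 7) (.v 20)), 9), ((.m (.v 14) (.v 15)), 10), ((.m (.v 8) (.v 18)), 10),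
    ((.m (.v 7) (.v 18)), 11), ((.m (.v 7) (.v 17)), 12), ((.m (.v 7) (.v 16)), 13), ((.m (.v
    7) (.v 15)), 14)]),
    ([((.m (.v 23) (.v 29)), 0), ((.m (.v 23) (.v 28)), 1), ((.m (.v 23) (.v 27)), 2), ((.m
    (.v 22) (.v 28)), 2), ((.m (.v 21) (.v 29)), 2), ((.m (.v 23) (.v 26)), 3), ((.m (.v 23)
    (.v 25)), 4), ((.m (.v 22) (.v 26)), 4), ((.m (.v 20) (.v 29)), 4), ((.m (.v 23) (.v 24)),
    5), ((.m (.v 21) (.v 26)), 5), ((.m (.v 20) (.v 28)), 5), ((.m (.v 23) (.v 23)), 6), ((.m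
    (.v 19) (.v 23)), 10), ((.m (.v 19) (.v 22)), 11), ((.m (.v 18) (.v 23)), 11), ((.m (.v
    15) (.v 29)), 11), ((.m (.v 19) (.v 21)), 12), ((.m (.v 17) (.v 23)), 12), ((.m (.v 15)
    (.v 28)), 12), ((.m (.v 19) (.v 20)), 13), ((.m (.v 16) (.v 23)), 13), ((.m (.v 15) (.v
    26)), 13)], [((.m (.v 14) (.v 23)), 0), ((.m (.v 8) (.v 29)), 0), ((.m (.m (.v 23) (.v
    29)) (.v 30)), 0), ((.m (.v 13) (.v 23)), 1), ((.m (.v 8) (.v 28)), 1), ((.m (.m (.v 23)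
    (.v 28)) (.v 30)), 1), ((.m (.v 14) (.v 21)), 2), ((.m (.v 13) (.v 22)), 2), ((.m (.v 12)
    (.v 23)), 2), ((.m (.v 7) (.v 28)), 2), ((.m (.v 6) (.v 29)), 2), ((.m (.m (.v 23) (.v
    27)) (.v 30)), 2), ((.m (.m (.v 22) (.v 28)) (.v 30)), 2), ((.m (.m (.v 21) (.v 29)) (.v
    30)), 2), ((.m (.v 11) (.v 23)), 3), ((.m (.v 8) (.v 26)), 3), ((.m (.m (.v 23) (.v 26))
    (.v 30)), 3), ((.m (.v 14) (.v 20)), 4), ((.m (.v 11) (.v 22)), 4), ((.m (.v 10) (.v 23)),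
    4), ((.m (.v 7) (.v 26)), 4), ((.m (.v 5) (.v 29)), 4), ((.m (.m (.v 23) (.v 25)) (.v
    30)), 4), ((.m (.m (.v 22) (.v 26)) (.v 30)), 4), ((.m (.m (.v 20) (.v 29)) (.v 30)), 4),
    ((.m (.v 13) (.v 20)), 5), ((.m (.v 11) (.v 21)), 5), ((.m (.v 9) (.v 23)), 5), ((.m (.v
    6) (.v 26)), 5), ((.m (.v 5) (.v 28)), 5), ((.m (.m (.v 23) (.v 24)) (.v 30)), 5), ((.m
    (.m (.v 21) (.v 26)) (.v 30)), 5), ((.m (.m (.v 20) (.v 28)) (.v 30)), 5), ((.m (.m (.v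
    23) (.v 23)) (.v 30)), 6), ((.m (.v 8) (.v 22)), 7), ((.m (.v 8) (.v 21)), 8), ((.m (.v 8)
    (.v 20)), 9), ((.m (.v 8) (.v 19)), 10), ((.m (.v 4) (.v 23)), 10), ((.m (.m (.v 19) (.v
    23)) (.v 30)), 10), ((.m (.v 8) (.v 18)), 11), ((.m (.v 8) (.v 17)), 12), ((.m (.v 8) (.v
    16)), 13), ((.m (.v 8) (.v 15)), 14)]),
    ([((.m (.v 23) (.v 24)), 6), ((.m (.v 21) (.v 26)), 6), ((.m (.v 20) (.v 28)), 6), ((.m
    (.v 19) (.v 24)), 10), ((.m (.v 17) (.v 26)), 10), ((.m (.v 16) (.v 28)), 10), ((.m (.v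
    17) (.v 20)), 14), ((.m (.v 16) (.v 21)), 14), ((.m (.v 15) (.v 24)), 14)], [((.m (.v 12)
    (.v 26)), 0), ((.m (.v 10) (.v 28)), 0), ((.m (.v 9) (.v 28)), 1), ((.m (.v 12) (.v 24)),
    2), ((.m (.v 9) (.v 26)), 3), ((.m (.v 10) (.v 24)), 4), ((.m (.v 9) (.v 24)), 5), ((.m
    (.v 9) (.v 23)), 6), ((.m (.v 12) (.v 20)), 7), ((.m (.v 10) (.v 21)), 7), ((.m (.v 9) (.v
    21)), 8), ((.m (.v 9) (.v 20)), 9), ((.m (.v 9) (.v 19)), 10), ((.m (.v 12) (.v 16)), 11),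
    ((.m (.v 10) (.v 17)), 11), ((.m (.v 9) (.v 17)), 12), ((.m (.v 9) (.v 16)), 13), ((.m (.v
    9) (.v 15)), 14)]),
    ([((.m (.v 22) (.v 24)), 8), ((.m (.v 21) (.v 25)), 8), ((.m (.v 20) (.v 27)), 8), ((.m
    (.v 18) (.v 24)), 12), ((.m (.v 17) (.v 25)), 12), ((.m (.v 16) (.v 27)), 12), ((.m (.v
    18) (.v 20)), 14), ((.m (.v 16) (.v 22)), 14), ((.m (.v 15) (.v 25)), 14)], [((.m (.v 14)
    (.v 25)), 0), ((.m (.v 14) (.v 24)), 1), ((.m (.v 11) (.v 27)), 1), ((.m (.v 10) (.v 27)),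
    2), ((.m (.v 11) (.v 25)), 3), ((.m (.v 10) (.v 25)), 4), ((.m (.v 10) (.v 24)), 5), ((.m
    (.v 14) (.v 20)), 6), ((.m (.v 11) (.v 22)), 6), ((.m (.v 10) (.v 22)), 7), ((.m (.v 10)
    (.v 21)), 8), ((.m (.v 10) (.v 20)), 9), ((.m (.v 14) (.v 16)), 10), ((.m (.v 11) (.v
    18)), 10), ((.m (.v 10) (.v 18)), 11), ((.m (.v 10) (.v 17)), 12), ((.m (.v 10) (.v 16)),
    13), ((.m (.v 10) (.v 15)), 14)]),
    ([((.m (.v 26) (.v 29)), 0), ((.m (.v 26) (.v 28)), 1), ((.m (.v 26) (.v 27)), 2), ((.m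
    (.v 25) (.v 28)), 2), ((.m (.v 24) (.v 29)), 2), ((.m (.v 26) (.v 26)), 3), ((.m (.v 23)
    (.v 26)), 6), ((.m (.v 23) (.v 25)), 7), ((.m (.v 22) (.v 26)), 7), ((.m (.v 20) (.v 29)),
    7), ((.m (.v 23) (.v 24)), 8), ((.m (.v 21) (.v 26)), 8), ((.m (.v 20) (.v 28)), 8), ((.m
    (.v 19) (.v 26)), 10), ((.m (.v 19) (.v 25)), 11), ((.m (.v 18) (.v 26)), 11), ((.m (.v
    16) (.v 29)), 11), ((.m (.v 19) (.v 24)), 12), ((.m (.v 17) (.v 26)), 12), ((.m (.v 16)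
    (.v 28)), 12), ((.m (.v 19) (.v 20)), 14), ((.m (.v 16) (.v 23)), 14), ((.m (.v 15) (.v
    26)), 14)], [((.m (.v 14) (.v 26)), 0), ((.m (.v 11) (.v 29)), 0), ((.m (.m (.v 26) (.v
    29)) (.v 30)), 0), ((.m (.v 13) (.v 26)), 1), ((.m (.v 11) (.v 28)), 1), ((.m (.m (.v 26)
    (.v 28)) (.v 30)), 1), ((.m (.v 14) (.v 24)), 2), ((.m (.v 13) (.v 25)), 2), ((.m (.v 12)
    (.v 26)), 2), ((.m (.v 10) (.v 28)), 2), ((.m (.v 9) (.v 29)), 2), ((.m (.m (.v 26) (.v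
    27)) (.v 30)), 2), ((.m (.m (.v 25) (.v 28)) (.v 30)), 2), ((.m (.m (.v 24) (.v 29)) (.v
    30)), 2), ((.m (.m (.v 26) (.v 26)) (.v 30)), 3), ((.m (.v 11) (.v 25)), 4), ((.m (.v 11)
    (.v 24)), 5), ((.m (.v 11) (.v 23)), 6), ((.m (.v 8) (.v 26)), 6), ((.m (.m (.v 23) (.v
    26)) (.v 30)), 6), ((.m (.v 14) (.v 20)), 7), ((.m (.v 10) (.v 23)), 7), ((.m (.v 8) (.v
    25)), 7), ((.m (.v 7) (.v 26)), 7), ((.m (.v 5) (.v 29)), 7), ((.m (.m (.v 23) (.v 25))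
    (.v 30)), 7), ((.m (.m (.v 22) (.v 26)) (.v 30)), 7), ((.m (.m (.v 20) (.v 29)) (.v 30)),
    7), ((.m (.v 13) (.v 20)), 8), ((.m (.v 9) (.v 23)), 8), ((.m (.v 8) (.v 24)), 8), ((.m
    (.v 6) (.v 26)), 8), ((.m (.v 5) (.v 28)), 8), ((.m (.m (.v 23) (.v 24)) (.v 30)), 8),
    ((.m (.m (.v 21) (.v 26)) (.v 30)), 8), ((.m (.m (.v 20) (.v 28)) (.v 30)), 8), ((.m (.v
    11) (.v 20)), 9), ((.m (.v 11) (.v 19)), 10), ((.m (.v 4) (.v 26)), 10), ((.m (.m (.v 19)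
    (.v 26)) (.v 30)), 10), ((.m (.v 11) (.v 18)), 11), ((.m (.v 11) (.v 17)), 12), ((.m (.v
    11) (.v 16)), 13), ((.m (.v 11) (.v 15)), 14)]),
    ([((.m (.v 22) (.v 24)), 9), ((.m (.v 21) (.v 25)), 9), ((.m (.v 20) (.v 27)), 9), ((.m
    (.v 18) (.v 24)), 13), ((.m (.v 17) (.v 25)), 13), ((.m (.v 16) (.v 27)), 13), ((.m (.v
    18) (.v 21)), 14), ((.m (.v 17) (.v 22)), 14), ((.m (.v 15) (.v 27)), 14)], [((.m (.v 14)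
    (.v 27)), 0), ((.m (.v 13) (.v 27)), 1), ((.m (.v 12) (.v 27)), 2), ((.m (.v 14) (.v 24)),
    3), ((.m (.v 13) (.v 25)), 3), ((.m (.v 12) (.v 25)), 4), ((.m (.v 12) (.v 24)), 5), ((.m
    (.v 14) (.v 21)), 6), ((.m (.v 13) (.v 22)), 6), ((.m (.v 12) (.v 22)), 7), ((.m (.v 12)
    (.v 21)), 8), ((.m (.v 12) (.v 20)), 9), ((.m (.v 14) (.v 17)), 10), ((.m (.v 13) (.v
    18)), 10), ((.m (.v 12) (.v 18)), 11), ((.m (.v 12) (.v 17)), 12), ((.m (.v 12) (.v 16)),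
    13), ((.m (.v 12) (.v 15)), 14)]),
    ([((.m (.v 27) (.v 28)), 2), ((.m (.v 26) (.v 27)), 4), ((.m (.v 24) (.v 29)), 4), ((.m
    (.v 24) (.v 28)), 5), ((.m (.v 23) (.v 27)), 7), ((.m (.v 21) (.v 29)), 7), ((.m (.v 21)
    (.v 28)), 8), ((.m (.v 23) (.v 24)), 9), ((.m (.v 21) (.v 26)), 9), ((.m (.v 19) (.v 28)),
    10), ((.m (.v 19) (.v 27)), 11), ((.m (.v 18) (.v 28)), 11), ((.m (.v 17) (.v 29)), 11),
    ((.m (.v 19) (.v 24)), 13), ((.m (.v 17) (.v 26)), 13), ((.m (.v 16) (.v 28)), 13), ((.m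
    (.v 19) (.v 21)), 14), ((.m (.v 17) (.v 23)), 14), ((.m (.v 15) (.v 28)), 14)], [((.m (.v
    13) (.v 29)), 0), ((.m (.v 13) (.v 28)), 1), ((.m (.v 13) (.v 27)), 2), ((.m (.v 12) (.v
    28)), 2), ((.m (.m (.v 27) (.v 28)) (.v 30)), 2), ((.m (.v 13) (.v 26)), 3), ((.m (.v 14)
    (.v 24)), 4), ((.m (.v 12) (.v 26)), 4), ((.m (.v 11) (.v 27)), 4), ((.m (.v 9) (.v 29)),
    4), ((.m (.m (.v 26) (.v 27)) (.v 30)), 4), ((.m (.m (.v 24) (.v 29)) (.v 30)), 4), ((.m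
    (.v 13) (.v 24)), 5), ((.m (.v 9) (.v 28)), 5), ((.m (.m (.v 24) (.v 28)) (.v 30)), 5),
    ((.m (.v 13) (.v 23)), 6), ((.m (.v 14) (.v 21)), 7), ((.m (.v 12) (.v 23)), 7), ((.m (.v
    8) (.v 27)), 7), ((.m (.v 6) (.v 29)), 7), ((.m (.m (.v 23) (.v 27)) (.v 30)), 7), ((.m
    (.m (.v 21) (.v 29)) (.v 30)), 7), ((.m (.v 13) (.v 21)), 8), ((.m (.v 6) (.v 28)), 8),
    ((.m (.m (.v 21) (.v 28)) (.v 30)), 8), ((.m (.v 11) (.v 21)), 9), ((.m (.v 9) (.v 23)),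
    9), ((.m (.v 8) (.v 24)), 9), ((.m (.v 6) (.v 26)), 9), ((.m (.m (.v 23) (.v 24)) (.v
    30)), 9), ((.m (.m (.v 21) (.v 26)) (.v 30)), 9), ((.m (.v 13) (.v 19)), 10), ((.m (.v 4)
    (.v 28)), 10), ((.m (.m (.v 19) (.v 28)) (.v 30)), 10), ((.m (.v 13) (.v 18)), 11), ((.m
    (.v 13) (.v 17)), 12), ((.m (.v 13) (.v 16)), 13), ((.m (.v 13) (.v 15)), 14)]),
    ([((.m (.v 27) (.v 29)), 2), ((.m (.v 25) (.v 29)), 4), ((.m (.v 26) (.v 27)), 5), ((.m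
    (.v 25) (.v 28)), 5), ((.m (.v 22) (.v 29)), 7), ((.m (.v 23) (.v 27)), 8), ((.m (.v 22)
    (.v 28)), 8), ((.m (.v 23) (.v 25)), 9), ((.m (.v 22) (.v 26)), 9), ((.m (.v 19) (.v 29)),
    10), ((.m (.v 19) (.v 27)), 12), ((.m (.v 18) (.v 28)), 12), ((.m (.v 17) (.v 29)), 12),
    ((.m (.v 19) (.v 25)), 13), ((.m (.v 18) (.v 26)), 13), ((.m (.v 16) (.v 29)), 13), ((.m
    (.v 19) (.v 22)), 14), ((.m (.v 18) (.v 23)), 14), ((.m (.v 15) (.v 29)), 14)], [((.m (.v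
    14) (.v 29)), 0), ((.m (.v 14) (.v 28)), 1), ((.m (.v 14) (.v 27)), 2), ((.m (.v 12) (.v
    29)), 2), ((.m (.m (.v 27) (.v 29)) (.v 30)), 2), ((.m (.v 14) (.v 26)), 3), ((.m (.v 14)
    (.v 25)), 4), ((.m (.v 10) (.v 29)), 4), ((.m (.m (.v 25) (.v 29)) (.v 30)), 4), ((.m (.v
    13) (.v 25)), 5), ((.m (.v 12) (.v 26)), 5), ((.m (.v 11) (.v 27)), 5), ((.m (.v 10) (.v
    28)), 5), ((.m (.m (.v 26) (.v 27)) (.v 30)), 5), ((.m (.m (.v 25) (.v 28)) (.v 30)), 5),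
    ((.m (.v 14) (.v 23)), 6), ((.m (.v 14) (.v 22)), 7), ((.m (.v 7) (.v 29)), 7), ((.m (.m
    (.v 22) (.v 29)) (.v 30)), 7), ((.m (.v 13) (.v 22)), 8), ((.m (.v 12) (.v 23)), 8), ((.m
    (.v 8) (.v 27)), 8), ((.m (.v 7) (.v 28)), 8), ((.m (.m (.v 23) (.v 27)) (.v 30)), 8),
    ((.m (.m (.v 22) (.v 28)) (.v 30)), 8), ((.m (.v 11) (.v 22)), 9), ((.m (.v 10) (.v 23)),
    9), ((.m (.v 8) (.v 25)), 9), ((.m (.v 7) (.v 26)), 9), ((.m (.m (.v 23) (.v 25)) (.v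
    30)), 9), ((.m (.m (.v 22) (.v 26)) (.v 30)), 9), ((.m (.v 14) (.v 19)), 10), ((.m (.v 4)
    (.v 29)), 10), ((.m (.m (.v 19) (.v 29)) (.v 30)), 10), ((.m (.v 14) (.v 18)), 11), ((.m
    (.v 14) (.v 17)), 12), ((.m (.v 14) (.v 16)), 13), ((.m (.v 14) (.v 15)), 14)])]

theorem chkY : ∀ p : Fin 15, Ex.chk vk 44 ((Ex.v 31 * (Ex.v (15 + p) * pfF (fun p => Ex.v (15 + p))) +
    Ex.v p * pfT Ex.v (fun p => Ex.v (15 + p))) + qsum (certY p)) = true := by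
  decide +kernel

/-- Certificate. -/
def certT1 : List (Ex × Fin 15) × List (Ex × Fin 15) :=
  ([], [((.v 29), 0), ((.v 28), 1), ((.v 27), 2), ((.v 26), 3), ((.v 25), 4), ((.v 24), 5),
    ((.v 23), 6), ((.v 22), 7), ((.v 21), 8), ((.v 20), 9), ((.v 19), 10), ((.v 18), 11), ((.v
    17), 12), ((.v 16), 13), ((.v 15), 14)])

theorem chkT1 : Ex.chk vk 44 (Ex.v 30 * pfF (fun p => Ex.v (15 + p)) + qsum certT1) = true := by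
  decide +kernel

/-- Certificate. -/
def certT2 : List (Ex × Fin 15) × List (Ex × Fin 15) :=
  ([], [((.v 14), 0), ((.v 13), 1), ((.v 12), 2), ((.v 11), 3), ((.v 10), 4), ((.v 9), 5),
    ((.v 8), 6), ((.v 7), 7), ((.v 6), 8), ((.v 5), 9), ((.v 4), 10), ((.v 3), 11), ((.v 2),
    12), ((.v 1), 13), ((.v 0), 14)])

theorem chkT2 : Ex.chk vk 44 (Ex.v 30 * pfT Ex.v (fun p => Ex.v (15 + p)) + qsum certT2) = true := by
  decide +kernel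

end

end Pool.Agent.Helper90.Hilb8C
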