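import Pool.Agent.Helper97.Hilb8.K.Poly
import Pool.Agent.Helper97.Hilb8.GB

/-!
# Polynomials modulo 2: a checker that can be evaluated in the kernel

A monomial is a natural number (key) in the format of `Helper97/Hilb8/K/Defs`: the lowest 32 bits
hold an additive hash value, the exponent of the variable `v < n` is the digit number `v` in base
32 of the following part, and the upper part is arbitrary.
-/

namespace Pool.Agent.Helper90.Hilb8C

open MvPolynomial Pool.Agent.Helper97.Hilb8 Pool.Agent.Helper97.Hilb8.K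

noncomputable section

/-- Polynomials modulo 2: `t k r` is `X^k + r`. -/
inductive Q | z | t (k : Nat) (r : Q)

/-- Insert the term `X^kk` and continue with `ih` (keys are expected to decrease). -/
def ins2 (kk : Nat) (ih : Q → Q) (acc : Q) : Q :=
  Q.rec (motive := fun _ => Q) (.t kk (ih .z))
    (fun u acc' ih2 =>
      Bool.rec (motive := fun _ => Q)
        (.t kk (ih (.t u acc')))
        (Bool.rec (motive := fun _ => Q) (.t u ih2) (ih acc') (Nat.beq kk u))
        (Nat.ble kk u)) acc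

/-- `acc + X^m p`. -/
def addm2 (m : Nat) (p : Q) : Q → Q :=
  Q.rec (motive := fun _ => Q → Q) (fun acc => acc)
    (fun k _ ih acc => ins2 (Nat.add k m) ih acc) p

/-- `acc + p q`. -/
def mul2 (p q : Q) : Q → Q :=
  Q.rec (motive := fun _ => Q → Q) (fun acc => acc)
    (fun k _ ih acc => ih (addm2 k q acc)) p

/-- The empty polynomial. -/
def nil2 (p : Q) : Bool := Q.rec true (fun _ _ _ => false) p

/-- All keys of `p` satisfy `A`. -/
def Q.All (A : Nat → Prop) (p : Q) : Prop := Q.rec True (fun k _ ih => A k ∧ ih) p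

/-- The value of a polynomial. -/
def Q.ev (n : Nat) (R : Type*) [CommRing R] (p : Q) : MvPolynomial (Fin n) R :=
  Q.rec 0 (fun k _ ih => monomial (expo n k) 1 + ih) p

section Basic

variable {n : ℕ} {R : Type*} [CommRing R]

theorem qev_z : (Q.z).ev n R = 0 := rfl

theorem qev_t (k : ℕ) (r : Q) : (Q.t k r).ev n R = monomial (expo n k) 1 + r.ev n R := rfl

theorem qAll_z (A : ℕ → Prop) : (Q.z).All A ↔ True := Iff.rfl

theorem qAll_t (A : ℕ → Prop) (k : ℕ) (r : Q) : (Q.t k r).All A ↔ A k ∧ r.All A := Iff.rfl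

theorem qAll_mono {A B : ℕ → Prop} {p : Q} (h : p.All A) (hAB : ∀ t, A t → B t) : p.All B := by
  induction p with
  | z => trivial
  | t k r ih => exact ⟨hAB k h.1, ih h.2⟩

theorem ins2_z (kk : ℕ) (ih : Q → Q) : ins2 kk ih .z = .t kk (ih .z) := rfl

theorem ins2_t (kk u : ℕ) (ih : Q → Q) (acc : Q) :
    ins2 kk ih (.t u acc) =
      if kk = u then ih acc
      else if kk ≤ u then .t u (ins2 kk ih acc)
      else .t kk (ih (.t u acc)) := by
  change Bool.rec (motive := fun _ => Q) (.t kk (ih (.t u acc)))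
        (Bool.rec (motive := fun _ => Q) (.t u (ins2 kk ih acc)) (ih acc) (Nat.beq kk u))
        (Nat.ble kk u) = _
  by_cases h : kk = u
  · have h1 : Nat.ble kk u = true := ble_iff.2 h.le
    have h2 : Nat.beq kk u = true := beq_iff.2 h
    rw [h1, h2, if_pos h]
  · have h2 : Nat.beq kk u = false := by
      rw [Bool.eq_false_iff]
      intro h3
      exact h (beq_iff.1 h3)
    rw [if_neg h]
    by_cases h' : kk ≤ u
    · have h1 : Nat.ble kk u = true := ble_iff.2 h'
      rw [h1, h2, if_pos h']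
    · have h1 : Nat.ble kk u = false := by
        rw [Bool.eq_false_iff]
        intro h3
        exact h' (ble_iff.1 h3)
      rw [h1, if_neg h']

theorem addm2_z (m : ℕ) (acc : Q) : addm2 m .z acc = acc := rfl

theorem addm2_t (m k : ℕ) (r acc : Q) :
    addm2 m (.t k r) acc = ins2 (k + m) (addm2 m r) acc := rfl

theorem add_self_two (h2 : (2 : R) = 0) (x : MvPolynomial (Fin n) R) : x + x = 0 := by
  have h : (2 : MvPolynomial (Fin n) R) = 0 := by
    have h1 := congrArg (C (σ := Fin n)) h2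
    rw [C_0] at h1
    rw [← h1]
    rfl
  rw [← two_mul, h, zero_mul]

theorem ev_ins2 (h2 : (2 : R) = 0) {kk : ℕ} {ih : Q → Q} {E : MvPolynomial (Fin n) R}
    (h : ∀ acc, (ih acc).ev n R = acc.ev n R + E) (acc : Q) :
    (ins2 kk ih acc).ev n R = acc.ev n R + (monomial (expo n kk) 1 + E) := by
  induction acc with
  | z =>
    rw [ins2_z, qev_t, h, qev_z]
    ring
  | t u acc hacc =>
    rw [ins2_t]
    split_ifs with h1 h3
    · subst h1
      rw [h, qev_t]
      have h4 := add_self_two h2 (monomial (expo n kk) (1 : R))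
      linear_combination -h4
    · rw [qev_t, qev_t, hacc]
      ring
    · rw [qev_t, h, qev_t]
      ring

theorem all_ins2 {A : ℕ → Prop} {kk : ℕ} {ih : Q → Q} (hk : A kk)
    (h : ∀ acc : Q, acc.All A → (ih acc).All A) (acc : Q) (hacc : acc.All A) :
    (ins2 kk ih acc).All A := by
  induction acc with
  | z =>
    rw [ins2_z, qAll_t]
    exact ⟨hk, h _ hacc⟩
  | t u acc hacc' =>
    rw [qAll_t] at hacc
    rw [ins2_t]
    split_ifs with h1 h2
    · exact h _ hacc.2
    · exact (qAll_t _ _ _).2 ⟨hacc.1, hacc' hacc.2⟩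
    · exact (qAll_t _ _ _).2 ⟨hk, h _ ((qAll_t _ _ _).2 hacc)⟩

theorem ev_addm2 (h2 : (2 : R) = 0) {m : ℕ} {p acc : Q} (hm : Good n m) (hp : p.All (Good n)) :
    (addm2 m p acc).ev n R = acc.ev n R + monomial (expo n m) 1 * p.ev n R := by
  induction p generalizing acc with
  | z => rw [addm2_z, qev_z]; ring
  | t k r hr =>
    rw [qAll_t] at hp
    rw [addm2_t, ev_ins2 h2 (E := monomial (expo n m) 1 * r.ev n R)
      (fun acc => hr hp.2), expo_add hp.1 hm, qev_t, mul_add, monomial_mul]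
    congr 2
    rw [add_comm (expo n k), one_mul]

theorem all_addm2 {A : ℕ → Prop} {m : ℕ} {p acc : Q} (hp : p.All fun k => A (k + m))
    (hacc : acc.All A) : (addm2 m p acc).All A := by
  induction p generalizing acc with
  | z => exact hacc
  | t k r hr =>
    rw [qAll_t] at hp
    rw [addm2_t]
    exact all_ins2 hp.1 (fun acc h => hr hp.2 h) acc hacc

theorem mul2_z (q acc : Q) : mul2 .z q acc = acc := rfl

theorem mul2_t (k : ℕ) (p q acc : Q) : mul2 (.t k p) q acc = mul2 p q (addm2 k q acc) := rfl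

theorem ev_mul2 (h2 : (2 : R) = 0) {p q acc : Q} (hp : p.All (Good n)) (hq : q.All (Good n)) :
    (mul2 p q acc).ev n R = acc.ev n R + p.ev n R * q.ev n R := by
  induction p generalizing acc with
  | z => rw [mul2_z, qev_z]; ring
  | t k r hr =>
    rw [qAll_t] at hp
    rw [mul2_t, hr hp.2, ev_addm2 h2 hp.1 hq, qev_t]
    ring

theorem all_mul2 {A : ℕ → Prop} {p q acc : Q} (hp : p.All fun k => q.All fun l => A (l + k))
    (hacc : acc.All A) : (mul2 p q acc).All A := by
  induction p generalizing acc with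
  | z => exact hacc
  | t k r hr =>
    rw [qAll_t] at hp
    rw [mul2_t]
    exact hr hp.2 (all_addm2 hp.1 hacc)

theorem ev_of_nil2 {p : Q} (h : nil2 p = true) : p.ev n R = 0 := by
  cases p with
  | z => rfl
  | t k r => exact absurd h (by change ¬ (false = true); simp)

end Basic

/-! ### Expressions -/

/-- Polynomial expressions. -/
inductive Ex | z | o | v (i : Nat) | a (e f : Ex) | m (e f : Ex)

instance : Add Ex := ⟨Ex.a⟩

instance : Mul Ex := ⟨Ex.m⟩

/-- The value of an expression. -/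
def Ex.ev {R : Type*} [CommRing R] (ρ : ℕ → R) : Ex → R
  | .z => 0
  | .o => 1
  | .v i => ρ i
  | .a e f => e.ev ρ + f.ev ρ
  | .m e f => e.ev ρ * f.ev ρ

/-- The polynomial of an expression; `vk i` is the key of the variable number `i`. -/
def Ex.nrm (vk : Nat → Nat) (e : Ex) : Q :=
  Ex.rec .z (.t 0 .z) (fun i => .t (vk i) .z) (fun _ _ p q => addm2 0 p q)
    (fun _ _ p q => mul2 p q .z) e

/-- A bound for the degree. -/
def Ex.deg (e : Ex) : Nat :=
  Ex.rec 0 0 (fun _ => 1) (fun _ _ p q => Bool.rec p q (Nat.ble p q)) (fun _ _ p q => Nat.add p q) e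

/-- All variables have numbers `< N`. -/
def Ex.bd (N : Nat) (e : Ex) : Bool :=
  Ex.rec true true (fun i => Nat.ble (Nat.succ i) N) (fun _ _ p q => Bool.rec false q p)
    (fun _ _ p q => Bool.rec false q p) e

/-- The check that an expression is zero modulo 2. -/
def Ex.chk (vk : Nat → Nat) (N : Nat) (e : Ex) : Bool :=
  Bool.rec false (Bool.rec false (nil2 (e.nrm vk)) (Nat.ble e.deg 15)) (e.bd N)

/-- The key has digits `≤ d` and hash value `≤ d * 2 ^ 26`. -/
def Gd (n d k : Nat) : Prop := k % 2 ^ 32 ≤ d * 2 ^ 26 ∧ ∀ v < n, dig k v ≤ d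

theorem Gd.good {n d k : ℕ} (h : Gd n d k) (hd : d ≤ 15) : Good n k := by
  refine ⟨?_, fun v hv => ?_⟩
  · have := h.1
    have h1 : d * 2 ^ 26 ≤ 15 * 2 ^ 26 := Nat.mul_le_mul_right _ hd
    omega
  · have := h.2 v hv
    omega

theorem Gd.mono {n d d' k : ℕ} (h : Gd n d k) (hd : d ≤ d') : Gd n d' k := by
  refine ⟨?_, fun v hv => ?_⟩
  · exact le_trans h.1 (Nat.mul_le_mul_right _ hd)
  · have := h.2 v hv
    omega

theorem Gd.add {n d d' k k' : ℕ} (h : Gd n d k) (h' : Gd n d' k') (hd : d + d' ≤ 15) :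
    Gd n (d + d') (k + k') := by
  refine ⟨?_, fun v hv => ?_⟩
  · have h1 := h.1
    have h2 := h'.1
    have h3 : (d + d') * 2 ^ 26 ≤ 15 * 2 ^ 26 := Nat.mul_le_mul_right _ hd
    rw [Nat.add_mod, add_mul]
    rw [add_mul] at h3
    have h4 : (k % 2 ^ 32 + k' % 2 ^ 32) % 2 ^ 32 ≤ k % 2 ^ 32 + k' % 2 ^ 32 := Nat.mod_le _ _
    omega
  · rw [dig_add (h.good (by omega)) (h'.good (by omega)) v hv]
    have := h.2 v hv
    have := h'.2 v hv
    omega

theorem gd_zero (n d : ℕ) : Gd n d 0 := by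
  refine ⟨by simp, fun v _ => ?_⟩
  rw [dig_zero]
  exact Nat.zero_le _

theorem expo_zero (n : ℕ) : expo n 0 = 0 := by
  ext v
  rw [expo_apply, dig_zero]
  rfl

section Sound

variable {n : ℕ} {R : Type*} [CommRing R]

theorem deg_a (e f : Ex) : (Ex.a e f).deg = max e.deg f.deg := by
  change Bool.rec (motive := fun _ => Nat) e.deg f.deg (Nat.ble e.deg f.deg) = _
  by_cases h : e.deg ≤ f.deg
  · rw [ble_iff.2 h, max_eq_right h]
  · have h1 : Nat.ble e.deg f.deg = false := by
      rw [Bool.eq_false_iff]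
      intro h3
      exact h (ble_iff.1 h3)
    rw [h1, max_eq_left (by omega)]

theorem brec_and {b c : Bool} (h : (Bool.rec (motive := fun _ => Bool) false c b : Bool) = true) :
    b = true ∧ c = true := by
  cases b
  · exact absurd h (by simp)
  · exact ⟨rfl, h⟩

theorem nrm_sound (h2 : (2 : R) = 0) (vk : ℕ → ℕ) (N : ℕ) (ρ : ℕ → MvPolynomial (Fin n) R)
    (hvk : ∀ i < N, Gd n 1 (vk i) ∧ monomial (expo n (vk i)) (1 : R) = ρ i) (e : Ex)
    (hd : e.deg ≤ 15) (hb : e.bd N = true) :
    (e.nrm vk).All (Gd n e.deg) ∧ (e.nrm vk).ev n R = e.ev ρ := by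
  induction e with
  | z => exact ⟨trivial, rfl⟩
  | o =>
    refine ⟨⟨gd_zero n _, trivial⟩, ?_⟩
    change (monomial (expo n 0) (1 : R)) + 0 = 1
    rw [expo_zero, add_zero]
    rfl
  | v i =>
    have hi : i < N := ble_iff.1 hb
    refine ⟨⟨(hvk i hi).1, trivial⟩, ?_⟩
    change monomial (expo n (vk i)) (1 : R) + 0 = ρ i
    rw [add_zero, (hvk i hi).2]
  | a e f he hf =>
    rw [deg_a] at hd ⊢
    obtain ⟨hb1, hb2⟩ := brec_and (b := e.bd N) (c := f.bd N) hb
    obtain ⟨h3, h4⟩ := he (le_trans (le_max_left _ _) hd) hb1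
    obtain ⟨h5, h6⟩ := hf (le_trans (le_max_right _ _) hd) hb2
    have h7 : (e.nrm vk).All (Good n) := qAll_mono h3 fun t ht => ht.good
      (le_trans (le_max_left _ _) hd)
    constructor
    · change (addm2 0 (e.nrm vk) (f.nrm vk)).All _
      apply all_addm2
      · exact qAll_mono h3 fun t ht => by
          rw [Nat.add_zero]
          exact ht.mono (le_max_left _ _)
      · exact qAll_mono h5 fun t ht => ht.mono (le_max_right _ _)
    · change (addm2 0 (e.nrm vk) (f.nrm vk)).ev n R = e.ev ρ + f.ev ρ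
      rw [ev_addm2 h2 ((gd_zero n 0).good (by omega)) h7, h4, h6, expo_zero]
      have : (monomial (0 : Fin n →₀ ℕ) (1 : R)) = 1 := rfl
      rw [this]
      ring
  | m e f he hf =>
    have hd' : e.deg + f.deg ≤ 15 := hd
    obtain ⟨hb1, hb2⟩ := brec_and (b := e.bd N) (c := f.bd N) hb
    obtain ⟨h3, h4⟩ := he (by omega) hb1
    obtain ⟨h5, h6⟩ := hf (by omega) hb2
    constructor
    · change (mul2 (e.nrm vk) (f.nrm vk) .z).All (Gd n (e.deg + f.deg))
      refine all_mul2 (A := Gd n (e.deg + f.deg)) ?_ trivial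
      refine qAll_mono h3 fun t ht => qAll_mono h5 fun l hl => ?_
      rw [Nat.add_comm l]
      exact ht.add hl hd'
    · change (mul2 (e.nrm vk) (f.nrm vk) .z).ev n R = e.ev ρ * f.ev ρ
      rw [ev_mul2 h2 (qAll_mono h3 fun t ht => ht.good (by omega))
        (qAll_mono h5 fun t ht => ht.good (by omega)), h4, h6, qev_z, zero_add]

theorem Ex.map_ev {R S : Type*} [CommRing R] [CommRing S] (f : R →+* S) (ρ : ℕ → R) (e : Ex) :
    f (e.ev ρ) = e.ev (fun i => f (ρ i)) := by
  induction e with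
  | z => exact map_zero f
  | o => exact map_one f
  | v i => rfl
  | a e g he hg => exact (map_add f _ _).trans (congrArg₂ _ he hg)
  | m e g he hg => exact (map_mul f _ _).trans (congrArg₂ _ he hg)

theorem Ex.ev_congr {R : Type*} [CommRing R] (ρ ρ' : ℕ → R) (N : ℕ)
    (h : ∀ i < N, ρ i = ρ' i) (e : Ex) (hb : e.bd N = true) : e.ev ρ = e.ev ρ' := by
  induction e with
  | z => rfl
  | o => rfl
  | v i => exact h i (ble_iff.1 hb)
  | a e g he hg =>
    obtain ⟨hb1, hb2⟩ := brec_and (b := e.bd N) (c := g.bd N) hb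
    exact congrArg₂ (· + ·) (he hb1) (hg hb2)
  | m e g he hg =>
    obtain ⟨hb1, hb2⟩ := brec_and (b := e.bd N) (c := g.bd N) hb
    exact congrArg₂ (· * ·) (he hb1) (hg hb2)

end Sound

end

end Pool.Agent.Helper90.Hilb8C
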