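import Pool.Agent.Helper90.Hilb8C.Gr

/-!
# Families over power series give homomorphisms from the ring of lowest forms
-/

namespace Pool.Agent.Helper90.Hilb8C

open Pool.Agent.Helper97.Hilb8 Pool.Agent.Helper97.Hilb8.TopAux Pool.Agent.Helper28.Hilb8 Matrix

noncomputable section

/-- `x_j` in the basis. -/
def up1 (j : Fin 3) : Fin 8 := ⟨j + 1, by omega⟩

/-- `x_j x₄` in the basis. -/
def up5 (j : Fin 3) : Fin 8 := ⟨j + 5, by omega⟩

section Fam

variable {k : Type*} [Field k] {F : Type*} [CommRing F] [Algebra k F] {M : Type*} [AddCommGroup M]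
  [Module (PowerSeries F) M]

/-- The data of a family. -/
structure FamData (F : Type*) [CommRing F] (M : Type*) [AddCommGroup M]
    [Module (PowerSeries F) M] where
  b : Module.Basis (Fin 8) (PowerSeries F) M
  X : Fin 4 → Module.End (PowerSeries F) M
  e : M
  δ : F
  τ : F
  β : Fin 3 → F
  γ : Fin 3 → F
  c : Fin 6 → Fin 3 → F
  t : Fin 6 → Fin 3 → F
  hX : ∀ i j, X i * X j = X j * X i
  hb : ∀ c : Fin 8, b c = chartC.monoEl X c e
  h6 : ∃ (μ ν : PowerSeries F) (m : M), X 3 (X 3 e) = PowerSeries.C δ • b 0 + PowerSeries.C τ • b 4 +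
    (PowerSeries.X : PowerSeries F) • (μ • b 0 + ν • b 4 + ∑ j : Fin 3,
      (PowerSeries.C (β j) • b (up1 j) + PowerSeries.C (γ j) • b (up5 j))) +
    (PowerSeries.X : PowerSeries F) ^ 2 • m
  hp : ∀ i j : Fin 3, ∃ (μ ν : PowerSeries F) (m : M), X i.castSucc (X j.castSucc e) =
    μ • b 0 + ν • b 4 + ∑ r : Fin 3,
      (PowerSeries.C (c (sy i j) r) • b (up1 r) + PowerSeries.C (t (sy i j) r) • b (up5 r)) +
    (PowerSeries.X : PowerSeries F) • m

variable (D : FamData F M)

theorem fd_b0 : D.b 0 = D.e := by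
  rw [D.hb]
  change (D.X 0 ^ 0 * D.X 1 ^ 0 * D.X 2 ^ 0 * D.X 3 ^ 0) D.e = D.e
  simp

theorem fd_b4 : D.b 4 = D.X 3 D.e := by
  rw [D.hb]
  change (D.X 0 ^ 0 * D.X 1 ^ 0 * D.X 2 ^ 0 * D.X 3 ^ 1) D.e = _
  simp

theorem fd_b1 (j : Fin 3) : D.b (up1 j) = D.X j.castSucc D.e := by
  rw [D.hb]
  fin_cases j
  · change (D.X 0 ^ 1 * D.X 1 ^ 0 * D.X 2 ^ 0 * D.X 3 ^ 0) D.e = D.X 0 D.e
    simp
  · change (D.X 0 ^ 0 * D.X 1 ^ 1 * D.X 2 ^ 0 * D.X 3 ^ 0) D.e = D.X 1 D.e
    simp
  · change (D.X 0 ^ 0 * D.X 1 ^ 0 * D.X 2 ^ 1 * D.X 3 ^ 0) D.e = D.X 2 D.e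
    simp

theorem fd_b5 (j : Fin 3) : D.b (up5 j) = D.X j.castSucc (D.X 3 D.e) := by
  rw [D.hb]
  fin_cases j
  · change (D.X 0 ^ 1 * D.X 1 ^ 0 * D.X 2 ^ 0 * D.X 3 ^ 1) D.e = D.X 0 (D.X 3 D.e)
    simp
  · change (D.X 0 ^ 0 * D.X 1 ^ 1 * D.X 2 ^ 0 * D.X 3 ^ 1) D.e = D.X 1 (D.X 3 D.e)
    simp
  · change (D.X 0 ^ 0 * D.X 1 ^ 0 * D.X 2 ^ 1 * D.X 3 ^ 1) D.e = D.X 2 (D.X 3 D.e)
    simp

/-- The coordinates. -/
def fa (v : ℕ) : PowerSeries F := chartC.coord D.b D.X D.e v

theorem fa_isPt : chartC.IsPt (fa D) := chartC.isPt_coord D.b D.X D.hX D.e D.hb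

theorem fa_eq (β : ℕ) (r : Fin 8) : fa D (8 * β + r) =
    D.b.repr (chartC.monoEl D.X (8 + β) D.e) r := by
  unfold fa Chart.coord
  have h1 : (8 * β + (r : ℕ)) / 8 = β := by omega
  have h2 : (8 * β + (r : ℕ)) % 8 = r := by omega
  rw [h1]
  congr 1
  exact Fin.ext h2

/-- The column of `x_c x₄²`. -/
theorem mono_sq (c : Fin 4) : ∃ m : M, chartC.monoEl D.X (8 + (6 + c)) D.e =
    PowerSeries.C D.δ • D.b ⟨c, by omega⟩ + PowerSeries.C D.τ • D.b ⟨c + 4, by omega⟩ +
      (PowerSeries.X : PowerSeries F) • m := by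
  obtain ⟨μ, ν, m, h⟩ := D.h6
  refine Fin.cases ?_ (fun j => ?_) c
  · refine ⟨μ • D.b 0 + ν • D.b 4 + ∑ j : Fin 3,
      (PowerSeries.C (D.β j) • D.b (up1 j) + PowerSeries.C (D.γ j) • D.b (up5 j)) +
      (PowerSeries.X : PowerSeries F) • m, ?_⟩
    have h1 : chartC.monoEl D.X (8 + (6 + ((0 : Fin 4) : ℕ))) D.e = D.X 3 (D.X 3 D.e) := by
      change (D.X 0 ^ 0 * D.X 1 ^ 0 * D.X 2 ^ 0 * D.X 3 ^ 2) D.e = _
      simp [pow_two]
    rw [h1, h, smul_add _ _ ((PowerSeries.X : PowerSeries F) • m), smul_smul, ← pow_two,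
      add_assoc (PowerSeries.C D.δ • D.b 0 + PowerSeries.C D.τ • D.b 4)]
    rfl
  · refine ⟨D.X j.castSucc (μ • D.b 0 + ν • D.b 4 + ∑ j : Fin 3,
      (PowerSeries.C (D.β j) • D.b (up1 j) + PowerSeries.C (D.γ j) • D.b (up5 j))) +
      (PowerSeries.X : PowerSeries F) • D.X j.castSucc m, ?_⟩
    have h1 : chartC.monoEl D.X (8 + (6 + ((j.succ : Fin 4) : ℕ))) D.e =
        D.X j.castSucc (D.X 3 (D.X 3 D.e)) := by
      fin_cases j
      · change (D.X 0 ^ 1 * D.X 1 ^ 0 * D.X 2 ^ 0 * D.X 3 ^ 2) D.e = D.X 0 _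
        simp [pow_two]
      · change (D.X 0 ^ 0 * D.X 1 ^ 1 * D.X 2 ^ 0 * D.X 3 ^ 2) D.e = D.X 1 _
        simp [pow_two]
      · change (D.X 0 ^ 0 * D.X 1 ^ 0 * D.X 2 ^ 1 * D.X 3 ^ 2) D.e = D.X 2 _
        simp [pow_two]
    have h2 : D.b ⟨((j.succ : Fin 4) : ℕ), by omega⟩ = D.X j.castSucc (D.b 0) := by
      rw [fd_b0, ← fd_b1]
      rfl
    have h3 : D.b ⟨((j.succ : Fin 4) : ℕ) + 4, by have := j.succ.2; omega⟩ =
        D.X j.castSucc (D.b 4) := by
      rw [fd_b4, ← fd_b5]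
      rfl
    rw [h1, h, h2, h3, map_add, map_add, map_add, map_smul, map_smul, map_smul, map_smul, smul_add,
      smul_smul, ← pow_two, add_assoc]

theorem cc_fa_sq (c : Fin 4) (r : Fin 8) :
    PowerSeries.constantCoeff (fa D (8 * (6 + c) + r)) =
      D.δ * (if (r : ℕ) = c then 1 else 0) + D.τ * (if (r : ℕ) = c + 4 then 1 else 0) := by
  obtain ⟨m, h⟩ := mono_sq D c
  rw [fa_eq, h, map_add, map_add, map_smul, map_smul, map_smul, Module.Basis.repr_self,
    Module.Basis.repr_self, Finsupp.add_apply, Finsupp.add_apply, Finsupp.smul_apply,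
    Finsupp.smul_apply, Finsupp.smul_apply, Finsupp.single_apply, Finsupp.single_apply, smul_eq_mul,
    smul_eq_mul, smul_eq_mul, map_add, map_add, map_mul, map_mul, map_mul,
    PowerSeries.constantCoeff_X, zero_mul, add_zero, PowerSeries.constantCoeff_C,
    PowerSeries.constantCoeff_C]
  congr 2
  · by_cases h1 : (r : ℕ) = c
    · rw [if_pos h1, if_pos (Fin.ext h1.symm), map_one]
    · rw [if_neg h1, if_neg (fun h2 => h1 (congrArg Fin.val h2).symm), map_zero]
  · by_cases h1 : (r : ℕ) = c + 4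
    · rw [if_pos h1, if_pos (Fin.ext h1.symm), map_one]
    · rw [if_neg h1, if_neg (fun h2 => h1 (congrArg Fin.val h2).symm), map_zero]

theorem fa_off (v : ℕ) (hv : wC v = 1) : PowerSeries.constantCoeff (fa D v) = 0 := by
  have hv' : 48 ≤ v ∧ v < 80 ∧ v % 4 ≠ v / 8 - 6 := by
    by_contra h
    unfold wC at hv
    rw [if_neg h] at hv
    exact absurd hv (by norm_num)
  have h1 : v = 8 * (6 + ((⟨v / 8 - 6, by omega⟩ : Fin 4) : ℕ)) + ((⟨v % 8, by omega⟩ : Fin 8) : ℕ) := by
    simp only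
    omega
  rw [h1, cc_fa_sq, if_neg, if_neg, mul_zero, mul_zero, add_zero]
  · simp only
    omega
  · simp only
    omega

theorem coeff_one_fa (r : Fin 8) (h0 : r ≠ 0) (h4 : r ≠ 4) :
    PowerSeries.coeff 1 (fa D (8 * 6 + r)) =
      ∑ j : Fin 3, (D.β j * (if up1 j = r then 1 else 0) + D.γ j * (if up5 j = r then 1 else 0)) := by
  obtain ⟨μ, ν, m, h⟩ := D.h6
  have h1 : chartC.monoEl D.X (8 + 6) D.e = D.X 3 (D.X 3 D.e) := by
    change (D.X 0 ^ 0 * D.X 1 ^ 0 * D.X 2 ^ 0 * D.X 3 ^ 2) D.e = _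
    simp [pow_two]
  have h2 : fa D (8 * 6 + r) = (PowerSeries.X : PowerSeries F) *
      PowerSeries.C (∑ j : Fin 3, (D.β j * (if up1 j = r then 1 else 0) +
        D.γ j * (if up5 j = r then 1 else 0))) +
      (PowerSeries.X : PowerSeries F) ^ 2 * D.b.repr m r := by
    rw [fa_eq, h1, h]
    simp only [map_add, map_smul, map_sum, Finsupp.add_apply, Finsupp.smul_apply, smul_eq_mul,
      Module.Basis.repr_self, Finsupp.single_apply, if_neg h0.symm, if_neg h4.symm, mul_zero,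
      add_zero, zero_add, Finsupp.finsetSum_apply, map_mul]
    congr 3
    funext j
    split_ifs <;> simp
  rw [h2, map_add, PowerSeries.coeff_X_pow_mul', if_neg (by norm_num), add_zero,
    show (1 : ℕ) = 0 + 1 from rfl, PowerSeries.coeff_succ_X_mul,
    PowerSeries.coeff_zero_eq_constantCoeff_apply, PowerSeries.constantCoeff_C]

theorem cc_fa_prod (s : Fin 6) (r : Fin 8) (h0 : r ≠ 0) (h4 : r ≠ 4) :
    PowerSeries.constantCoeff (fa D (8 * s + r)) =
      ∑ j : Fin 3, (D.c s j * (if up1 j = r then 1 else 0) +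
        D.t s j * (if up5 j = r then 1 else 0)) := by
  obtain ⟨i, j, hs, hm⟩ : ∃ i j : Fin 3, s = sy i j ∧
      chartC.monoEl D.X (8 + s) D.e = D.X i.castSucc (D.X j.castSucc D.e) := by
    fin_cases s
    · refine ⟨0, 0, rfl, ?_⟩
      change (D.X 0 ^ 2 * D.X 1 ^ 0 * D.X 2 ^ 0 * D.X 3 ^ 0) D.e = D.X 0 (D.X 0 D.e)
      simp [pow_two]
    · refine ⟨0, 1, rfl, ?_⟩
      change (D.X 0 ^ 1 * D.X 1 ^ 1 * D.X 2 ^ 0 * D.X 3 ^ 0) D.e = D.X 0 (D.X 1 D.e)
      simp
    · refine ⟨0, 2, rfl, ?_⟩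
      change (D.X 0 ^ 1 * D.X 1 ^ 0 * D.X 2 ^ 1 * D.X 3 ^ 0) D.e = D.X 0 (D.X 2 D.e)
      simp
    · refine ⟨1, 1, rfl, ?_⟩
      change (D.X 0 ^ 0 * D.X 1 ^ 2 * D.X 2 ^ 0 * D.X 3 ^ 0) D.e = D.X 1 (D.X 1 D.e)
      simp [pow_two]
    · refine ⟨1, 2, rfl, ?_⟩
      change (D.X 0 ^ 0 * D.X 1 ^ 1 * D.X 2 ^ 1 * D.X 3 ^ 0) D.e = D.X 1 (D.X 2 D.e)
      simp
    · refine ⟨2, 2, rfl, ?_⟩
      change (D.X 0 ^ 0 * D.X 1 ^ 0 * D.X 2 ^ 2 * D.X 3 ^ 0) D.e = D.X 2 (D.X 2 D.e)
      simp [pow_two]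
  obtain ⟨μ, ν, m, h⟩ := D.hp i j
  rw [fa_eq, hm, h, ← hs]
  simp only [map_add, map_smul, map_sum, Finsupp.add_apply, Finsupp.smul_apply, smul_eq_mul,
    Module.Basis.repr_self, Finsupp.single_apply, if_neg h0.symm, if_neg h4.symm, mul_zero,
    add_zero, zero_add, Finsupp.finsetSum_apply, map_mul, PowerSeries.constantCoeff_X, zero_mul,
    PowerSeries.constantCoeff_C]
  apply Finset.sum_congr rfl
  intro j _
  split_ifs <;> simp

variable (k)

/-- The homomorphism given by the lowest coefficients. -/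
def fth : SC k →ₐ[k] F := MvPolynomial.aeval (fun v => PowerSeries.coeff (wF v) (fa D v))

theorem fth_var (v : ℕ) (hv : v < 128) : fth k D (chartC.var k v) =
    PowerSeries.coeff (wC v) (fa D v) := by
  unfold Chart.var fth
  rw [dif_pos (show v < 8 * chartC.nb from hv), MvPolynomial.aeval_X]

theorem fth_fam : HasFam wF (chartC.ideal k) (fth k D) := by
  refine ⟨MvPolynomial.aeval (fun v : Fin (8 * chartC.nb) => fa D v),
    chartC.eval_ideal k (fa D) (fa_isPt D), fun v => ⟨fun n hn => ?_, ?_⟩⟩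
  · have h1 : wC v = 1 := by
      have h2 : n < wC v := hn
      unfold wC at h2 ⊢
      split_ifs at h2 ⊢
      · rfl
      · omega
    have h2 : n = 0 := by
      have h2 : n < wC v := hn
      omega
    rw [MvPolynomial.aeval_X, h2, PowerSeries.coeff_zero_eq_constantCoeff_apply]
    exact fa_off D v h1
  · rw [MvPolynomial.aeval_X]
    unfold fth
    rw [MvPolynomial.aeval_X]

theorem fth_delta : fth k D (chartC.var k 48) = D.δ := by
  rw [fth_var k D 48 (by norm_num)]
  have h := cc_fa_sq D 0 0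
  have h1 : wC 48 = 0 := rfl
  rw [h1, PowerSeries.coeff_zero_eq_constantCoeff_apply]
  refine h.trans ?_
  simp

theorem fth_tau : fth k D (chartC.var k 52) = D.τ := by
  rw [fth_var k D 52 (by norm_num)]
  have h := cc_fa_sq D 0 4
  have h1 : wC 52 = 0 := rfl
  rw [h1, PowerSeries.coeff_zero_eq_constantCoeff_apply]
  refine h.trans ?_
  simp

theorem fth_b (j : Fin 3) : fth k D (chartC.var k (49 + j)) = D.β j := by
  rw [fth_var k D _ (by omega)]
  fin_cases j
  · exact (coeff_one_fa D 1 (by decide) (by decide)).trans (by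
      simp [Fin.sum_univ_three, up1, up5])
  · exact (coeff_one_fa D 2 (by decide) (by decide)).trans (by
      simp [Fin.sum_univ_three, up1, up5])
  · exact (coeff_one_fa D 3 (by decide) (by decide)).trans (by
      simp [Fin.sum_univ_three, up1, up5])

theorem fth_c (j : Fin 3) : fth k D (chartC.var k (53 + j)) = D.γ j := by
  rw [fth_var k D _ (by omega)]
  fin_cases j
  · exact (coeff_one_fa D 5 (by decide) (by decide)).trans (by
      simp [Fin.sum_univ_three, up1, up5])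
  · exact (coeff_one_fa D 6 (by decide) (by decide)).trans (by
      simp [Fin.sum_univ_three, up1, up5])
  · exact (coeff_one_fa D 7 (by decide) (by decide)).trans (by
      simp [Fin.sum_univ_three, up1, up5])

theorem fth_cS (s : Fin 6) (r : Fin 3) : fth k D (chartC.var k (8 * s + (r + 1))) = D.c s r := by
  rw [fth_var k D _ (by omega), wC_lt _ (by omega), PowerSeries.coeff_zero_eq_constantCoeff_apply]
  fin_cases r
  · exact (cc_fa_prod D s 1 (by decide) (by decide)).trans (by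
      simp [Fin.sum_univ_three, up1, up5])
  · exact (cc_fa_prod D s 2 (by decide) (by decide)).trans (by
      simp [Fin.sum_univ_three, up1, up5])
  · exact (cc_fa_prod D s 3 (by decide) (by decide)).trans (by
      simp [Fin.sum_univ_three, up1, up5])

theorem fth_cT (s : Fin 6) (r : Fin 3) : fth k D (chartC.var k (8 * s + (r + 5))) = D.t s r := by
  rw [fth_var k D _ (by omega), wC_lt _ (by omega), PowerSeries.coeff_zero_eq_constantCoeff_apply]
  fin_cases r
  · exact (cc_fa_prod D s 5 (by decide) (by decide)).trans (by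
      simp [Fin.sum_univ_three, up1, up5])
  · exact (cc_fa_prod D s 6 (by decide) (by decide)).trans (by
      simp [Fin.sum_univ_three, up1, up5])
  · exact (cc_fa_prod D s 7 (by decide) (by decide)).trans (by
      simp [Fin.sum_univ_three, up1, up5])

/-! ### The homomorphism on the ring of lowest forms -/

theorem fth_kill (g : SC k) (hg : g ∈ Ideal.span (GC k)) : fth k D g = 0 := by
  have h : Ideal.span (GC k) ≤ RingHom.ker (fth k D : SC k →+* F) := by
    rw [Ideal.span_le]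
    rintro g ⟨f, hf, d, hd⟩
    obtain ⟨ψ, hψ, hψ'⟩ := fth_fam k D
    rw [LowAux.isBot_iff] at hd
    have h1 : ∀ e, wt wF e < d → MvPolynomial.coeff e f = 0 := by
      intro e he
      rw [hd.2 e he.le, hd.1 e (by omega)]
    have h2 := LowAux.coeff_fam (w := wF) (θ := fth k D) (ψ := ψ) hψ' d f h1
    rw [hψ f hf, map_zero] at h2
    have h3 : comp wF d f = g := by
      apply MvPolynomial.ext
      intro e
      rw [coeff_comp]
      split_ifs with h4
      · exact hd.2 e h4.le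
      · exact (hd.1 e h4).symm
    rw [h3] at h2
    exact h2.symm
  exact h hg

/-- The induced homomorphism. -/
def fbar : GR k →+* F := Ideal.Quotient.lift (Ideal.span (GC k)) (fth k D : SC k →+* F)
  (fun g hg => fth_kill k D g hg)

theorem fbar_mk (p : SC k) : fbar k D (mkG k p) = fth k D p := rfl

theorem fbar_xb (v : ℕ) : fbar k D (xb k v) = fth k D (chartC.var k v) := rfl

theorem map_lof {R R' : Type*} [CommRing R] [CommRing R'] (g : R →+* R')
    (c : Fin 6 → Fin 3 → R) (p : ℕ) : g (lof c p) = lof (fun s r => g (c s r)) p := by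
  by_cases h : p < 18
  · interval_cases p
    · rfl
    · rfl
    · rfl
    · exact map_add g _ _
    · rfl
    · exact (map_add g _ _).trans (congrArg₂ _ rfl (map_add g _ _))
    · rfl
    · exact (map_add g _ _).trans (congrArg₂ _ rfl (map_add g _ _))
    · exact map_add g _ _
    · exact map_add g _ _
    · exact (map_add g _ _).trans (congrArg₂ _ rfl (map_add g _ _))
    · rfl
    · rfl
    · rfl
    · rfl
    · rfl
    · rfl
    · rfl
  · unfold lof
    rw [dif_neg h, dif_neg h, map_zero]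

theorem fbar_xs (p : ℕ) : fbar k D (xs k p) = lof D.c p := by
  unfold xs
  rw [map_lof]
  congr 1
  funext s r
  exact fth_cS k D s r

theorem fbar_ys (p : ℕ) : fbar k D (ys k p) = lof D.t p := by
  unfold ys
  rw [map_lof]
  congr 1
  funext s r
  exact fth_cT k D s r

/-- The values of the 44 variables. -/
def etab (v : ℕ) : F :=
  if v < 38 then env (lof D.c) (lof D.t) D.δ D.τ v
  else if h : v < 41 then D.β ⟨v - 38, by omega⟩ else if h : v < 44 then D.γ ⟨v - 41, by omega⟩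
  else 0

/-- The homomorphism on the presentation. -/
def eta : MvPolynomial (Fin 44) k →ₐ[k] F := MvPolynomial.aeval (fun v => etab D v)

theorem fbar_ptab (v : ℕ) (hv : v < 44) : fbar k D (ptab k v) = etab D v := by
  unfold ptab etab
  split_ifs with h1 h2
  · unfold env
    split_ifs
    · exact fbar_xs k D _
    · exact fbar_ys k D _
    · exact fth_tau k D
    · exact fth_delta k D
    · exact fbar_xs k D _
    · exact fbar_ys k D _
  · rw [fbar_xb, ← fth_b k D]
    have : v + 11 = 49 + ((⟨v - 38, by omega⟩ : Fin 3) : ℕ) := by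
      simp only
      omega
    rw [this]
  · rw [fbar_xb, ← fth_c k D]
    have : v + 12 = 53 + ((⟨v - 41, by omega⟩ : Fin 3) : ℕ) := by
      simp only
      omega
    rw [this]

theorem fbar_Psi (p : MvPolynomial (Fin 44) k) : fbar k D (Psi k p) = eta k D p := by
  have h : (fbar k D).comp (Psi k) = (eta k D : MvPolynomial (Fin 44) k →+* F) := by
    apply MvPolynomial.ringHom_ext
    · intro r
      rw [RingHom.comp_apply, Psi_C, fbar_mk]
      change _ = eta k D (MvPolynomial.C r)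
      rw [MvPolynomial.algHom_C, MvPolynomial.algHom_C]
    · intro v
      have h1 : Psi k (MvPolynomial.X v) = ptab k v := by
        have h2 := Psi_va k v v.2
        unfold va at h2
        rw [dif_pos v.2] at h2
        exact h2
      rw [RingHom.comp_apply, h1, fbar_ptab k D v v.2]
      change _ = eta k D (MvPolynomial.X v)
      unfold eta
      rw [MvPolynomial.aeval_X]
  exact congrArg (fun f : MvPolynomial (Fin 44) k →+* F => f p) h

end Fam

end

end Pool.Agent.Helper90.Hilb8C
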