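import Pool.Agent.Helper90.Hilb8C.Fam

/-!
# The first family
-/

namespace Pool.Agent.Helper90.Hilb8C

open Pool.Agent.Helper97.Hilb8 Pool.Agent.Helper97.Hilb8.TopAux Pool.Agent.Helper28.Hilb8

noncomputable section

/-- A family of vectors congruent to a basis is a basis. -/
theorem basis_near {F M : Type*} [CommRing F] [AddCommGroup M] [Module (PowerSeries F) M]
    (b0 : Module.Basis (Fin 8) (PowerSeries F) M) (v : Fin 8 → M)
    (h : ∀ c, ∃ m : M, v c = b0 c + (PowerSeries.X : PowerSeries F) • m) :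
    ∃ b : Module.Basis (Fin 8) (PowerSeries F) M, ∀ c, b c = v c := by
  have hm : (PowerSeries.constantCoeff (R := F)).mapMatrix (b0.toMatrix v) = 1 := by
    ext i j
    obtain ⟨m, hm⟩ := h j
    rw [RingHom.mapMatrix_apply, Matrix.map_apply, Module.Basis.toMatrix_apply, hm, map_add,
      map_smul, Finsupp.add_apply, Finsupp.smul_apply, smul_eq_mul, map_add, map_mul,
      PowerSeries.constantCoeff_X, zero_mul, add_zero, Module.Basis.repr_self,
      Finsupp.single_apply, Matrix.one_apply]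
    by_cases hij : i = j
    · rw [if_pos hij, if_pos hij.symm, map_one]
    · rw [if_neg hij, if_neg (fun h => hij h.symm), map_zero]
  have hu : IsUnit (b0.det v) := by
    rw [Module.Basis.det_apply, PowerSeries.isUnit_iff_constantCoeff, RingHom.map_det, hm,
      Matrix.det_one]
    exact isUnit_one
  obtain ⟨h1, h3⟩ := (b0.is_basis_iff_det).mpr hu
  exact ⟨Module.Basis.mk h1 h3.ge, fun c => Module.Basis.mk_apply _ _ _⟩

section Abs

variable {F M : Type*} [CommRing F] [AddCommGroup M] [Module (PowerSeries F) M]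

/-- An algebra with a quadratic element. -/
structure Base (F M : Type*) [CommRing F] [AddCommGroup M] [Module (PowerSeries F) M] where
  h2 : (2 : F) = 0
  L : Fin 3 → Module.End (PowerSeries F) M
  W : Module.End (PowerSeries F) M
  e : M
  b0 : Module.Basis (Fin 8) (PowerSeries F) M
  δ : F
  τ : F
  c : Fin 6 → Fin 3 → F
  t : Fin 6 → Fin 3 → F
  hLL : ∀ i j, L i * L j = L j * L i
  hLW : ∀ i, L i * W = W * L i
  hWW : W * W = PowerSeries.C δ • 1 + PowerSeries.C τ • W
  hb0 : b0 0 = e
  hb1 : ∀ j, b0 (up1 j) = L j e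
  hb4 : b0 4 = W e
  hb5 : ∀ j, b0 (up5 j) = L j (W e)
  hprod : ∀ i j, ∃ μ ν : PowerSeries F, L i (L j e) = μ • e + ν • W e +
    ∑ r : Fin 3, (PowerSeries.C (c (sy i j) r) • L r e + PowerSeries.C (t (sy i j) r) • L r (W e))

variable (B : Base F M) (α β : Fin 3 → F)

/-- The perturbation. -/
def UB : Module.End (PowerSeries F) M :=
  ∑ r : Fin 3, (PowerSeries.C (α r) • B.L r + PowerSeries.C (β r) • (B.L r * B.W))

/-- The four multiplications. -/
def XB : Fin 4 → Module.End (PowerSeries F) M :=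
  ![B.L 0, B.L 1, B.L 2, B.W + (PowerSeries.X : PowerSeries F) • UB B α β]

theorem XB_cast (i : Fin 3) : XB B α β i.castSucc = B.L i := by
  fin_cases i <;> rfl

theorem XB_last : XB B α β 3 = B.W + (PowerSeries.X : PowerSeries F) • UB B α β := rfl

theorem L_UB (i : Fin 3) : B.L i * UB B α β = UB B α β * B.L i := by
  unfold UB
  rw [Finset.mul_sum, Finset.sum_mul]
  apply Finset.sum_congr rfl
  intro r _
  rw [mul_add, add_mul, mul_smul_comm, mul_smul_comm, smul_mul_assoc, smul_mul_assoc, B.hLL,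
    ← mul_assoc, B.hLL i r, mul_assoc, B.hLW, mul_assoc]

theorem W_UB : B.W * UB B α β = UB B α β * B.W := by
  unfold UB
  rw [Finset.mul_sum, Finset.sum_mul]
  apply Finset.sum_congr rfl
  intro r _
  rw [mul_add, add_mul, mul_smul_comm, mul_smul_comm, smul_mul_assoc, smul_mul_assoc,
    ← mul_assoc, ← B.hLW, mul_assoc]

theorem XB_comm (i j : Fin 4) : XB B α β i * XB B α β j = XB B α β j * XB B α β i := by
  have h3 : ∀ i : Fin 3, B.L i * (B.W + (PowerSeries.X : PowerSeries F) • UB B α β) =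
      (B.W + (PowerSeries.X : PowerSeries F) • UB B α β) * B.L i := by
    intro i
    rw [mul_add, add_mul, B.hLW, mul_smul_comm, smul_mul_assoc, L_UB]
  refine Fin.lastCases ?_ (fun i => ?_) i
  · refine Fin.lastCases ?_ (fun j => ?_) j
    · rfl
    · change XB B α β 3 * _ = _ * XB B α β 3
      rw [XB_cast, XB_last]
      exact (h3 j).symm
  · refine Fin.lastCases ?_ (fun j => ?_) j
    · change _ * XB B α β 3 = XB B α β 3 * _
      rw [XB_cast, XB_last]
      exact h3 i
    · rw [XB_cast, XB_cast]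
      exact B.hLL i j

/-- The vectors of the new basis. -/
def vB (c : Fin 8) : M := chartC.monoEl (XB B α β) c B.e

theorem vB_0 : vB B α β 0 = B.e := by
  change (XB B α β 0 ^ 0 * XB B α β 1 ^ 0 * XB B α β 2 ^ 0 * XB B α β 3 ^ 0) B.e = B.e
  simp

theorem vB_4 : vB B α β 4 = B.W B.e + (PowerSeries.X : PowerSeries F) • UB B α β B.e := by
  change (XB B α β 0 ^ 0 * XB B α β 1 ^ 0 * XB B α β 2 ^ 0 * XB B α β 3 ^ 1) B.e = _
  rw [pow_zero, pow_zero, pow_zero, pow_one, one_mul, one_mul, one_mul]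
  rfl

theorem vB_1 (j : Fin 3) : vB B α β (up1 j) = B.L j B.e := by
  rw [← XB_cast B α β j]
  fin_cases j
  · change (XB B α β 0 ^ 1 * XB B α β 1 ^ 0 * XB B α β 2 ^ 0 * XB B α β 3 ^ 0) B.e =
      XB B α β 0 B.e
    simp
  · change (XB B α β 0 ^ 0 * XB B α β 1 ^ 1 * XB B α β 2 ^ 0 * XB B α β 3 ^ 0) B.e =
      XB B α β 1 B.e
    simp
  · change (XB B α β 0 ^ 0 * XB B α β 1 ^ 0 * XB B α β 2 ^ 1 * XB B α β 3 ^ 0) B.e =
      XB B α β 2 B.e
    simp

theorem vB_5 (j : Fin 3) : vB B α β (up5 j) = B.L j (B.W B.e) +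
    (PowerSeries.X : PowerSeries F) • B.L j (UB B α β B.e) := by
  have h : vB B α β (up5 j) = XB B α β j.castSucc (XB B α β 3 B.e) := by
    fin_cases j
    · change (XB B α β 0 ^ 1 * XB B α β 1 ^ 0 * XB B α β 2 ^ 0 * XB B α β 3 ^ 1) B.e =
        XB B α β 0 (XB B α β 3 B.e)
      simp
    · change (XB B α β 0 ^ 0 * XB B α β 1 ^ 1 * XB B α β 2 ^ 0 * XB B α β 3 ^ 1) B.e =
        XB B α β 1 (XB B α β 3 B.e)
      simp
    · change (XB B α β 0 ^ 0 * XB B α β 1 ^ 0 * XB B α β 2 ^ 1 * XB B α β 3 ^ 1) B.e =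
        XB B α β 2 (XB B α β 3 B.e)
      simp
  rw [h, XB_cast, XB_last, LinearMap.add_apply, LinearMap.smul_apply, map_add, map_smul]

theorem vB_basis : ∃ b : Module.Basis (Fin 8) (PowerSeries F) M, ∀ c, b c = vB B α β c := by
  apply basis_near B.b0
  have h1 : ∀ j : Fin 3, ∃ m : M, vB B α β (up1 j) = B.b0 (up1 j) +
      (PowerSeries.X : PowerSeries F) • m := fun j => ⟨0, by rw [vB_1, B.hb1, smul_zero, add_zero]⟩
  have h5 : ∀ j : Fin 3, ∃ m : M, vB B α β (up5 j) = B.b0 (up5 j) +
      (PowerSeries.X : PowerSeries F) • m := fun j => ⟨_, by rw [vB_5, B.hb5]⟩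
  intro c
  fin_cases c
  · exact ⟨0, by
      change vB B α β 0 = B.b0 0 + _
      rw [vB_0, B.hb0, smul_zero, add_zero]⟩
  · exact h1 0
  · exact h1 1
  · exact h1 2
  · exact ⟨UB B α β B.e, by
      change vB B α β 4 = B.b0 4 + _
      rw [vB_4, B.hb4]⟩
  · exact h5 0
  · exact h5 1
  · exact h5 2

/-- The first family. -/
def fam1 : FamData F M where
  b := (vB_basis B α β).choose
  X := XB B α β
  e := B.e
  δ := B.δ
  τ := B.τ
  β := fun j => B.τ * α j
  γ := fun j => B.τ * β j
  c := B.c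
  t := B.t
  hX := XB_comm B α β
  hb := (vB_basis B α β).choose_spec
  h6 := by
    have hb := (vB_basis B α β).choose_spec
    revert hb
    generalize (vB_basis B α β).choose = b
    intro hb
    have h2' : (2 : PowerSeries F) = 0 := by
      have h := congrArg (PowerSeries.C (R := F)) B.h2
      rw [map_zero] at h
      rw [← h]
      exact (map_ofNat (PowerSeries.C (R := F)) 2).symm
    have hM : ∀ m : M, m + m = 0 := by
      intro m
      rw [← two_smul (PowerSeries F) m, h2', zero_smul]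
    have hneg : ∀ m : M, -m = m := by
      intro m
      rw [neg_eq_iff_add_eq_zero]
      exact hM m
    have e1 : XB B α β 3 (XB B α β 3 B.e) = PowerSeries.C B.δ • B.e + PowerSeries.C B.τ • B.W B.e +
        (PowerSeries.X : PowerSeries F) ^ 2 • UB B α β (UB B α β B.e) := by
      have hW : B.W (UB B α β B.e) = UB B α β (B.W B.e) :=
        congrArg (fun f : Module.End (PowerSeries F) M => f B.e) (W_UB B α β)
      have hWW : B.W (B.W B.e) = PowerSeries.C B.δ • B.e + PowerSeries.C B.τ • B.W B.e :=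
        congrArg (fun f : Module.End (PowerSeries F) M => f B.e) B.hWW
      rw [XB_last]
      simp only [LinearMap.add_apply, LinearMap.smul_apply, map_add, map_smul, smul_smul, smul_add]
      rw [hW, hWW, ← pow_two]
      have h3 := hM ((PowerSeries.X : PowerSeries F) • UB B α β (B.W B.e))
      generalize (PowerSeries.X : PowerSeries F) • UB B α β (B.W B.e) = u at h3
      have h4 : PowerSeries.C B.δ • B.e + PowerSeries.C B.τ • B.W B.e + u +
          (u + (PowerSeries.X : PowerSeries F) ^ 2 • UB B α β (UB B α β B.e)) =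
          PowerSeries.C B.δ • B.e + PowerSeries.C B.τ • B.W B.e +
          (PowerSeries.X : PowerSeries F) ^ 2 • UB B α β (UB B α β B.e) + (u + u) := by abel
      rw [h4, h3, add_zero]
    have e2 : B.W B.e = b 4 + (PowerSeries.X : PowerSeries F) • UB B α β B.e := by
      rw [hb, vB_4, add_assoc, hM, add_zero]
    have e3 : ∀ j, B.L j (B.W B.e) = b (up5 j) +
        (PowerSeries.X : PowerSeries F) • B.L j (UB B α β B.e) := by
      intro j
      rw [hb, vB_5, add_assoc, hM, add_zero]
    have e4 : ∀ j, B.L j B.e = b (up1 j) := by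
      intro j
      rw [hb, vB_1]
    have e0 : B.e = b 0 := by rw [hb, vB_0]
    have e5 : UB B α β B.e = ∑ r : Fin 3, (PowerSeries.C (α r) • b (up1 r) +
        PowerSeries.C (β r) • b (up5 r)) + (PowerSeries.X : PowerSeries F) •
        ∑ r : Fin 3, PowerSeries.C (β r) • B.L r (UB B α β B.e) := by
      conv_lhs => unfold UB
      rw [LinearMap.sum_apply, Finset.smul_sum, ← Finset.sum_add_distrib]
      apply Finset.sum_congr rfl
      intro r _
      rw [LinearMap.add_apply, LinearMap.smul_apply, LinearMap.smul_apply, Module.End.mul_apply,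
        e3, e4, smul_add, add_assoc, smul_comm (PowerSeries.C (β r)) (PowerSeries.X : PowerSeries F)]
    refine ⟨0, 0, UB B α β (UB B α β B.e) + PowerSeries.C B.τ • ∑ r : Fin 3,
      PowerSeries.C (β r) • B.L r (UB B α β B.e), ?_⟩
    rw [e1]
    conv_lhs => rw [e2]
    conv_lhs => rw [e0]
    rw [← e0]
    have e6 : PowerSeries.C B.τ • (b 4 + (PowerSeries.X : PowerSeries F) • UB B α β B.e) =
        PowerSeries.C B.τ • b 4 + (PowerSeries.X : PowerSeries F) • ∑ r : Fin 3,
          (PowerSeries.C (B.τ * α r) • b (up1 r) + PowerSeries.C (B.τ * β r) • b (up5 r)) +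
        (PowerSeries.X : PowerSeries F) ^ 2 • PowerSeries.C B.τ • ∑ r : Fin 3,
          PowerSeries.C (β r) • B.L r (UB B α β B.e) := by
      conv_lhs => rw [e5]
      simp only [smul_add, map_mul, Finset.smul_sum, smul_smul, pow_two, add_assoc]
      congr 1
      rw [← Finset.sum_add_distrib, ← Finset.sum_add_distrib]
      apply Finset.sum_congr rfl
      intro r _
      congr 2
      · ring_nf
      · ring_nf
      · ring_nf
    rw [e6, zero_smul, zero_smul, add_zero, zero_add, smul_add]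
    abel
  hp := by
    have hb := (vB_basis B α β).choose_spec
    revert hb
    generalize (vB_basis B α β).choose = b
    intro hb i j
    obtain ⟨μ, ν, h⟩ := B.hprod i j
    have e2 : B.W B.e = b 4 - (PowerSeries.X : PowerSeries F) • UB B α β B.e := by
      rw [hb, vB_4, add_sub_cancel_right]
    have e3 : ∀ j, B.L j (B.W B.e) = b (up5 j) -
        (PowerSeries.X : PowerSeries F) • B.L j (UB B α β B.e) := by
      intro j
      rw [hb, vB_5, add_sub_cancel_right]
    have e4 : ∀ j, B.L j B.e = b (up1 j) := by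
      intro j
      rw [hb, vB_1]
    have e0 : B.e = b 0 := by rw [hb, vB_0]
    refine ⟨μ, ν, -(ν • UB B α β B.e + ∑ r : Fin 3, PowerSeries.C (B.t (sy i j) r) •
      B.L r (UB B α β B.e)), ?_⟩
    rw [XB_cast, XB_cast, h]
    simp only [e3, e4]
    rw [e2, ← e0]
    simp only [smul_sub, smul_neg, smul_add, Fin.sum_univ_three,
      smul_comm (PowerSeries.X : PowerSeries F)]
    abel

end Abs

section Conc

variable {F : Type*} [CommRing F] (δ τ : F)

/-- Base change of the quadratic algebra. -/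
def qmap : QuadraticAlgebra F δ τ →+*
    QuadraticAlgebra (PowerSeries F) (PowerSeries.C δ) (PowerSeries.C τ) where
  toFun z := ⟨PowerSeries.C z.re, PowerSeries.C z.im⟩
  map_one' := by
    ext1
    · exact map_one _
    · exact map_zero _
  map_mul' z w := by
    ext1
    · simp only [QuadraticAlgebra.re_mul, map_add, map_mul]
    · simp only [QuadraticAlgebra.im_mul, map_add, map_mul]
  map_zero' := by
    ext1
    · exact map_zero _
    · exact map_zero _
  map_add' z w := by
    ext1
    · exact map_add _ _ _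
    · exact map_add _ _ _

/-- The quadratic algebra over power series. -/
abbrev QO : Type _ := QuadraticAlgebra (PowerSeries F) (PowerSeries.C δ) (PowerSeries.C τ)

/-- The module. -/
abbrev M1 : Type _ := Fin 4 → QO δ τ

/-- Matrices act. -/
def LM (P : Matrix (Fin 4) (Fin 4) (QO δ τ)) : Module.End (PowerSeries F) (M1 δ τ) :=
  (Matrix.mulVecLin P).restrictScalars (PowerSeries F)

theorem LM_apply (P : Matrix (Fin 4) (Fin 4) (QO δ τ)) (m : M1 δ τ) : LM δ τ P m = P.mulVec m := rfl

theorem LM_mul (P Q : Matrix (Fin 4) (Fin 4) (QO δ τ)) :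
    LM δ τ P * LM δ τ Q = LM δ τ (P * Q) := by
  apply LinearMap.ext
  intro m
  rw [Module.End.mul_apply, LM_apply, LM_apply, LM_apply, Matrix.mulVec_mulVec]

/-- Multiplication by the quadratic element. -/
def WM : Module.End (PowerSeries F) (M1 δ τ) where
  toFun m := (⟨0, 1⟩ : QO δ τ) • m
  map_add' m n := smul_add _ _ _
  map_smul' a m := smul_comm _ _ _

theorem WM_apply (m : M1 δ τ) : WM δ τ m = (⟨0, 1⟩ : QO δ τ) • m := rfl

/-- The coordinates. -/
def eqv1 : M1 δ τ ≃ₗ[PowerSeries F] (Fin 8 → PowerSeries F) where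
  toFun m := ![(m 0).re, (m 1).re, (m 2).re, (m 3).re, (m 0).im, (m 1).im, (m 2).im, (m 3).im]
  map_add' _ _ := by
    funext c
    fin_cases c <;> rfl
  map_smul' _ _ := by
    funext c
    fin_cases c <;> rfl
  invFun r := ![⟨r 0, r 4⟩, ⟨r 1, r 5⟩, ⟨r 2, r 6⟩, ⟨r 3, r 7⟩]
  left_inv m := by
    funext r
    fin_cases r <;> rfl
  right_inv r := by
    funext c
    fin_cases c <;> rfl

/-- The standard basis. -/
def bs1 : Module.Basis (Fin 8) (PowerSeries F) (M1 δ τ) := Module.Basis.ofEquivFun (eqv1 δ τ)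

theorem bs1_apply (i : Fin 8) : bs1 δ τ i = (fun r : Fin 8 → PowerSeries F =>
    (![⟨r 0, r 4⟩, ⟨r 1, r 5⟩, ⟨r 2, r 6⟩, ⟨r 3, r 7⟩] : M1 δ τ)) (Pi.single i 1) := by
  unfold bs1
  rw [Module.Basis.coe_ofEquivFun]
  rfl

theorem bs1_0 : bs1 δ τ 0 = Pi.single 0 1 := by
  rw [bs1_apply]
  funext r
  fin_cases r
  · rfl
  · rfl
  · rfl
  · rfl

theorem bs1_1 (j : Fin 3) : bs1 δ τ (up1 j) = Pi.single j.succ 1 := by
  rw [bs1_apply]
  funext r
  fin_cases j <;> fin_cases r <;> rfl

theorem bs1_4 : bs1 δ τ 4 = WM δ τ (Pi.single 0 1) := by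
  rw [bs1_apply, WM_apply]
  funext r
  rw [Pi.smul_apply, smul_eq_mul]
  fin_cases r
  · exact (mul_one _).symm
  · exact (mul_zero _).symm
  · exact (mul_zero _).symm
  · exact (mul_zero _).symm

theorem bs1_5 (j : Fin 3) : bs1 δ τ (up5 j) = WM δ τ (Pi.single j.succ 1) := by
  rw [bs1_apply, WM_apply]
  funext r
  rw [Pi.smul_apply, smul_eq_mul]
  fin_cases j <;> fin_cases r <;> first | exact (mul_one _).symm | exact (mul_zero _).symm

theorem WM_LM (P : Matrix (Fin 4) (Fin 4) (QO δ τ)) :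
    LM δ τ P * WM δ τ = WM δ τ * LM δ τ P := by
  apply LinearMap.ext
  intro m
  rw [Module.End.mul_apply, Module.End.mul_apply, LM_apply, LM_apply, WM_apply, WM_apply,
    Matrix.mulVec_smul]

theorem WM_WM : WM δ τ * WM δ τ = PowerSeries.C δ • 1 + PowerSeries.C τ • WM δ τ := by
  apply LinearMap.ext
  intro m
  rw [Module.End.mul_apply, LinearMap.add_apply, LinearMap.smul_apply, LinearMap.smul_apply,
    Module.End.one_apply, WM_apply, WM_apply]
  funext r
  simp only [Pi.smul_apply, Pi.add_apply, smul_eq_mul]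
  ext1
  · simp only [QuadraticAlgebra.re_mul, QuadraticAlgebra.im_mul, QuadraticAlgebra.re_add,
      QuadraticAlgebra.re_smul, smul_eq_mul]
    ring
  · simp only [QuadraticAlgebra.re_mul, QuadraticAlgebra.im_mul, QuadraticAlgebra.im_add,
      QuadraticAlgebra.im_smul, smul_eq_mul]
    ring

variable (h2 : (2 : F) = 0) (x y : ℕ → F)
  (hR : ∀ I, PlF (fun p => (⟨x p, y p⟩ : QuadraticAlgebra F δ τ)) I = 0)

/-- The coordinates over power series. -/
def lO (p : ℕ) : QO δ τ := qmap δ τ ⟨x p, y p⟩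

theorem lO_Pl (hR : ∀ I, PlF (fun p => (⟨x p, y p⟩ : QuadraticAlgebra F δ τ)) I = 0)
    (I : Fin 15) : PlF (lO δ τ x y) I = 0 := by
  have key : ∀ a b c d e f : ℕ, lO δ τ x y a * lO δ τ x y b + lO δ τ x y c * lO δ τ x y d +
      lO δ τ x y e * lO δ τ x y f = qmap δ τ
        ((⟨x a, y a⟩ : QuadraticAlgebra F δ τ) * ⟨x b, y b⟩ + ⟨x c, y c⟩ * ⟨x d, y d⟩ +
          ⟨x e, y e⟩ * ⟨x f, y f⟩) := by
    intro a b c d e f
    rw [map_add, map_add, map_mul, map_mul, map_mul]
    rfl
  have h : PlF (lO δ τ x y) I = qmap δ τ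
      (PlF (fun p => (⟨x p, y p⟩ : QuadraticAlgebra F δ τ)) I) := by
    fin_cases I <;> exact key _ _ _ _ _ _
  rw [h, hR, map_zero]

/-- The matrices of the first family. -/
def LL (i : Fin 3) : Matrix (Fin 4) (Fin 4) (QO δ τ) :=
  LG (cF (lO δ τ x y)) (c0G (cF (lO δ τ x y))) i

theorem LL_single (i : Fin 3) : (LL δ τ x y i).mulVec (Pi.single 0 1) = Pi.single i.succ 1 := by
  rw [Matrix.mulVec_single_one]
  funext r
  change krF r i = _
  unfold krF
  rw [Pi.single_apply]

theorem cF_lO (s : Fin 6) (r : Fin 3) : cF (lO δ τ x y) s r =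
    (⟨PowerSeries.C (cF x s r), PowerSeries.C (cF y s r)⟩ : QO δ τ) := by
  have key : ∀ a b : ℕ, lO δ τ x y a + lO δ τ x y b =
      (⟨PowerSeries.C (x a + x b), PowerSeries.C (y a + y b)⟩ : QO δ τ) := by
    intro a b
    ext1
    · exact (map_add _ _ _).symm
    · exact (map_add _ _ _).symm
  fin_cases s <;> fin_cases r <;> first | rfl | exact key _ _

/-- The data of the first family. -/
def base1 : Base F (M1 δ τ) where
  h2 := h2
  L := fun i => LM δ τ (LL δ τ x y i)
  W := WM δ τ
  e := Pi.single 0 1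
  b0 := bs1 δ τ
  δ := δ
  τ := τ
  c := cF x
  t := cF y
  hLL := by
    intro i j
    rw [LM_mul, LM_mul]
    congr 1
    refine comm_of_pl (qa_two _ _ ?_) _ (lO_Pl δ τ x y hR) i j
    have h := congrArg (PowerSeries.C (R := F)) h2
    rw [map_zero] at h
    rw [← h]
    exact (map_ofNat (PowerSeries.C (R := F)) 2).symm
  hLW := fun i => WM_LM δ τ _
  hWW := WM_WM δ τ
  hb0 := bs1_0 δ τ
  hb1 := fun j => by rw [bs1_1, LM_apply, LL_single]
  hb4 := bs1_4 δ τ
  hb5 := fun j => by
    have h := congrArg (fun f : Module.End (PowerSeries F) (M1 δ τ) => f (Pi.single 0 1))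
      (WM_LM δ τ (LL δ τ x y j))
    rw [bs1_5]
    refine Eq.trans ?_ h.symm
    change _ = WM δ τ (LM δ τ (LL δ τ x y j) (Pi.single 0 1))
    rw [LM_apply, LL_single]
  hprod := by
    intro i j
    refine ⟨(c0G (cF (lO δ τ x y)) (sy i j)).re, (c0G (cF (lO δ τ x y)) (sy i j)).im, ?_⟩
    have h1 : ∀ r : Fin 3, LM δ τ (LL δ τ x y r) (WM δ τ (Pi.single 0 1)) =
        WM δ τ (Pi.single r.succ 1) := by
      intro r
      have h := congrArg (fun f : Module.End (PowerSeries F) (M1 δ τ) => f (Pi.single 0 1))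
        (WM_LM δ τ (LL δ τ x y r))
      refine h.trans ?_
      change WM δ τ (LM δ τ (LL δ τ x y r) (Pi.single 0 1)) = _
      rw [LM_apply, LL_single]
    have h3 : ∀ r : Fin 3, LM δ τ (LL δ τ x y r) (Pi.single 0 1) = Pi.single r.succ 1 := by
      intro r
      rw [LM_apply, LL_single]
    simp only [h1, h3]
    rw [LM_apply, Matrix.mulVec_single_one]
    have h4 : ∀ (r : Fin 4) (a b : PowerSeries F), a • (Pi.single r 1 : M1 δ τ) +
        b • WM δ τ (Pi.single r 1) = Pi.single r ⟨a, b⟩ := by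
      intro r a b
      rw [WM_apply]
      funext s
      simp only [Pi.add_apply, Pi.smul_apply, Pi.single_apply, smul_eq_mul]
      split_ifs
      · ext1
        · simp
          exact mul_one a
        · simp
          exact mul_zero a
      · simp
    rw [h4]
    simp only [h4]
    funext r
    simp only [Fin.sum_univ_three, Pi.add_apply, Matrix.col_apply]
    refine Fin.cases ?_ (fun r => ?_) r
    · change c0G (cF (lO δ τ x y)) (sy i j) = _
      rw [Pi.single_eq_same, Pi.single_eq_of_ne (Fin.succ_ne_zero 0).symm,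
        Pi.single_eq_of_ne (Fin.succ_ne_zero 1).symm, Pi.single_eq_of_ne (Fin.succ_ne_zero 2).symm,
        add_zero, add_zero, add_zero]
    · have h5 : LL δ τ x y i r.succ j.succ = cF (lO δ τ x y) (sy i j) r := by
        fin_cases r <;> rfl
      rw [h5, cF_lO, Pi.single_eq_of_ne (Fin.succ_ne_zero r), zero_add]
      fin_cases r
      · simp
      · simp
      · simp

end Conc

end

end Pool.Agent.Helper90.Hilb8C
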