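import Pool.Agent.Helper90.Hilb8C.Fam

/-!
# The second family
-/

set_option linter.unusedSimpArgs false

namespace Pool.Agent.Helper90.Hilb8C

open Pool.Agent.Helper97.Hilb8 Pool.Agent.Helper97.Hilb8.TopAux Pool.Agent.Helper28.Hilb8

noncomputable section

/-- The module `1, g, z, h`. -/
abbrev M2 (O : Type*) := O × (Fin 3 → O) × O × (Fin 3 → O)

/-- Kronecker symbol. -/
def kd {O : Type*} [CommRing O] (i r : Fin 3) : O := if r = i then 1 else 0

section Alg

variable {O : Type*} [CommRing O] (φ : Fin 6 → Fin 3 → O) (A : Fin 3 → O) (s ε : O) (c : Fin 3 → O)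

/-- Multiplication by `g_i`. -/
def gE (i : Fin 3) : Module.End O (M2 O) where
  toFun m := (0, fun r => m.1 * kd i r, 0, fun r =>
    m.2.2.1 * kd i r + (m.2.1 0 * φ (sy i 0) r + m.2.1 1 * φ (sy i 1) r +
      m.2.1 2 * φ (sy i 2) r))
  map_add' m n := by
    refine Prod.ext ?_ (Prod.ext ?_ (Prod.ext ?_ ?_))
    · simp
    · funext r
      simp only [Prod.fst_add, Prod.snd_add, Pi.add_apply]
      ring
    · simp
    · funext r
      simp only [Prod.fst_add, Prod.snd_add, Pi.add_apply]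
      ring
  map_smul' a m := by
    refine Prod.ext ?_ (Prod.ext ?_ (Prod.ext ?_ ?_))
    · simp
    · funext r
      simp only [Prod.smul_fst, Prod.smul_snd, Pi.smul_apply, smul_eq_mul, RingHom.id_apply]
      ring
    · simp
    · funext r
      simp only [Prod.smul_fst, Prod.smul_snd, Pi.smul_apply, smul_eq_mul, RingHom.id_apply]
      ring

/-- Multiplication by `z`. -/
def zE : Module.End O (M2 O) where
  toFun m := (0, fun _ => 0, m.1, fun r => m.2.1 r + ε * m.2.2.1 * c r)
  map_add' m n := by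
    refine Prod.ext ?_ (Prod.ext ?_ (Prod.ext ?_ ?_))
    · simp
    · funext r
      simp
    · rfl
    · funext r
      simp only [Prod.fst_add, Prod.snd_add, Pi.add_apply]
      ring
  map_smul' a m := by
    refine Prod.ext ?_ (Prod.ext ?_ (Prod.ext ?_ ?_))
    · simp
    · funext r
      simp
    · rfl
    · funext r
      simp only [Prod.smul_fst, Prod.smul_snd, Pi.smul_apply, smul_eq_mul, RingHom.id_apply]
      ring

theorem gE_apply (i : Fin 3) (m : M2 O) : gE φ i m =
    (0, fun r => m.1 * kd i r, 0, fun r =>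
    m.2.2.1 * kd i r + (m.2.1 0 * φ (sy i 0) r + m.2.1 1 * φ (sy i 1) r +
      m.2.1 2 * φ (sy i 2) r)) := rfl

theorem zE_apply (m : M2 O) : zE ε c m =
    (0, fun _ => 0, m.1, fun r => m.2.1 r + ε * m.2.2.1 * c r) := rfl

theorem kd_ne (i r : Fin 3) (h : r ≠ i) : (kd i r : O) = 0 := if_neg h

theorem kd_eq (i : Fin 3) : (kd i i : O) = 1 := if_pos rfl

theorem kd01 : (kd 0 1 : O) = 0 := kd_ne _ _ (by decide)
theorem kd02 : (kd 0 2 : O) = 0 := kd_ne _ _ (by decide)
theorem kd10 : (kd 1 0 : O) = 0 := kd_ne _ _ (by decide)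
theorem kd12 : (kd 1 2 : O) = 0 := kd_ne _ _ (by decide)
theorem kd20 : (kd 2 0 : O) = 0 := kd_ne _ _ (by decide)
theorem kd21 : (kd 2 1 : O) = 0 := kd_ne _ _ (by decide)

theorem gE_gE (i j : Fin 3) (m : M2 O) : gE φ i (gE φ j m) =
    (0, fun _ => 0, 0, fun r => m.1 * φ (sy i j) r) := by
  rw [gE_apply, gE_apply]
  refine Prod.ext rfl (Prod.ext ?_ (Prod.ext rfl ?_))
  · funext r
    simp
  · funext r
    fin_cases j <;> simp [kd_eq, kd01, kd02, kd10, kd12, kd20, kd21]

theorem gE_comm (i j : Fin 3) : gE φ i * gE φ j = gE φ j * gE φ i := by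
  apply LinearMap.ext
  intro m
  rw [Module.End.mul_apply, Module.End.mul_apply, gE_gE, gE_gE, sy_comm]

theorem gE_zE (i : Fin 3) : gE φ i * zE ε c = zE ε c * gE φ i := by
  apply LinearMap.ext
  intro m
  rw [Module.End.mul_apply, Module.End.mul_apply, gE_apply, zE_apply, zE_apply, gE_apply]
  refine Prod.ext rfl (Prod.ext ?_ (Prod.ext rfl ?_))
  · funext r
    simp
  · funext r
    simp

theorem comm_shift {R : Type*} [CommRing R] {N : Type*} [AddCommGroup N] [Module R N]
    (P Q : Module.End R N) (a b : R) (h : P * Q = Q * P) :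
    (P + a • (1 : Module.End R N)) * (Q + b • (1 : Module.End R N)) =
      (Q + b • (1 : Module.End R N)) * (P + a • (1 : Module.End R N)) := by
  simp only [mul_add, add_mul, h, smul_mul_assoc, mul_smul_comm, one_mul, mul_one, smul_add]
  rw [smul_comm a b]
  abel

/-- The four multiplications. -/
def XE : Fin 4 → Module.End O (M2 O) :=
  ![gE φ 0 + A 0 • 1, gE φ 1 + A 1 • 1, gE φ 2 + A 2 • 1, zE ε c + s • 1]

theorem XE_cast (i : Fin 3) : XE φ A s ε c i.castSucc = gE φ i + A i • 1 := by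
  fin_cases i <;> rfl

theorem XE_last : XE φ A s ε c 3 = zE ε c + s • 1 := rfl

theorem XE_comm (i j : Fin 4) : XE φ A s ε c i * XE φ A s ε c j =
    XE φ A s ε c j * XE φ A s ε c i := by
  refine Fin.lastCases ?_ (fun i => ?_) i
  · refine Fin.lastCases ?_ (fun j => ?_) j
    · rfl
    · change XE φ A s ε c 3 * _ = _ * XE φ A s ε c 3
      rw [XE_cast, XE_last]
      exact comm_shift _ _ _ _ (gE_zE φ ε c j).symm
  · refine Fin.lastCases ?_ (fun j => ?_) j
    · change _ * XE φ A s ε c 3 = XE φ A s ε c 3 * _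
      rw [XE_cast, XE_last]
      exact comm_shift _ _ _ _ (gE_zE φ ε c i)
    · rw [XE_cast, XE_cast]
      exact comm_shift _ _ _ _ (gE_comm φ i j)

/-- Coordinates. -/
def eqv : M2 O ≃ₗ[O] (Fin 8 → O) where
  toFun m := ![m.1 - (m.2.1 0 * A 0 + m.2.1 1 * A 1 + m.2.1 2 * A 2) - m.2.2.1 * s +
      (m.2.2.2 0 * A 0 + m.2.2.2 1 * A 1 + m.2.2.2 2 * A 2) * s,
    m.2.1 0 - s * m.2.2.2 0, m.2.1 1 - s * m.2.2.2 1, m.2.1 2 - s * m.2.2.2 2,
    m.2.2.1 - (m.2.2.2 0 * A 0 + m.2.2.2 1 * A 1 + m.2.2.2 2 * A 2),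
    m.2.2.2 0, m.2.2.2 1, m.2.2.2 2]
  map_add' m n := by
    funext c
    simp only [Prod.fst_add, Prod.snd_add, Pi.add_apply]
    fin_cases c
    · change _ = (_ + _ : O)
      dsimp
      ring
    · change _ = (_ + _ : O)
      dsimp
      ring
    · change _ = (_ + _ : O)
      dsimp
      ring
    · change _ = (_ + _ : O)
      dsimp
      ring
    · change _ = (_ + _ : O)
      dsimp
      ring
    · rfl
    · rfl
    · rfl
  map_smul' a m := by
    funext c
    simp only [Prod.smul_fst, Prod.smul_snd, Pi.smul_apply, smul_eq_mul, RingHom.id_apply]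
    fin_cases c
    · dsimp
      ring
    · dsimp
      ring
    · dsimp
      ring
    · dsimp
      ring
    · dsimp
      ring
    · rfl
    · rfl
    · rfl
  invFun r := (r 0 + (A 0 * r 1 + A 1 * r 2 + A 2 * r 3) + s * r 4 +
      (A 0 * r 5 + A 1 * r 6 + A 2 * r 7) * s,
    ![r 1 + s * r 5, r 2 + s * r 6, r 3 + s * r 7], r 4 + (A 0 * r 5 + A 1 * r 6 + A 2 * r 7),
    ![r 5, r 6, r 7])
  left_inv m := by
    refine Prod.ext ?_ (Prod.ext ?_ (Prod.ext ?_ ?_))
    · dsimp
      ring
    · funext r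
      fin_cases r
      · dsimp
        ring
      · dsimp
        ring
      · dsimp
        ring
    · dsimp
      ring
    · funext r
      fin_cases r <;> rfl
  right_inv r := by
    funext c
    fin_cases c
    · dsimp
      ring
    · change r 1 + s * r 5 - s * r 5 = r 1
      ring
    · change r 2 + s * r 6 - s * r 6 = r 2
      ring
    · change r 3 + s * r 7 - s * r 7 = r 3
      ring
    · change r 4 + (A 0 * r 5 + A 1 * r 6 + A 2 * r 7) - (r 5 * A 0 + r 6 * A 1 + r 7 * A 2) = r 4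
      ring
    · rfl
    · rfl
    · rfl

/-- The basis. -/
def bE : Module.Basis (Fin 8) O (M2 O) := Module.Basis.ofEquivFun (eqv A s)

/-- The cyclic vector. -/
def eE : M2 O := (1, fun _ => 0, 0, fun _ => 0)

theorem bE_apply (i : Fin 8) : bE A s i = (eqv A s).symm (Pi.single i 1) := by
  unfold bE
  rw [Module.Basis.coe_ofEquivFun]

theorem bE_eq (i : Fin 8) : bE A s i = (fun r : Fin 8 → O =>
    ((r 0 + (A 0 * r 1 + A 1 * r 2 + A 2 * r 3) + s * r 4 +
      (A 0 * r 5 + A 1 * r 6 + A 2 * r 7) * s,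
    ![r 1 + s * r 5, r 2 + s * r 6, r 3 + s * r 7], r 4 + (A 0 * r 5 + A 1 * r 6 + A 2 * r 7),
    ![r 5, r 6, r 7]) : M2 O)) (Pi.single i 1) := bE_apply A s i

theorem bE_0 : bE A s 0 = (eE : M2 O) := by
  rw [bE_eq]
  refine Prod.ext ?_ (Prod.ext ?_ (Prod.ext ?_ ?_))
  · simp [eE]
  · funext r
    fin_cases r <;> simp [eE]
  · simp [eE]
  · funext r
    fin_cases r <;> simp [eE]

theorem bE_4 : bE A s 4 = XE φ A s ε c 3 (eE : M2 O) := by
  rw [bE_eq, XE_last, LinearMap.add_apply, zE_apply]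
  refine Prod.ext ?_ (Prod.ext ?_ (Prod.ext ?_ ?_))
  · simp [eE]
  · funext r
    fin_cases r <;> simp [eE]
  · simp [eE]
  · funext r
    fin_cases r <;> simp [eE]

theorem bE_1 (j : Fin 3) : bE A s (up1 j) = XE φ A s ε c j.castSucc (eE : M2 O) := by
  rw [bE_eq, XE_cast, LinearMap.add_apply, gE_apply]
  refine Prod.ext ?_ (Prod.ext ?_ (Prod.ext ?_ ?_))
  · fin_cases j <;> simp [eE, up1, kd_eq, kd01, kd02, kd10, kd12, kd20, kd21]
  · funext r
    fin_cases j <;> fin_cases r <;> simp [eE, up1, kd_eq, kd01, kd02, kd10, kd12, kd20, kd21]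
  · fin_cases j <;> simp [eE, up1, kd_eq, kd01, kd02, kd10, kd12, kd20, kd21]
  · funext r
    fin_cases j <;> fin_cases r <;> simp [eE, up1, kd_eq, kd01, kd02, kd10, kd12, kd20, kd21]

theorem bE_5 (j : Fin 3) : bE A s (up5 j) =
    XE φ A s ε c j.castSucc (XE φ A s ε c 3 (eE : M2 O)) := by
  rw [← bE_4 φ A s ε c, bE_eq, bE_eq, XE_cast, LinearMap.add_apply, gE_apply]
  refine Prod.ext ?_ (Prod.ext ?_ (Prod.ext ?_ ?_))
  · fin_cases j <;> simp [up5, kd_eq, kd01, kd02, kd10, kd12, kd20, kd21, Matrix.vecHead, Matrix.vecTail]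
  · funext r
    fin_cases j <;> fin_cases r <;> simp [up5, kd_eq, kd01, kd02, kd10, kd12, kd20, kd21, Matrix.vecHead, Matrix.vecTail]
  · fin_cases j <;> simp [up5, kd_eq, kd01, kd02, kd10, kd12, kd20, kd21, Matrix.vecHead, Matrix.vecTail]
  · funext r
    fin_cases j <;> fin_cases r <;> simp [up5, kd_eq, kd01, kd02, kd10, kd12, kd20, kd21, Matrix.vecHead, Matrix.vecTail]

theorem vE_0 : bE A s 0 = ((1, fun _ => 0, 0, fun _ => 0) : M2 O) := bE_0 A s

theorem vE_4 : bE A s 4 = ((s, fun _ => 0, 1, fun _ => 0) : M2 O) := by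
  rw [bE_eq]
  refine Prod.ext ?_ (Prod.ext ?_ (Prod.ext ?_ ?_))
  · simp
  · funext r
    fin_cases r <;> simp
  · simp
  · funext r
    fin_cases r <;> simp

theorem vE_1 (j : Fin 3) : bE A s (up1 j) =
    ((A j, fun r => kd j r, 0, fun _ => 0) : M2 O) := by
  rw [bE_eq]
  refine Prod.ext ?_ (Prod.ext ?_ (Prod.ext ?_ ?_))
  · fin_cases j <;> simp [up1]
  · funext r
    fin_cases j <;> fin_cases r <;> simp [up1, kd_eq, kd01, kd02, kd10, kd12, kd20, kd21]
  · fin_cases j <;> simp [up1]
  · funext r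
    fin_cases j <;> fin_cases r <;> simp [up1, kd_eq, kd01, kd02, kd10, kd12, kd20, kd21]

theorem vE_5 (j : Fin 3) : bE A s (up5 j) =
    ((A j * s, fun r => s * kd j r, A j, fun r => kd j r) : M2 O) := by
  rw [bE_eq]
  refine Prod.ext ?_ (Prod.ext ?_ (Prod.ext ?_ ?_))
  · fin_cases j <;> simp [up5]
  · funext r
    fin_cases j <;> fin_cases r <;> simp [up5, kd_eq, kd01, kd02, kd10, kd12, kd20, kd21]
  · fin_cases j <;> simp [up5]
  · funext r
    fin_cases j <;> fin_cases r <;> simp [up5, kd_eq, kd01, kd02, kd10, kd12, kd20, kd21]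

/-- Linear combinations of the basis. -/
theorem comb_E (μ ν : O) (β γ : Fin 3 → O) :
    μ • bE A s 0 + ν • bE A s 4 + ∑ j : Fin 3, (β j • bE A s (up1 j) + γ j • bE A s (up5 j)) =
    ((μ + ν * s + (β 0 * A 0 + β 1 * A 1 + β 2 * A 2) + (γ 0 * A 0 + γ 1 * A 1 + γ 2 * A 2) * s,
      fun r => β r + s * γ r, ν + (γ 0 * A 0 + γ 1 * A 1 + γ 2 * A 2), fun r => γ r) : M2 O) := by
  simp only [vE_0, vE_4, vE_1, vE_5, Fin.sum_univ_three]
  refine Prod.ext ?_ (Prod.ext ?_ (Prod.ext ?_ ?_))
  · simp only [Prod.fst_add, Prod.smul_fst, smul_eq_mul]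
    ring
  · funext r
    simp only [Prod.fst_add, Prod.snd_add, Prod.smul_fst, Prod.smul_snd, smul_eq_mul, Pi.add_apply,
      Pi.smul_apply]
    fin_cases r
    · simp only [Fin.zero_eta, Fin.isValue, kd_eq, kd10, kd20]
      ring
    · simp only [Fin.mk_one, Fin.isValue, kd_eq, kd01, kd21]
      ring
    · simp only [Fin.reduceFinMk, Fin.isValue, kd_eq, kd02, kd12]
      ring
  · simp only [Prod.fst_add, Prod.snd_add, Prod.smul_fst, Prod.smul_snd, smul_eq_mul]
    ring
  · funext r
    simp only [Prod.snd_add, Prod.smul_snd, smul_eq_mul, Pi.add_apply, Pi.smul_apply]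
    fin_cases r
    · simp only [Fin.zero_eta, Fin.isValue, kd_eq, kd10, kd20]
      ring
    · simp only [Fin.mk_one, Fin.isValue, kd_eq, kd01, kd21]
      ring
    · simp only [Fin.reduceFinMk, Fin.isValue, kd_eq, kd02, kd12]
      ring

theorem XX_e (i j : Fin 3) : XE φ A s ε c i.castSucc (XE φ A s ε c j.castSucc (eE : M2 O)) =
    ((A i * A j, fun r => A j * kd i r + A i * kd j r, 0, fun r => φ (sy i j) r) : M2 O) := by
  rw [XE_cast, XE_cast, LinearMap.add_apply, LinearMap.add_apply, map_add, gE_gE,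
    LinearMap.smul_apply, LinearMap.smul_apply, Module.End.one_apply, Module.End.one_apply,
    map_smul, gE_apply, gE_apply]
  refine Prod.ext ?_ (Prod.ext ?_ (Prod.ext ?_ ?_))
  · simp [eE]
  · funext r
    simp only [eE, Prod.fst_add, Prod.snd_add, Prod.smul_fst, Prod.smul_snd, smul_eq_mul,
      Pi.add_apply, Pi.smul_apply]
    ring
  · simp [eE]
  · funext r
    simp only [eE, Prod.fst_add, Prod.snd_add, Prod.smul_fst, Prod.smul_snd, smul_eq_mul,
      Pi.add_apply, Pi.smul_apply]
    ring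

theorem ZZ_e : XE φ A s ε c 3 (XE φ A s ε c 3 (eE : M2 O)) =
    ((s * s, fun _ => 0, s + s, fun r => ε * c r) : M2 O) := by
  rw [XE_last, LinearMap.add_apply, LinearMap.add_apply,
    LinearMap.smul_apply, LinearMap.smul_apply, Module.End.one_apply, Module.End.one_apply,
    map_add, map_smul, zE_apply, zE_apply]
  refine Prod.ext ?_ (Prod.ext ?_ (Prod.ext ?_ ?_))
  · simp [eE]
  · funext r
    simp [eE]
  · simp [eE]
  · funext r
    simp [eE]

end Alg

theorem cF_add {R : Type*} [CommRing R] (l l' : ℕ → R) (s : Fin 6) (r : Fin 3) :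
    cF (fun p => l p + l' p) s r = cF l s r + cF l' s r := by
  have key : ∀ a b c d : R, a + b + (c + d) = a + c + (b + d) := by
    intro a b c d
    ring
  fin_cases s <;> fin_cases r <;> first | rfl | exact key _ _ _ _

theorem cF_mul {R : Type*} [CommRing R] (x : R) (l : ℕ → R) (s : Fin 6) (r : Fin 3) :
    cF (fun p => x * l p) s r = x * cF l s r := by
  fin_cases s <;> fin_cases r <;> first | rfl | exact (mul_add _ _ _).symm

theorem cF_trans {R : Type*} [CommRing R] (h2 : (2 : R) = 0) (l : ℕ → R) (h : ∀ p < 15, l p = 0)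
    (i j r : Fin 3) : cF l (sy i j) r = l (15 + j) * kd i r + l (15 + i) * kd j r := by
  have e : ∀ x : R, x + x = 0 := fun x => by linear_combination x * h2
  have h0 := h 0 (by norm_num)
  have h1 := h 1 (by norm_num)
  have h2 := h 2 (by norm_num)
  have h3 := h 3 (by norm_num)
  have h4 := h 4 (by norm_num)
  have h5 := h 5 (by norm_num)
  have h6 := h 6 (by norm_num)
  have h7 := h 7 (by norm_num)
  have h8 := h 8 (by norm_num)
  have h9 := h 9 (by norm_num)
  have h10 := h 10 (by norm_num)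
  have h11 := h 11 (by norm_num)
  have h12 := h 12 (by norm_num)
  have h13 := h 13 (by norm_num)
  have h14 := h 14 (by norm_num)
  fin_cases i <;> fin_cases j <;> fin_cases r <;>
    simp [cF, sy, kd_eq, kd01, kd02, kd10, kd12, kd20, kd21, h0, h1, h2, h3, h4, h5, h6, h7, h8,
      h9, h10, h11, h12, h13, h14, e]

section Fam2

variable {F : Type*} [CommRing F] (h2 : (2 : F) = 0) (yl : ℕ → F) (xa : Fin 3 → F) (s : F)
  (cc : Fin 3 → F)

/-- The real coordinates of the second family. -/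
def xl (p : ℕ) : F := if p < 15 then s * yl p else if h : p < 18 then xa ⟨p - 15, by omega⟩ else 0

/-- The translation of the second family. -/
def At (j : Fin 3) : F := xa j + s * yl (15 + j)

theorem cF_xl (h2 : (2 : F) = 0) (i j r : Fin 3) : cF (xl yl xa s) (sy i j) r +
    s * cF yl (sy i j) r = At yl xa s j * kd i r + At yl xa s i * kd j r := by
  rw [← cF_mul, ← cF_add]
  rw [cF_trans h2]
  · congr 2
    · unfold xl At
      rw [if_neg (by omega), dif_pos (by omega)]
      congr 2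
      simp
    · unfold xl At
      rw [if_neg (by omega), dif_pos (by omega)]
      congr 2
      simp
  · intro p hp
    unfold xl
    rw [if_pos hp]
    linear_combination s * yl p * h2

/-- The second family. -/
def fam2 : FamData F (M2 (PowerSeries F)) where
  b := bE (fun j => PowerSeries.C (At yl xa s j)) (PowerSeries.C s)
  X := XE (fun v r => PowerSeries.C (cF yl v r)) (fun j => PowerSeries.C (At yl xa s j))
    (PowerSeries.C s) PowerSeries.X (fun r => PowerSeries.C (cc r))
  e := eE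
  δ := s * s
  τ := 0
  β := fun j => s * cc j
  γ := cc
  c := cF (xl yl xa s)
  t := cF yl
  hX := XE_comm _ _ _ _ _
  hb := by
    intro v
    have h0 := bE_0 (fun j => PowerSeries.C (At yl xa s j)) (PowerSeries.C s)
    have h1 := bE_1 (fun v r => PowerSeries.C (cF yl v r)) (fun j => PowerSeries.C (At yl xa s j))
      (PowerSeries.C s) PowerSeries.X (fun r => PowerSeries.C (cc r))
    have h4 := bE_4 (fun v r => PowerSeries.C (cF yl v r)) (fun j => PowerSeries.C (At yl xa s j))
      (PowerSeries.C s) PowerSeries.X (fun r => PowerSeries.C (cc r))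
    have h5 := bE_5 (fun v r => PowerSeries.C (cF yl v r)) (fun j => PowerSeries.C (At yl xa s j))
      (PowerSeries.C s) PowerSeries.X (fun r => PowerSeries.C (cc r))
    revert h1 h4 h5
    generalize XE (fun v r => PowerSeries.C (cF yl v r)) (fun j => PowerSeries.C (At yl xa s j))
      (PowerSeries.C s) PowerSeries.X (fun r => PowerSeries.C (cc r)) = X
    intro h1 h4 h5
    fin_cases v
    · refine h0.trans ?_
      change _ = (X 0 ^ 0 * X 1 ^ 0 * X 2 ^ 0 * X 3 ^ 0) eE
      simp
    · refine (h1 0).trans ?_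
      change X 0 _ = (X 0 ^ 1 * X 1 ^ 0 * X 2 ^ 0 * X 3 ^ 0) eE
      simp
    · refine (h1 1).trans ?_
      change X 1 _ = (X 0 ^ 0 * X 1 ^ 1 * X 2 ^ 0 * X 3 ^ 0) eE
      simp
    · refine (h1 2).trans ?_
      change X 2 _ = (X 0 ^ 0 * X 1 ^ 0 * X 2 ^ 1 * X 3 ^ 0) eE
      simp
    · refine h4.trans ?_
      change X 3 _ = (X 0 ^ 0 * X 1 ^ 0 * X 2 ^ 0 * X 3 ^ 1) eE
      simp
    · refine (h5 0).trans ?_
      change X 0 _ = (X 0 ^ 1 * X 1 ^ 0 * X 2 ^ 0 * X 3 ^ 1) eE
      simp
    · refine (h5 1).trans ?_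
      change X 1 _ = (X 0 ^ 0 * X 1 ^ 1 * X 2 ^ 0 * X 3 ^ 1) eE
      simp
    · refine (h5 2).trans ?_
      change X 2 _ = (X 0 ^ 0 * X 1 ^ 0 * X 2 ^ 1 * X 3 ^ 1) eE
      simp
  h6 := by
    have h2' : (2 : PowerSeries F) = 0 := by
      have h := congrArg (PowerSeries.C (R := F)) h2
      rw [map_zero] at h
      rw [← h]
      exact (map_ofNat (PowerSeries.C (R := F)) 2).symm
    refine ⟨-(PowerSeries.C (s * cc 0) * PowerSeries.C (At yl xa s 0) +
      PowerSeries.C (s * cc 1) * PowerSeries.C (At yl xa s 1) +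
      PowerSeries.C (s * cc 2) * PowerSeries.C (At yl xa s 2)),
      -(PowerSeries.C (cc 0) * PowerSeries.C (At yl xa s 0) +
      PowerSeries.C (cc 1) * PowerSeries.C (At yl xa s 1) +
      PowerSeries.C (cc 2) * PowerSeries.C (At yl xa s 2)), 0, ?_⟩
    have hC0 : PowerSeries.C (0 : F) = 0 := map_zero _
    rw [ZZ_e, comb_E, hC0, zero_smul, add_zero, smul_zero, add_zero, vE_0]
    refine Prod.ext ?_ (Prod.ext ?_ (Prod.ext ?_ ?_))
    · simp only [Prod.fst_add, Prod.smul_fst, smul_eq_mul, map_mul]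
      ring
    · funext r
      simp only [Prod.fst_add, Prod.snd_add, Prod.smul_fst, Prod.smul_snd, smul_eq_mul,
        Pi.add_apply, Pi.smul_apply, map_mul]
      linear_combination -(PowerSeries.X * (PowerSeries.C s * PowerSeries.C (cc r))) * h2'
    · simp only [Prod.fst_add, Prod.snd_add, Prod.smul_fst, Prod.smul_snd, smul_eq_mul]
      linear_combination (PowerSeries.C s) * h2'
    · funext r
      simp only [Prod.snd_add, Prod.smul_snd, smul_eq_mul, Pi.add_apply, Pi.smul_apply]
      ring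
  hp := by
    intro i j
    refine ⟨PowerSeries.C (At yl xa s i) * PowerSeries.C (At yl xa s j) -
      (PowerSeries.C (cF (xl yl xa s) (sy i j) 0) * PowerSeries.C (At yl xa s 0) +
      PowerSeries.C (cF (xl yl xa s) (sy i j) 1) * PowerSeries.C (At yl xa s 1) +
      PowerSeries.C (cF (xl yl xa s) (sy i j) 2) * PowerSeries.C (At yl xa s 2)),
      -(PowerSeries.C (cF yl (sy i j) 0) * PowerSeries.C (At yl xa s 0) +
      PowerSeries.C (cF yl (sy i j) 1) * PowerSeries.C (At yl xa s 1) +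
      PowerSeries.C (cF yl (sy i j) 2) * PowerSeries.C (At yl xa s 2)), 0, ?_⟩
    rw [XX_e, comb_E, smul_zero, add_zero]
    refine Prod.ext ?_ (Prod.ext ?_ (Prod.ext ?_ ?_))
    · dsimp only
      ring
    · funext r
      have h := congrArg (PowerSeries.C (R := F)) (cF_xl yl xa s h2 i j r)
      rw [map_add, map_add, map_mul, map_mul, map_mul] at h
      have hk : ∀ i : Fin 3, PowerSeries.C (kd i r : F) = kd i r := by
        intro i
        unfold kd
        split_ifs
        · exact map_one _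
        · exact map_zero _
      rw [hk, hk] at h
      exact h.symm
    · dsimp only
      ring
    · rfl

end Fam2

end

end Pool.Agent.Helper90.Hilb8C
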