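import Pool.Agent.Helper90.Hilb8C.Keys44

/-!
# Groebner bases modulo 2: a checker
-/

set_option maxRecDepth 100000

namespace Pool.Agent.Helper90.Hilb8C

open MvPolynomial Pool.Agent.Helper97.Hilb8 Pool.Agent.Helper97.Hilb8.K Pool.Agent.Helper97.Hilb8.GB

noncomputable section

/-! ### Nonzerodivisors -/

section Nzd

variable {σ : Type*} [DecidableEq σ] {k : Type*} [Field k] {ι : Type*} [Finite ι]
  (κ : σ → ℕ) (α : ι → MvPolynomial σ k) (L : ι → σ →₀ ℕ) (hlead : ∀ i, IsLead κ (α i) (L i))

include hlead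

theorem nzd_lead (hok : ∀ i j, OK κ ∅ α L i j) (f : MvPolynomial σ k) (Lf : σ →₀ ℕ)
    (hf : IsLead κ f Lf) (hcop : ∀ i v, L i v = 0 ∨ Lf v = 0) (p : MvPolynomial σ k)
    (hp : f * p ∈ Ideal.span (Set.range α)) : p ∈ Ideal.span (Set.range α) := by
  classical
  have hE : ∀ u ∈ (∅ : Set σ), κ u = 0 := fun u hu => absurd hu (Set.notMem_empty u)
  obtain ⟨ν, r, hν, h2, h3⟩ := RP_all κ ∅ hE α L hlead p
  have hν0 : ν = 0 := by
    ext v
    exact (unitMon_iff.1 hν) v (Set.notMem_empty v)
  have h1 : monomial ν (1 : k) = 1 := by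
    rw [hν0]
    rfl
  rw [h1, one_mul] at h2
  by_cases hr : r = 0
  · rwa [hr, sub_zero] at h2
  · exfalso
    have hfr : f * r ∈ Ideal.span (Set.range α) := by
      have e1 : f * r = f * p - f * (p - r) := by ring
      rw [e1]
      exact Ideal.sub_mem _ hp (Ideal.mul_mem_left _ _ h2)
    have hne : r.support.Nonempty := by
      rw [Finset.nonempty_iff_ne_empty]
      intro hc
      exact hr (support_eq_empty.1 hc)
    obtain ⟨e, he, hmax⟩ := Finset.exists_max_image r.support (wt κ) hne
    have hwf : ∀ a, coeff a f ≠ 0 → wt κ a ≤ wt κ Lf := by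
      intro a ha
      by_cases hc : a = Lf
      · rw [hc]
      · exact (hf.2 a (mem_support_iff.2 ha) hc).le
    have hmem : Lf + e ∈ (f * r).support := by
      rw [mem_support_iff, coeff_mul, Finset.sum_eq_single (Lf, e)]
      · exact mul_ne_zero hf.1 (mem_support_iff.1 he)
      · rintro ⟨a, b⟩ hab hne'
        rw [Finset.HasAntidiagonal.mem_antidiagonal] at hab
        by_contra hc
        have ha := left_ne_zero_of_mul hc
        have hb := right_ne_zero_of_mul hc
        have h4 := hwf a ha
        have h5 := hmax b (mem_support_iff.2 hb)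
        have h6 := congrArg (wt κ) hab
        simp only [wt_add] at h6
        have h7 : a = Lf := by
          by_contra hc'
          have := hf.2 a (mem_support_iff.2 ha) hc'
          omega
        subst h7
        exact hne' (Prod.ext rfl (add_left_cancel hab))
      · intro h
        exfalso
        apply h
        rw [Finset.HasAntidiagonal.mem_antidiagonal]
    have hmax' : ∀ e' ∈ (f * r).support, wt κ e' ≤ wt κ (Lf + e) := by
      intro e' he'
      rw [mem_support_iff, coeff_mul] at he'
      obtain ⟨⟨a, b⟩, hab, hc⟩ := Finset.exists_ne_zero_of_sum_ne_zero he'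
      rw [Finset.HasAntidiagonal.mem_antidiagonal] at hab
      have h4 := hwf a (left_ne_zero_of_mul hc)
      have h5 := hmax b (mem_support_iff.2 (right_ne_zero_of_mul hc))
      rw [← hab, wt_add, wt_add]
      exact Nat.add_le_add h4 h5
    have hex : ∃ μ : σ →₀ ℕ, UnitMon (∅ : Set σ) μ ∧
        monomial μ (1 : k) * (f * r) ∈ Ideal.span (Set.range α) := by
      refine ⟨0, unit_zero _, ?_⟩
      have h4 : monomial (0 : σ →₀ ℕ) (1 : k) = 1 := rfl
      rw [h4, one_mul]
      exact hfr
    obtain ⟨i, hi⟩ := lead_of_mem κ ∅ hE α L hlead hok (f * r) hex (Lf + e) hmem hmax'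
    refine h3 e (mem_support_iff.1 he) ⟨i, fun v hv => ?_⟩
    have h8 := hi v hv
    rw [Finsupp.add_apply] at h8
    rcases hcop i v with h9 | h9
    · rw [h9]
      exact Nat.zero_le _
    · rw [h9, zero_add] at h8
      exact h8

end Nzd

/-! ### The checker -/

/-- The result of a search. -/
inductive En2 | none | some (k : Nat) (p : Q)

/-- Search for an element whose leading monomial divides the monomial with key `kG - G`. -/
def find2 (G kG : Nat) (T : List (Nat × Q)) : En2 :=
  List.rec En2.none (fun x _ ih => Bool.rec ih (En2.some x.1 x.2)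
    (Nat.beq (Nat.land (Nat.sub kG x.1) G) G)) T

/-- Reduce to zero. -/
def red2 (G : Nat) (T : List (Nat × Q)) (fuel : Nat) : Q → Bool :=
  Nat.rec (motive := fun _ => Q → Bool) (fun acc => nil2 acc)
    (fun _ ih acc => Q.rec (motive := fun _ => Bool) true
      (fun k rest _ => Bool.rec false
        (En2.rec false (fun L tail => ih (addm2 (Nat.sub k L) tail rest))
          (find2 G (Nat.add k G) T)) (Nat.beq (Nat.land k G) 0)) acc) fuel

/-- The monomials have disjoint supports. -/
def disj (F G a b : Nat) : Bool := Nat.beq (Nat.land (Nat.land (Nat.add a F) (Nat.add b F)) G) 0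

/-- The key of the greatest common divisor. -/
def gcdK (T : L) : Nat → Nat → Nat :=
  L.rec (motive := fun _ => Nat → Nat → Nat) (fun _ _ => 0)
    (fun v _ ih a b => Nat.add
      (Nat.mul (Nat.sub (Nat.land a 31) (Nat.sub (Nat.land a 31) (Nat.land b 31))) v)
      (ih (Nat.shiftRight a 5) (Nat.shiftRight b 5))) T

/-- The numbers of the checker. -/
structure Cs where
  n : Nat
  G : Nat
  F : Nat
  G' : Nat

/-- The numbers are correct. -/
def Cs.ok (C : Cs) : Prop :=
  C.G = 2 ^ 31 + 2 ^ 32 * rep 16 C.n ∧ C.F = 2 ^ 32 * rep 15 C.n ∧ C.G' = 2 ^ 32 * rep 16 C.n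

/-- The conditions for a pair with cofactors `mi`, `mj`. -/
def sp2 (C : Cs) (T : List (Nat × Q)) (x y : Nat × Q) (mi mj : Nat) : Bool :=
  Bool.rec false (Bool.rec false (Bool.rec false (Bool.rec false
      (red2 C.G T 100000 (addm2 mi x.2 (addm2 mj y.2 .z)))
    (disj C.F C.G' mi mj)) (Nat.beq (Nat.add x.1 mi) (Nat.add y.1 mj)))
    (Nat.beq (Nat.land mj C.G) 0)) (Nat.beq (Nat.land mi C.G) 0)

/-- The S-pair of `x` and `y` is good. -/
def pair2 (C : Cs) (V : L) (T : List (Nat × Q)) (x y : Nat × Q) : Bool :=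
  Bool.rec ((fun g => sp2 C T x y (Nat.sub y.1 g) (Nat.sub x.1 g))
    (gcdK V (Nat.shiftRight x.1 32) (Nat.shiftRight y.1 32))) true (disj C.F C.G' x.1 y.1)

/-- All elements of a list. -/
def al {α : Type} (f : α → Bool) (l : List α) : Bool :=
  List.rec true (fun a _ ih => Bool.rec false ih (f a)) l

/-- All pairs of a list. -/
def pw {α : Type} (f : α → α → Bool) (l : List α) : Bool :=
  List.rec true (fun a l ih => Bool.rec false ih (al (f a) l)) l

/-- The tail is good. -/
def tailOK (G : Nat) (ws : W) (w : Nat) (p : Q) : Bool :=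
  Q.rec true (fun k _ ih => Bool.rec false
    (Bool.rec false ih (Nat.ble (Nat.succ (wtk ws k)) w)) (Nat.beq (Nat.land k G) 0)) p

/-- An element is good. -/
def elOK (G : Nat) (ws : W) (x : Nat × Q) : Bool :=
  Bool.rec false (tailOK G ws (wtk ws x.1) x.2) (Nat.beq (Nat.land x.1 G) 0)

section Sound

theorem al_iff {α : Type} (f : α → Bool) (l : List α) : al f l = true ↔ ∀ a ∈ l, f a = true := by
  induction l with
  | nil => exact ⟨fun _ a ha => absurd ha List.not_mem_nil, fun _ => rfl⟩
  | cons a l ih =>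
    change (Bool.rec false (al f l) (f a) : Bool) = true ↔ _
    constructor
    · intro h
      obtain ⟨h1, h2⟩ := brec_and (b := f a) (c := al f l) h
      intro b hb
      rcases List.mem_cons.mp hb with rfl | hb
      · exact h1
      · exact ih.mp h2 b hb
    · intro h
      rw [h a List.mem_cons_self]
      exact ih.mpr fun b hb => h b (List.mem_cons_of_mem _ hb)

theorem pw_sound {α : Type} (f : α → α → Bool) (l : List α) (h : pw f l = true) :
    l.Pairwise fun a b => f a b = true := by
  induction l with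
  | nil => exact List.Pairwise.nil
  | cons a l ih =>
    obtain ⟨h1, h2⟩ := brec_and (b := al (f a) l) (c := pw f l) h
    exact List.Pairwise.cons ((al_iff _ _).mp h1) (ih h2)

variable {C : Cs} (hC : C.ok)

include hC

theorem good_C (k : ℕ) : Nat.land k C.G = 0 ↔ Good C.n k := by
  rw [hC.1]
  exact good_iff' C.n k

theorem good_F : Good C.n C.F := by
  have h1 : ∀ v < C.n, dig C.F v = 15 := by
    have h := (low_eq C.n (2 ^ 32 * rep 15 C.n) (2 ^ 32 * rep 15 C.n)).mp rfl
    intro v hv
    rw [hC.2.1]
    have h2 : ∀ t < 5, (dig (2 ^ 32 * rep 15 C.n) v).testBit t = (15 : ℕ).testBit t := by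
      intro t ht
      rw [dig_testBit, mask_testBit' (by norm_num) C.n v t hv ht]
      simp [ht]
    apply Nat.eq_of_testBit_eq
    intro t
    by_cases ht : t < 5
    · exact h2 t ht
    · have h3 : (dig (2 ^ 32 * rep 15 C.n) v).testBit t = false := by
        rw [dig_testBit]
        simp [ht]
      rw [h3]
      have h4 : (15 : ℕ).testBit t = false := by
        apply Nat.testBit_lt_two_pow
        have h6 : 2 ^ 5 ≤ 2 ^ t := Nat.pow_le_pow_right (by norm_num) (by omega)
        have h7 : (2 : ℕ) ^ 5 = 32 := by norm_num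
        omega
      rw [h4]
  refine ⟨?_, fun v hv => by rw [h1 v hv]; norm_num⟩
  rw [hC.2.1, Nat.mul_mod_right]
  norm_num

theorem dig_F (v : ℕ) (hv : v < C.n) : dig C.F v = 15 := by
  rw [hC.2.1]
  apply Nat.eq_of_testBit_eq
  intro t
  by_cases ht : t < 5
  · rw [dig_testBit, mask_testBit' (by norm_num) C.n v t hv ht]
    simp [ht]
  · have h3 : (dig (2 ^ 32 * rep 15 C.n) v).testBit t = false := by
      rw [dig_testBit]
      simp [ht]
    rw [h3]
    have h4 : (15 : ℕ).testBit t = false := by
      apply Nat.testBit_lt_two_pow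
      have h6 : 2 ^ 5 ≤ 2 ^ t := Nat.pow_le_pow_right (by norm_num) (by omega)
      have h7 : (2 : ℕ) ^ 5 = 32 := by norm_num
      omega
    rw [h4]

theorem disj_sound {a b : ℕ} (ha : Good C.n a) (hb : Good C.n b) (h : disj C.F C.G' a b = true)
    (v : Fin C.n) : expo C.n a v = 0 ∨ expo C.n b v = 0 := by
  have h1 : ((a + C.F) &&& (b + C.F)) &&& C.G' = 0 := beq_iff.1 h
  rw [hC.2.2, mask_zero (by norm_num)] at h1
  have h2 := h1 v v.2
  have hF := good_F hC
  rw [dig_and, dig_add ha hF v v.2, dig_add hb hF v v.2, dig_F hC v v.2] at h2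
  rw [expo_apply, expo_apply]
  have h3 := ha.2 v v.2
  have h4 := hb.2 v v.2
  revert h2 h3 h4
  generalize dig a v = x
  generalize dig b v = y
  intro h2 h3 h4
  interval_cases x
  · exact Or.inl rfl
  all_goals
    interval_cases y
    · exact Or.inr rfl
    all_goals exact absurd h2 (by decide)

theorem sub_sound {k l : ℕ} (_ : Good C.n k) (hl : Good C.n l)
    (h : Nat.land (Nat.sub (Nat.add k C.G) l) C.G = C.G) :
    l ≤ k ∧ Good C.n (k - l) ∧ expo C.n k = expo C.n l + expo C.n (k - l) := by
  have h1 : (k + C.G - l) &&& C.G = C.G := h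
  obtain ⟨h2, h3⟩ := guard_sub _ _ h1
  have hpos : 0 < C.G := by rw [hC.1]; positivity
  have h4 : l ≤ k := by omega
  have h5 : k + C.G - l - C.G = k - l := by omega
  rw [h5] at h3
  have h6 : Good C.n (k - l) := (good_C hC _).mp h3
  refine ⟨h4, h6, ?_⟩
  rw [← expo_add hl h6]
  congr 1
  omega

omit hC

variable (k : Type*) [Field k]

/-- The polynomial of an element. -/
def fe (n : ℕ) (x : Nat × Q) : MvPolynomial (Fin n) k := monomial (expo n x.1) 1 + x.2.ev n k

/-- The polynomials of a list. -/
def fa' (n : ℕ) (T : List (Nat × Q)) (i : Fin T.length) : MvPolynomial (Fin n) k :=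
  fe k n (T.get i)

/-- The leading exponents of a list. -/
def fL (n : ℕ) (T : List (Nat × Q)) (i : Fin T.length) : Fin n →₀ ℕ := expo n (T.get i).1

/-- The weights. -/
def kw (n : ℕ) (ws : W) (v : Fin n) : ℕ := ws.get v

theorem kw_eq {n : ℕ} {ws : W} (hw : posOK n ws 0 = true) (m : ℕ) :
    wtk ws m = wt (kw n ws) (expo n m) := wtk_eq ws hw m

/-- The conditions for an element. -/
def El (n : ℕ) (ws : W) (x : Nat × Q) : Prop := Good n x.1 ∧
  x.2.All fun m => Good n m ∧ wt (kw n ws) (expo n m) < wt (kw n ws) (expo n x.1)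

include hC in
theorem el_sound {ws : W} (hw : posOK C.n ws 0 = true) (x : Nat × Q)
    (h : elOK C.G ws x = true) : El C.n ws x := by
  obtain ⟨h1, h3⟩ := brec_and (b := Nat.beq (Nat.land x.1 C.G) 0)
    (c := tailOK C.G ws (wtk ws x.1) x.2) h
  refine ⟨(good_C hC _).mp (beq_iff.1 h1), ?_⟩
  rw [← kw_eq hw]
  generalize wtk ws x.1 = w at h3
  revert h3
  generalize x.2 = p
  intro h3
  induction p with
  | z => trivial
  | t m r ih =>
    obtain ⟨h4, h5⟩ := brec_and (b := Nat.beq (Nat.land m C.G) 0)
      (c := Bool.rec (motive := fun _ => Bool) false (tailOK C.G ws w r)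
        (Nat.ble (Nat.succ (wtk ws m)) w)) h3
    obtain ⟨h6, h7⟩ := brec_and (b := Nat.ble (Nat.succ (wtk ws m)) w) (c := tailOK C.G ws w r) h5
    refine ⟨⟨(good_C hC _).mp (beq_iff.1 h4), ?_⟩, ih h7⟩
    rw [← kw_eq hw]
    exact ble_iff.1 h6

theorem coeff_ev {n : ℕ} (ws : W) (w : ℕ) (p : Q)
    (hp : p.All fun m => wt (kw n ws) (expo n m) < w) (e : Fin n →₀ ℕ)
    (he : coeff e (p.ev n k) ≠ 0) : wt (kw n ws) e < w := by
  induction p with
  | z => exact absurd (coeff_zero _) he
  | t m r ih =>
    rw [qev_t, coeff_add] at he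
    by_cases h1 : coeff e (r.ev n k) = 0
    · rw [h1, add_zero, coeff_monomial] at he
      split_ifs at he with h2
      · rw [← h2]
        exact hp.1
      · exact absurd rfl he
    · exact ih hp.2 h1

theorem coeff_lead {n : ℕ} (ws : W) (x : Nat × Q) (hx : El n ws x) :
    coeff (expo n x.1) (fe k n x) = 1 := by
  unfold fe
  rw [coeff_add, coeff_monomial, if_pos rfl]
  have h1 : coeff (expo n x.1) (x.2.ev n k) = 0 := by
    by_contra h
    exact lt_irrefl _ (coeff_ev k ws _ x.2 (qAll_mono hx.2 fun t ht => ht.2) _ h)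
  rw [h1, add_zero]

theorem lead_el {n : ℕ} (ws : W) (x : Nat × Q) (hx : El n ws x) :
    IsLead (kw n ws) (fe k n x) (expo n x.1) := by
  refine ⟨?_, ?_⟩
  · rw [coeff_lead k ws x hx]
    exact one_ne_zero
  · intro e he hne
    rw [mem_support_iff, fe, coeff_add, coeff_monomial, if_neg (fun h => hne h.symm),
      zero_add] at he
    exact coeff_ev k ws _ x.2 (qAll_mono hx.2 fun t ht => ht.2) e he

theorem find2_sound (G kG : ℕ) (T : List (Nat × Q)) (m : ℕ) (p : Q)
    (h : find2 G kG T = En2.some m p) :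
    ∃ x ∈ T, x.1 = m ∧ x.2 = p ∧ Nat.land (Nat.sub kG x.1) G = G := by
  induction T with
  | nil => exact absurd h (by change ¬ En2.none = _; simp)
  | cons x T ih =>
    have h1 : find2 G kG (x :: T) = Bool.rec (motive := fun _ => En2) (find2 G kG T)
      (En2.some x.1 x.2) (Nat.beq (Nat.land (Nat.sub kG x.1) G) G) := rfl
    rw [h1] at h
    cases hb : Nat.beq (Nat.land (Nat.sub kG x.1) G) G with
    | false =>
      rw [hb] at h
      obtain ⟨y, hy, hy'⟩ := ih h
      exact ⟨y, List.mem_cons_of_mem _ hy, hy'⟩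
    | true =>
      rw [hb] at h
      have h2 : En2.some x.1 x.2 = En2.some m p := h
      injection h2 with h3 h4
      exact ⟨x, List.mem_cons_self, h3, h4, beq_iff.1 hb⟩

include hC in
theorem red2_sound (h2 : (2 : k) = 0) (ws : W) (T : List (Nat × Q))
    (hT : ∀ x ∈ T, El C.n ws x) (d : ℕ) (fuel : ℕ) :
    ∀ acc : Q, acc.All (fun m => wt (kw C.n ws) (expo C.n m) < d) →
      red2 C.G T fuel acc = true → acc.ev C.n k ∈ SP (kw C.n ws) (fa' k C.n T) (fL C.n T) d := by
  induction fuel with
  | zero =>
    intro acc _ h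
    have h1 : acc.ev C.n k = 0 := ev_of_nil2 h
    rw [h1]
    exact Submodule.zero_mem _
  | succ fuel ih =>
    intro acc hacc h
    cases acc with
    | z => exact Submodule.zero_mem _
    | t m rest =>
      obtain ⟨h3, h4⟩ := brec_and (b := Nat.beq (Nat.land m C.G) 0)
        (c := En2.rec (motive := fun _ => Bool) false
          (fun L tail => red2 C.G T fuel (addm2 (Nat.sub m L) tail rest))
          (find2 C.G (Nat.add m C.G) T)) h
      have hm : Good C.n m := (good_C hC _).mp (beq_iff.1 h3)
      cases hf : find2 C.G (Nat.add m C.G) T with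
      | none =>
        rw [hf] at h4
        exact absurd h4 (by simp)
      | some l tail =>
        rw [hf] at h4
        have h5 : red2 C.G T fuel (addm2 (m - l) tail rest) = true := h4
        obtain ⟨x, hx, rfl, rfl, ht⟩ := find2_sound _ _ _ _ _ hf
        obtain ⟨hl, htl⟩ := hT x hx
        obtain ⟨h6, h7, h8⟩ := sub_sound hC hm hl ht
        have hw : wt (kw C.n ws) (expo C.n m) = wt (kw C.n ws) (expo C.n x.1) +
            wt (kw C.n ws) (expo C.n (m - x.1)) := by
          rw [h8, wt_add]
        have hmd : wt (kw C.n ws) (expo C.n m) < d := hacc.1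
        have h9 := ih (addm2 (m - x.1) x.2 rest) (all_addm2 (qAll_mono htl fun t ht => by
          rw [expo_add ht.1 h7, wt_add]
          have := ht.2
          omega) hacc.2) h5
        rw [ev_addm2 h2 h7 (qAll_mono htl fun t ht => ht.1)] at h9
        obtain ⟨i, hi⟩ := List.get_of_mem hx
        have h10 : monomial (expo C.n (m - x.1)) (1 : k) * fa' k C.n T i ∈
            SP (kw C.n ws) (fa' k C.n T) (fL C.n T) d := by
          apply gen_mem_SP
          unfold fL
          rw [hi]
          omega
        have h11 : fa' k C.n T i = monomial (expo C.n x.1) 1 + x.2.ev C.n k := by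
          unfold fa' fe
          rw [hi]
        rw [h11, mul_add, monomial_mul, one_mul, add_comm (expo C.n (m - x.1)), ← h8] at h10
        have h12 : (Q.t m rest).ev C.n k = (monomial (expo C.n m) (1 : k) +
            monomial (expo C.n (m - x.1)) (1 : k) * x.2.ev C.n k) +
            (rest.ev C.n k + monomial (expo C.n (m - x.1)) (1 : k) * x.2.ev C.n k) := by
          rw [qev_t]
          have := add_self_two h2 (monomial (expo C.n (m - x.1)) (1 : k) * x.2.ev C.n k)
          linear_combination -this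
        rw [h12]
        exact Submodule.add_mem _ h10 h9

include hC in
theorem pair2_sound (h2 : (2 : k) = 0) (ws : W) (V : L) (T : List (Nat × Q))
    (hT : ∀ x ∈ T, El C.n ws x) (i j : Fin T.length)
    (h : pair2 C V T (T.get i) (T.get j) = true) :
    OK (kw C.n ws) ∅ (fa' k C.n T) (fL C.n T) i j := by
  have hE : ∀ u ∈ (∅ : Set (Fin C.n)), kw C.n ws u = 0 := fun u hu =>
    absurd hu (Set.notMem_empty u)
  have hi := hT _ (List.get_mem T i)
  have hj := hT _ (List.get_mem T j)
  have hlead : ∀ i, IsLead (kw C.n ws) (fa' k C.n T i) (fL C.n T i) := fun i =>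
    lead_el k ws _ (hT _ (List.get_mem T i))
  cases hd : disj C.F C.G' (T.get i).1 (T.get j).1 with
  | true =>
    exact ok_coprime (kw C.n ws) ∅ hE _ _ hlead fun v _ => disj_sound hC hi.1 hj.1 hd v
  | false =>
    have h3 : pair2 C V T (T.get i) (T.get j) = (fun g => sp2 C T (T.get i) (T.get j)
        (Nat.sub (T.get j).1 g) (Nat.sub (T.get i).1 g))
        (gcdK V (Nat.shiftRight (T.get i).1 32) (Nat.shiftRight (T.get j).1 32)) := by
      unfold pair2
      rw [hd]
    rw [h3] at h
    simp only at h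
    revert h
    generalize Nat.sub (T.get j).1 (gcdK V (Nat.shiftRight (T.get i).1 32)
      (Nat.shiftRight (T.get j).1 32)) = mi
    generalize Nat.sub (T.get i).1 (gcdK V (Nat.shiftRight (T.get i).1 32)
      (Nat.shiftRight (T.get j).1 32)) = mj
    intro h
    obtain ⟨a1, h⟩ := brec_and (b := Nat.beq (Nat.land mi C.G) 0) (c := _) h
    obtain ⟨a2, h⟩ := brec_and (b := Nat.beq (Nat.land mj C.G) 0) (c := _) h
    obtain ⟨a3, h⟩ := brec_and (b := Nat.beq (Nat.add (T.get i).1 mi) (Nat.add (T.get j).1 mj))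
      (c := _) h
    obtain ⟨a4, h⟩ := brec_and (b := disj C.F C.G' mi mj) (c := _) h
    have gi : Good C.n mi := (good_C hC _).mp (beq_iff.1 a1)
    have gj : Good C.n mj := (good_C hC _).mp (beq_iff.1 a2)
    have hs : (T.get i).1 + mi = (T.get j).1 + mj := beq_iff.1 a3
    have e1 := expo_add hi.1 gi
    have e2 := expo_add hj.1 gj
    rw [hs] at e1
    have e3 : expo C.n (T.get i).1 + expo C.n mi = expo C.n (T.get j).1 + expo C.n mj := by
      rw [← e1, ← e2]
    have hsup : expo C.n (T.get i).1 ⊔ expo C.n (T.get j).1 =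
        expo C.n (T.get i).1 + expo C.n mi := by
      ext v
      have h5 := congrArg (fun f : Fin C.n →₀ ℕ => f v) e3
      simp only [Finsupp.add_apply] at h5
      rw [Finsupp.sup_apply, Finsupp.add_apply]
      rcases disj_sound hC gi gj a4 v with h6 | h6 <;> omega
    have c1 : fL C.n T i ⊔ fL C.n T j - fL C.n T i = expo C.n mi := by
      unfold fL
      rw [hsup, add_tsub_cancel_left]
    have c2 : fL C.n T i ⊔ fL C.n T j - fL C.n T j = expo C.n mj := by
      unfold fL
      rw [hsup, e3, add_tsub_cancel_left]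
    have c3 : spair (fa' k C.n T) (fL C.n T) i j =
        (addm2 mi (T.get i).2 (addm2 mj (T.get j).2 .z)).ev C.n k := by
      unfold spair
      have l1 : coeff (fL C.n T j) (fa' k C.n T j) = 1 := coeff_lead k ws _ hj
      have l2 : coeff (fL C.n T i) (fa' k C.n T i) = 1 := coeff_lead k ws _ hi
      rw [l1, l2, c1, c2, ev_addm2 h2 gi (qAll_mono hi.2 fun t ht => ht.1),
        ev_addm2 h2 gj (qAll_mono hj.2 fun t ht => ht.1), qev_z, zero_add]
      unfold fa' fe
      rw [mul_add, mul_add, monomial_mul, monomial_mul, one_mul, add_comm (expo C.n mi),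
        add_comm (expo C.n mj), e3]
      have := add_self_two h2 (monomial (expo C.n mj) (1 : k) * (T.get j).2.ev C.n k)
      linear_combination -this
    unfold OK
    rw [c3]
    apply wd_of_SP
    apply red2_sound hC k h2 ws T hT _ _ _ _ h
    have hwi : wt (kw C.n ws) (fL C.n T i ⊔ fL C.n T j) =
        wt (kw C.n ws) (expo C.n (T.get i).1) + wt (kw C.n ws) (expo C.n mi) := by
      unfold fL
      rw [hsup, wt_add]
    have hwj : wt (kw C.n ws) (fL C.n T i ⊔ fL C.n T j) =
        wt (kw C.n ws) (expo C.n (T.get j).1) + wt (kw C.n ws) (expo C.n mj) := by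
      unfold fL
      rw [hsup, e3, wt_add]
    apply all_addm2
    · refine qAll_mono hi.2 fun t ht => ?_
      rw [expo_add ht.1 gi, wt_add, hwi]
      have := ht.2
      omega
    · apply all_addm2
      · refine qAll_mono hj.2 fun t ht => ?_
        rw [expo_add ht.1 gj, wt_add, hwj]
        have := ht.2
        omega
      · trivial

include hC in
/-- The main theorem of the checker. -/
theorem gb2_sound (h2 : (2 : k) = 0) (ws : W) (V : L) (T : List (Nat × Q))
    (hT : ∀ x ∈ T, El C.n ws x) (h : pw (pair2 C V T) T = true) (i j : Fin T.length) :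
    OK (kw C.n ws) ∅ (fa' k C.n T) (fL C.n T) i j := by
  have h1 := List.pairwise_iff_get.mp (pw_sound _ _ h)
  rcases lt_trichotomy i j with hij | hij | hij
  · exact pair2_sound hC k h2 ws V T hT i j (h1 i j hij)
  · rw [hij]
    exact ok_refl _ _ _ _ _
  · exact ok_symm _ _ _ _ (pair2_sound hC k h2 ws V T hT j i (h1 j i hij))

end Sound

end

end Pool.Agent.Helper90.Hilb8C
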