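import Pool.Agent.Helper90.Hilb8C.GBT

/-!
# The pairs of the Groebner basis modulo 2
-/

set_option maxRecDepth 100000

namespace Pool.Agent.Helper90.Hilb8C

open Pool.Agent.Helper97.Hilb8.K

theorem T49_pw : pw (pair2 C44 vkT T49) T49 = true := by decide +kernel

end Pool.Agent.Helper90.Hilb8C
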