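import Pool.Agent.Helper90.Hilb8C.Quad

/-!
# Trace identities
-/

namespace Pool.Agent.Helper90.Hilb8C

open Matrix

noncomputable section

section Tr

variable {R : Type*} [CommRing R] {n : Type*} [Fintype n] [DecidableEq n]

theorem tr_cyc (A B D : Matrix n n R) : trace (A * (B * D)) = trace (D * (A * B)) := by
  rw [← mul_assoc, trace_mul_cycle, mul_assoc]

variable (τ : R) (S T : Fin 3 → Matrix n n R)
  (h : ∀ i j, T i * S j + S i * T j + τ • (T i * T j) = T j * S i + S j * T i + τ • (T j * T i))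

include h

theorem trA (i j l : Fin 3) : trace (S j * (T l * T i - T i * T l)) +
    trace (S i * (T j * T l - T l * T j)) + τ * trace (T l * (T i * T j - T j * T i)) = 0 := by
  have h1 := congrArg (fun M => trace (T l * M)) (h i j)
  simp only [mul_add, mul_smul_comm, trace_add, trace_smul, smul_eq_mul] at h1
  simp only [mul_sub, trace_sub]
  have e1 : trace (T l * (T i * S j)) = trace (S j * (T l * T i)) := tr_cyc _ _ _
  have e2 : trace (T l * (S i * T j)) = trace (S i * (T j * T l)) := by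
    rw [tr_cyc, tr_cyc]
  have e3 : trace (T l * (T j * S i)) = trace (S i * (T l * T j)) := tr_cyc _ _ _
  have e4 : trace (T l * (S j * T i)) = trace (S j * (T i * T l)) := by
    rw [tr_cyc, tr_cyc]
  rw [e1, e2, e3, e4] at h1
  linear_combination h1

omit h in
theorem tr_alt (i j : Fin 3) : trace (T i * (T i * T j - T j * T i)) = 0 := by
  rw [mul_sub, trace_sub, tr_cyc (T i) (T j) (T i), sub_self]

omit h in
theorem tr_alt' (i j : Fin 3) : trace (T j * (T i * T j - T j * T i)) = 0 := by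
  rw [mul_sub, trace_sub, tr_cyc (T j) (T i) (T j), sub_self]

theorem trB (i j : Fin 3) : trace (S i * (T i * T j - T j * T i)) = 0 := by
  have h1 := trA τ S T h i j i
  rw [tr_alt, sub_self, mul_zero, trace_zero, mul_zero, add_zero, zero_add] at h1
  have h2 : T i * T j - T j * T i = -(T j * T i - T i * T j) := by abel
  rw [h2, mul_neg, trace_neg, h1, neg_zero]

theorem trB' (i j : Fin 3) : trace (S j * (T i * T j - T j * T i)) = 0 := by
  have h1 := trB τ S T h j i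
  have h2 : T i * T j - T j * T i = -(T j * T i - T i * T j) := by abel
  rw [h2, mul_neg, trace_neg, h1, neg_zero]

omit h in
theorem tr_f (i j l : Fin 3) : trace (T i * (T j * T l - T l * T j)) =
    trace (T j * (T l * T i - T i * T l)) := by
  rw [mul_sub, mul_sub, trace_sub, trace_sub, tr_cyc (T j) (T l) (T i), tr_cyc (T i) (T l) (T j)]

variable (h2 : (2 : R) = 0)

include h2

theorem tr_g : trace (S 0 * (T 1 * T 2 - T 2 * T 1)) = trace (S 1 * (T 2 * T 0 - T 0 * T 2)) ∧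
    trace (S 2 * (T 0 * T 1 - T 1 * T 0)) = trace (S 1 * (T 2 * T 0 - T 0 * T 2)) ∧
    τ * trace (T 0 * (T 1 * T 2 - T 2 * T 1)) = 0 := by
  have a1 := trA τ S T h 0 1 2
  have a2 := trA τ S T h 1 2 0
  have a3 := trA τ S T h 2 0 1
  have f1 : trace (T 2 * (T 0 * T 1 - T 1 * T 0)) = trace (T 0 * (T 1 * T 2 - T 2 * T 1)) :=
    tr_f T 2 0 1
  have f2 : trace (T 1 * (T 2 * T 0 - T 0 * T 2)) = trace (T 0 * (T 1 * T 2 - T 2 * T 1)) := by
    rw [tr_f T 1 2 0, f1]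
  rw [f1] at a1
  rw [f2] at a3
  refine ⟨?_, ?_, ?_⟩
  · linear_combination a3 - a2
  · linear_combination a3 - a1
  · linear_combination a1 + a2 - a3 - trace (S 1 * (T 2 * T 0 - T 0 * T 2)) * h2

theorem tr_q1 (b c : Fin 3 → R) (δ : R) :
    (trace ((∑ j, b j • S j + δ • ∑ j, c j • T j) * (T 1 * T 2 - T 2 * T 1)) =
      b 0 * trace (S 1 * (T 2 * T 0 - T 0 * T 2)) +
        δ * (c 0 * trace (T 0 * (T 1 * T 2 - T 2 * T 1)))) ∧
    (trace ((∑ j, b j • S j + δ • ∑ j, c j • T j) * (T 2 * T 0 - T 0 * T 2)) =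
      b 1 * trace (S 1 * (T 2 * T 0 - T 0 * T 2)) +
        δ * (c 1 * trace (T 0 * (T 1 * T 2 - T 2 * T 1)))) ∧
    (trace ((∑ j, b j • S j + δ • ∑ j, c j • T j) * (T 0 * T 1 - T 1 * T 0)) =
      b 2 * trace (S 1 * (T 2 * T 0 - T 0 * T 2)) +
        δ * (c 2 * trace (T 0 * (T 1 * T 2 - T 2 * T 1)))) := by
  obtain ⟨g0, g2, -⟩ := tr_g τ S T h h2
  have f1 : trace (T 2 * (T 0 * T 1 - T 1 * T 0)) = trace (T 0 * (T 1 * T 2 - T 2 * T 1)) :=
    tr_f T 2 0 1
  have f2 : trace (T 1 * (T 2 * T 0 - T 0 * T 2)) = trace (T 0 * (T 1 * T 2 - T 2 * T 1)) := by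
    rw [tr_f T 1 2 0, f1]
  have exp : ∀ M : Matrix n n R, trace ((∑ j, b j • S j + δ • ∑ j, c j • T j) * M) =
      (b 0 * trace (S 0 * M) + b 1 * trace (S 1 * M) + b 2 * trace (S 2 * M)) +
      δ * (c 0 * trace (T 0 * M) + c 1 * trace (T 1 * M) + c 2 * trace (T 2 * M)) := by
    intro M
    rw [Fin.sum_univ_three, Fin.sum_univ_three]
    simp only [add_mul, smul_mul_assoc, trace_add, trace_smul, smul_eq_mul, smul_add]
    ring
  refine ⟨?_, ?_, ?_⟩
  · rw [exp, g0, trB τ S T h 1 2, trB' τ S T h 1 2, tr_alt T 1 2, tr_alt' T 1 2]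
    ring
  · rw [exp, trB' τ S T h 2 0, trB τ S T h 2 0, tr_alt T 2 0, tr_alt' T 2 0, f2]
    ring
  · rw [exp, trB τ S T h 0 1, trB' τ S T h 0 1, g2, tr_alt T 0 1, tr_alt' T 0 1, f1]
    ring

theorem tr_q2 (b c : Fin 3 → R) :
    (trace ((∑ j, b j • T j + ∑ j, c j • S j + τ • ∑ j, c j • T j) * (T 1 * T 2 - T 2 * T 1)) =
      b 0 * trace (T 0 * (T 1 * T 2 - T 2 * T 1)) +
        c 0 * trace (S 1 * (T 2 * T 0 - T 0 * T 2))) ∧
    (trace ((∑ j, b j • T j + ∑ j, c j • S j + τ • ∑ j, c j • T j) * (T 2 * T 0 - T 0 * T 2)) =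
      b 1 * trace (T 0 * (T 1 * T 2 - T 2 * T 1)) +
        c 1 * trace (S 1 * (T 2 * T 0 - T 0 * T 2))) ∧
    (trace ((∑ j, b j • T j + ∑ j, c j • S j + τ • ∑ j, c j • T j) * (T 0 * T 1 - T 1 * T 0)) =
      b 2 * trace (T 0 * (T 1 * T 2 - T 2 * T 1)) +
        c 2 * trace (S 1 * (T 2 * T 0 - T 0 * T 2))) := by
  obtain ⟨g0, g2, gt⟩ := tr_g τ S T h h2
  have f1 : trace (T 2 * (T 0 * T 1 - T 1 * T 0)) = trace (T 0 * (T 1 * T 2 - T 2 * T 1)) :=
    tr_f T 2 0 1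
  have f2 : trace (T 1 * (T 2 * T 0 - T 0 * T 2)) = trace (T 0 * (T 1 * T 2 - T 2 * T 1)) := by
    rw [tr_f T 1 2 0, f1]
  have exp : ∀ M : Matrix n n R,
      trace ((∑ j, b j • T j + ∑ j, c j • S j + τ • ∑ j, c j • T j) * M) =
      (b 0 * trace (T 0 * M) + b 1 * trace (T 1 * M) + b 2 * trace (T 2 * M)) +
      (c 0 * trace (S 0 * M) + c 1 * trace (S 1 * M) + c 2 * trace (S 2 * M)) +
      τ * (c 0 * trace (T 0 * M) + c 1 * trace (T 1 * M) + c 2 * trace (T 2 * M)) := by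
    intro M
    rw [Fin.sum_univ_three, Fin.sum_univ_three, Fin.sum_univ_three]
    simp only [add_mul, smul_mul_assoc, trace_add, trace_smul, smul_eq_mul, smul_add]
    ring
  refine ⟨?_, ?_, ?_⟩
  · rw [exp, g0, trB τ S T h 1 2, trB' τ S T h 1 2, tr_alt T 1 2, tr_alt' T 1 2]
    linear_combination c 0 * gt
  · rw [exp, trB' τ S T h 2 0, trB τ S T h 2 0, tr_alt T 2 0, tr_alt' T 2 0, f2]
    linear_combination c 1 * gt
  · rw [exp, trB τ S T h 0 1, trB' τ S T h 0 1, g2, tr_alt T 0 1, tr_alt' T 0 1, f1]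
    linear_combination c 2 * gt

end Tr

section Explicit

variable {R : Type*} [CommRing R]

theorem TG_c0 (c : Fin 6 → Fin 3 → R) (z : Fin 6 → R) (i : Fin 3) (r : Fin 4) :
    TG c z i r 0 = 0 := rfl

theorem tr_TTT (c : Fin 6 → Fin 3 → R) (z : Fin 6 → R) (a b d : Fin 3) :
    trace (TG c z a * (TG c z b * TG c z d)) = trU c a b d := by
  have e : ∀ i k l : Fin 3, TG c z i k.succ l.succ = c (sy i l) k := by
    intro i k l
    fin_cases k <;> rfl
  have e11 : ∀ i, TG c z i 1 1 = c (sy i 0) 0 := fun i => rfl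
  have e12 : ∀ i, TG c z i 1 2 = c (sy i 1) 0 := fun i => rfl
  have e13 : ∀ i, TG c z i 1 3 = c (sy i 2) 0 := fun i => rfl
  have e21 : ∀ i, TG c z i 2 1 = c (sy i 0) 1 := fun i => rfl
  have e22 : ∀ i, TG c z i 2 2 = c (sy i 1) 1 := fun i => rfl
  have e23 : ∀ i, TG c z i 2 3 = c (sy i 2) 1 := fun i => rfl
  have e31 : ∀ i, TG c z i 3 1 = c (sy i 0) 2 := fun i => rfl
  have e32 : ∀ i, TG c z i 3 2 = c (sy i 1) 2 := fun i => rfl
  have e33 : ∀ i, TG c z i 3 3 = c (sy i 2) 2 := fun i => rfl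
  simp only [Matrix.trace, Matrix.diag, Matrix.mul_apply, Fin.sum_univ_four, TG_c0, e11, e12, e13,
    e21, e22, e23, e31, e32, e33, trU, sum3]
  ring

/-- Expansion of a trace. -/
def gX (c t : Fin 6 → Fin 3 → R) (z : Fin 6 → R) (a b : Fin 3) : R :=
  (sum3 fun u => z (sy a u) * t (sy b 1) u) +
  sum3 fun p => sum3 fun q => c (sy 1 q) p * (sum3 fun u => t (sy a u) q * t (sy b p) u)

theorem tr_STT (c t : Fin 6 → Fin 3 → R) (z z' : Fin 6 → R) (a b : Fin 3) :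
    trace (LG c z' 1 * (TG t z a * TG t z b)) = gX c t z a b := by
  have e01 : ∀ i, TG t z i 0 1 = z (sy i 0) := fun i => rfl
  have e02 : ∀ i, TG t z i 0 2 = z (sy i 1) := fun i => rfl
  have e03 : ∀ i, TG t z i 0 3 = z (sy i 2) := fun i => rfl
  have e11 : ∀ i, TG t z i 1 1 = t (sy i 0) 0 := fun i => rfl
  have e12 : ∀ i, TG t z i 1 2 = t (sy i 1) 0 := fun i => rfl
  have e13 : ∀ i, TG t z i 1 3 = t (sy i 2) 0 := fun i => rfl
  have e21 : ∀ i, TG t z i 2 1 = t (sy i 0) 1 := fun i => rfl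
  have e22 : ∀ i, TG t z i 2 2 = t (sy i 1) 1 := fun i => rfl
  have e23 : ∀ i, TG t z i 2 3 = t (sy i 2) 1 := fun i => rfl
  have e31 : ∀ i, TG t z i 3 1 = t (sy i 0) 2 := fun i => rfl
  have e32 : ∀ i, TG t z i 3 2 = t (sy i 1) 2 := fun i => rfl
  have e33 : ∀ i, TG t z i 3 3 = t (sy i 2) 2 := fun i => rfl
  have l00 : LG c z' 1 0 0 = 0 := rfl
  have l10 : LG c z' 1 1 0 = 0 := rfl
  have l20 : LG c z' 1 2 0 = 1 := rfl
  have l30 : LG c z' 1 3 0 = 0 := rfl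
  have l11 : LG c z' 1 1 1 = c (sy 1 0) 0 := rfl
  have l12 : LG c z' 1 1 2 = c (sy 1 1) 0 := rfl
  have l13 : LG c z' 1 1 3 = c (sy 1 2) 0 := rfl
  have l21 : LG c z' 1 2 1 = c (sy 1 0) 1 := rfl
  have l22 : LG c z' 1 2 2 = c (sy 1 1) 1 := rfl
  have l23 : LG c z' 1 2 3 = c (sy 1 2) 1 := rfl
  have l31 : LG c z' 1 3 1 = c (sy 1 0) 2 := rfl
  have l32 : LG c z' 1 3 2 = c (sy 1 1) 2 := rfl
  have l33 : LG c z' 1 3 3 = c (sy 1 2) 2 := rfl
  simp only [Matrix.trace, Matrix.diag, Matrix.mul_apply, Fin.sum_univ_four, TG_c0, e01, e02, e03,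
    e11, e12, e13, e21, e22, e23, e31, e32, e33, l00, l10, l20, l30, l11, l12, l13, l21, l22, l23,
    l31, l32, l33, gX, sum3]
  ring

theorem gF_eq (c t : Fin 6 → Fin 3 → R) (z : Fin 6 → R) (a b : Fin 3) :
    gF c t z 1 a b = gX c t z a b + gX c t z b a := by
  simp only [gF, gX, sum3]
  ring

theorem tr_f_eq (h2 : (2 : R) = 0) (c : Fin 6 → Fin 3 → R) (z : Fin 6 → R) :
    trace (TG c z 0 * (TG c z 1 * TG c z 2 - TG c z 2 * TG c z 1)) = pfF (lof c) := by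
  rw [mul_sub, trace_sub, tr_TTT, tr_TTT, ← id_F1 h2]
  linear_combination -(trU c 0 2 1) * h2

theorem tr_g_eq (h2 : (2 : R) = 0) (c t : Fin 6 → Fin 3 → R) (z z' : Fin 6 → R) :
    trace (LG c z' 1 * (TG t z 2 * TG t z 0 - TG t z 0 * TG t z 2)) = gF c t z 1 2 0 := by
  rw [mul_sub, trace_sub, tr_STT, tr_STT, gF_eq]
  linear_combination -(gX c t z 0 2) * h2

end Explicit

end

end Pool.Agent.Helper90.Hilb8C
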