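import Pool.Agent.Helper90.Hilb8C.LowC
import Pool.Agent.Helper90.Hilb8C.Tr

/-!
# Relations in the ring of lowest forms
-/

namespace Pool.Agent.Helper90.Hilb8C

open Pool.Agent.Helper97.Hilb8 Pool.Agent.Helper97.Hilb8.TopAux Pool.Agent.Helper28.Hilb8 Matrix

noncomputable section

theorem lof_mk {R : Type*} [CommRing R] (δ τ : R) (c t : Fin 6 → Fin 3 → R) (p : ℕ) :
    lof (fun s k => (⟨c s k, t s k⟩ : QuadraticAlgebra R δ τ)) p = ⟨lof c p, lof t p⟩ := by
  by_cases h : p < 18
  · interval_cases p <;> rfl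
  · unfold lof
    rw [dif_neg h, dif_neg h, dif_neg h]
    rfl

theorem lof_cF {R : Type*} [CommRing R] (h2 : (2 : R) = 0) (l : ℕ → R) (p : ℕ) (hp : p < 18) :
    lof (cF l) p = l p := by
  have key : ∀ x y : R, x + y + (y + x + x) = x := fun x y => by linear_combination (x + y) * h2
  interval_cases p
  · rfl
  · rfl
  · rfl
  · change l 15 + l 3 + l 15 = l 3
    linear_combination l 15 * h2
  · rfl
  · change l 3 + l 5 + (l 15 + l 3 + l 15) = l 5
    linear_combination (l 15 + l 3) * h2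
  · rfl
  · change l 9 + l 7 + (l 16 + l 9 + l 16) = l 7
    linear_combination (l 9 + l 16) * h2
  · change l 17 + l 8 + l 17 = l 8
    linear_combination (l 17) * h2
  · change l 16 + l 9 + l 16 = l 9
    linear_combination (l 16) * h2
  · change l 8 + l 10 + (l 17 + l 8 + l 17) = l 10
    linear_combination (l 17 + l 8) * h2
  · rfl
  · rfl
  · rfl
  · rfl
  · rfl
  · rfl
  · rfl

section Gr

variable (k : Type*) [Field k]

/-- Real parts of the coordinates. -/
def xs (p : ℕ) : GR k := lof (cS (xb k)) p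

/-- Imaginary parts of the coordinates. -/
def ys (p : ℕ) : GR k := lof (cT (xb k)) p

theorem two_GR [CharP k 2] : (2 : GR k) = 0 := by
  have h1 : (2 : k) = 0 := by exact_mod_cast CharP.cast_eq_zero k 2
  have h : (2 : SC k) = 0 := by
    have h2 := congrArg (MvPolynomial.C (σ := Fin (8 * chartC.nb))) h1
    rw [MvPolynomial.C_0] at h2
    rw [← h2]
    rfl
  have h3 := congrArg (mkG k) h
  rw [map_zero] at h3
  rw [← h3]
  exact (map_ofNat (mkG k) 2).symm

variable [CharP k 2]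

omit [CharP k 2] in
theorem gr_comm (i j : Fin 3) :
    LG (fun s r => (⟨cS (xb k) s r, cT (xb k) s r⟩ : QuadraticAlgebra (GR k) (xb k 48) (xb k 52)))
      (fun s => ⟨zS (xb k) s, zT (xb k) s⟩) i *
    LG (fun s r => (⟨cS (xb k) s r, cT (xb k) s r⟩ : QuadraticAlgebra (GR k) (xb k 48) (xb k 52)))
      (fun s => ⟨zS (xb k) s, zT (xb k) s⟩) j =
    LG (fun s r => (⟨cS (xb k) s r, cT (xb k) s r⟩ : QuadraticAlgebra (GR k) (xb k 48) (xb k 52)))
      (fun s => ⟨zS (xb k) s, zT (xb k) s⟩) j *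
    LG (fun s r => (⟨cS (xb k) s r, cT (xb k) s r⟩ : QuadraticAlgebra (GR k) (xb k 48) (xb k 52)))
      (fun s => ⟨zS (xb k) s, zT (xb k) s⟩) i :=
  (LG_comm_iff _ _ _ _ _ _ i j).mpr (gr_rel0 k i j)

theorem gr_Pl (I : Fin 15) :
    PlF (fun p => (⟨xs k p, ys k p⟩ : QuadraticAlgebra (GR k) (xb k 48) (xb k 52))) I = 0 := by
  have h := pl_of_comm (qa_two _ _ (two_GR k)) _ _ (gr_comm k) I
  have h1 : lof (fun s r =>
      (⟨cS (xb k) s r, cT (xb k) s r⟩ : QuadraticAlgebra (GR k) (xb k 48) (xb k 52))) =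
      fun p => ⟨xs k p, ys k p⟩ := by
    funext p
    exact lof_mk _ _ _ _ p
  rw [h1] at h
  exact h

theorem gr_z (s : Fin 6) : (⟨zS (xb k) s, zT (xb k) s⟩ :
    QuadraticAlgebra (GR k) (xb k 48) (xb k 52)) =
    c0G (cF (fun p => (⟨xs k p, ys k p⟩ : QuadraticAlgebra (GR k) (xb k 48) (xb k 52)))) s := by
  have h := c0_of_comm (qa_two _ _ (two_GR k)) _ _ (gr_comm k) s
  have h1 : lof (fun s r =>
      (⟨cS (xb k) s r, cT (xb k) s r⟩ : QuadraticAlgebra (GR k) (xb k 48) (xb k 52))) =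
      fun p => ⟨xs k p, ys k p⟩ := by
    funext p
    exact lof_mk _ _ _ _ p
  have h2 : (fun s r =>
      (⟨cS (xb k) s r, cT (xb k) s r⟩ : QuadraticAlgebra (GR k) (xb k 48) (xb k 52))) =
      cF (fun p => (⟨xs k p, ys k p⟩ : QuadraticAlgebra (GR k) (xb k 48) (xb k 52))) := by
    rw [← h1]
    funext s r
    exact (cF_lof (qa_two _ _ (two_GR k)) (fun s r =>
      (⟨cS (xb k) s r, cT (xb k) s r⟩ : QuadraticAlgebra (GR k) (xb k 48) (xb k 52))) s r).symm
  rw [h2] at h
  exact h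

theorem gr_cS : cF (xs k) = cS (xb k) := by
  funext s r
  exact cF_lof (two_GR k) _ s r

theorem gr_cT : cF (ys k) = cT (xb k) := by
  funext s r
  exact cF_lof (two_GR k) _ s r

/-- The first cubic. -/
def f1 : GR k := pfF (ys k)

/-- The second cubic. -/
def f2 : GR k := pfT (xs k) (ys k)

theorem gr_f1 : trace (TM (xb k) 0 * (TM (xb k) 1 * TM (xb k) 2 - TM (xb k) 2 * TM (xb k) 1)) =
    f1 k := tr_f_eq (two_GR k) _ _

theorem gr_f2 : trace (SM (xb k) 1 * (TM (xb k) 2 * TM (xb k) 0 - TM (xb k) 0 * TM (xb k) 2)) =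
    f2 k := by
  have h := tr_g_eq (two_GR k) (cS (xb k)) (cT (xb k)) (zT (xb k)) (zS (xb k))
  have h1 := id_G (xs k) (ys k) (xb k 48) (xb k 52) (gr_Pl k) (two_GR k)
  have h3 : (fun s => (c0G (cF (fun p =>
      (⟨xs k p, ys k p⟩ : QuadraticAlgebra (GR k) (xb k 48) (xb k 52)))) s).im) = zT (xb k) := by
    funext s
    rw [← gr_z k s]
  rw [h3, gr_cS, gr_cT] at h1
  exact h.trans h1

theorem gr_bc (l : Fin 3) : bb k l * f1 k + cc k l * f2 k = 0 ∧
    bb k l * f2 k + xb k 48 * (cc k l * f1 k) = 0 := by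
  have h := fun i j => (gr_rel0 k i j).2
  have q1 := tr_q1 (xb k 52) (SM (xb k)) (TM (xb k)) h (two_GR k) (bb k) (cc k) (xb k 48)
  have q2 := tr_q2 (xb k 52) (SM (xb k)) (TM (xb k)) h (two_GR k) (bb k) (cc k)
  rw [gr_f1, gr_f2] at q1 q2
  have t1 := gr_tr1 k
  have t2 := gr_tr2 k
  unfold KM at t1 t2
  rw [t1, t1, t1] at q1
  rw [t2, t2, t2] at q2
  obtain ⟨a1, a2, a3⟩ := q1
  obtain ⟨b1, b2, b3⟩ := q2
  fin_cases l
  · exact ⟨b1.symm, a1.symm⟩
  · exact ⟨b2.symm, a2.symm⟩
  · exact ⟨b3.symm, a3.symm⟩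

theorem gr_X (p : ℕ) (hp : p < 15) : xs k p * f1 k = ys k p * f2 k :=
  id_X (xs k) (ys k) (xb k 48) (xb k 52) (gr_Pl k) (two_GR k) p hp

theorem gr_Y (p : ℕ) (hp : p < 15) : xb k 48 * (ys k p * f1 k) = xs k p * f2 k :=
  id_Y (xs k) (ys k) (xb k 48) (xb k 52) (gr_Pl k) (two_GR k) p hp

theorem gr_T1 : xb k 52 * f1 k = 0 :=
  id_T1 (xs k) (ys k) (xb k 48) (xb k 52) (gr_Pl k) (two_GR k)

theorem gr_T2 : xb k 52 * f2 k = 0 :=
  id_T2 (xs k) (ys k) (xb k 48) (xb k 52) (gr_Pl k) (two_GR k)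

/-! ### The presentation -/

/-- The values of the 44 variables. -/
def ptab (v : ℕ) : GR k :=
  if v < 38 then env (xs k) (ys k) (xb k 48) (xb k 52) v
  else if v < 41 then xb k (v + 11) else xb k (v + 12)

/-- The presentation of the ring of lowest forms. -/
def Psi : MvPolynomial (Fin 44) k →+* GR k :=
  MvPolynomial.eval₂Hom ((mkG k).comp MvPolynomial.C) (fun v => ptab k v)

omit [CharP k 2] in
theorem Psi_C (r : k) : Psi k (MvPolynomial.C r) = mkG k (MvPolynomial.C r) := by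
  unfold Psi
  rw [MvPolynomial.coe_eval₂Hom, MvPolynomial.eval₂_C]
  rfl

omit [CharP k 2] in
theorem Psi_va (v : ℕ) (hv : v < 44) : Psi k (va k v) = ptab k v := by
  unfold va Psi
  rw [dif_pos hv, MvPolynomial.coe_eval₂Hom, MvPolynomial.eval₂_X]

theorem Psi_x (p : ℕ) (hp : p < 15) : xs k p ∈ (Psi k).range :=
  ⟨va k p, by rw [Psi_va k p (by omega), ptab, if_pos (by omega), env_x _ _ _ _ p hp]⟩

theorem Psi_y (p : ℕ) (hp : p < 15) : ys k p ∈ (Psi k).range :=
  ⟨va k (15 + p), by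
    rw [Psi_va k _ (by omega), ptab, if_pos (by omega), env_y _ _ _ _ p hp]⟩

theorem range_xs (p : ℕ) : xs k p ∈ (Psi k).range := by
  by_cases h : p < 15
  · exact Psi_x k p h
  · by_cases h' : p < 18
    · refine ⟨va k (p + 17), ?_⟩
      rw [Psi_va k _ (by omega), ptab, if_pos (by omega)]
      interval_cases p <;> rfl
    · have : xs k p = 0 := by
        unfold xs lof
        rw [dif_neg h']
      rw [this]
      exact Subring.zero_mem _

theorem range_ys (p : ℕ) : ys k p ∈ (Psi k).range := by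
  by_cases h : p < 15
  · exact Psi_y k p h
  · by_cases h' : p < 18
    · refine ⟨va k (p + 20), ?_⟩
      rw [Psi_va k _ (by omega), ptab, if_pos (by omega)]
      interval_cases p <;> rfl
    · have : ys k p = 0 := by
        unfold ys lof
        rw [dif_neg h']
      rw [this]
      exact Subring.zero_mem _

theorem range_delta : xb k 48 ∈ (Psi k).range :=
  ⟨va k 31, by rw [Psi_va k _ (by omega)]; rfl⟩

theorem range_tau : xb k 52 ∈ (Psi k).range :=
  ⟨va k 30, by rw [Psi_va k _ (by omega)]; rfl⟩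

theorem range_bb (j : Fin 3) : bb k j ∈ (Psi k).range :=
  ⟨va k (38 + j), by
    rw [Psi_va k _ (by omega), ptab, if_neg (by omega), if_pos (by omega)]
    fin_cases j <;> rfl⟩

theorem range_cc (j : Fin 3) : cc k j ∈ (Psi k).range :=
  ⟨va k (41 + j), by
    rw [Psi_va k _ (by omega), ptab, if_neg (by omega), if_neg (by omega)]
    fin_cases j <;> rfl⟩

omit [CharP k 2] in
theorem cF_mem {R : Type*} [CommRing R] (S : Subring R) (l : ℕ → R) (h : ∀ p, l p ∈ S)
    (s : Fin 6) (r : Fin 3) : cF l s r ∈ S := by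
  fin_cases s <;> fin_cases r <;>
    first
      | exact h _
      | exact S.add_mem (h _) (h _)

theorem range_cS (s : Fin 6) (r : Fin 3) : cS (xb k) s r ∈ (Psi k).range := by
  rw [← gr_cS]
  exact cF_mem _ _ (range_xs k) s r

theorem range_cT (s : Fin 6) (r : Fin 3) : cT (xb k) s r ∈ (Psi k).range := by
  rw [← gr_cT]
  exact cF_mem _ _ (range_ys k) s r

/-- Pairs with components in a subring. -/
def QS {R : Type*} [CommRing R] (S : Subring R) (δ τ : R) (hδ : δ ∈ S) (hτ : τ ∈ S) :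
    Subring (QuadraticAlgebra R δ τ) where
  carrier := {z | z.re ∈ S ∧ z.im ∈ S}
  mul_mem' := by
    rintro a b ⟨ha, ha'⟩ ⟨hb, hb'⟩
    refine ⟨?_, ?_⟩
    · rw [QuadraticAlgebra.re_mul]
      exact S.add_mem (S.mul_mem ha hb) (S.mul_mem (S.mul_mem hδ ha') hb')
    · rw [QuadraticAlgebra.im_mul]
      exact S.add_mem (S.add_mem (S.mul_mem ha hb') (S.mul_mem ha' hb))
        (S.mul_mem (S.mul_mem hτ ha') hb')
  one_mem' := ⟨S.one_mem, S.zero_mem⟩
  add_mem' := by
    rintro a b ⟨ha, ha'⟩ ⟨hb, hb'⟩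
    exact ⟨S.add_mem ha hb, S.add_mem ha' hb'⟩
  zero_mem' := ⟨S.zero_mem, S.zero_mem⟩
  neg_mem' := by
    rintro a ⟨ha, ha'⟩
    exact ⟨S.neg_mem ha, S.neg_mem ha'⟩

omit [CharP k 2] in
theorem qG_mem {R : Type*} [CommRing R] (S : Subring R) (c : Fin 6 → Fin 3 → R)
    (h : ∀ s r, c s r ∈ S) (i j w r : Fin 3) : qG c i j w r ∈ S := by
  unfold qG
  refine S.add_mem (S.add_mem ?_ ?_) ?_ <;>
    exact S.add_mem (S.mul_mem (h _ _) (h _ _)) (S.mul_mem (h _ _) (h _ _))

omit [CharP k 2] in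
theorem c0G_mem {R : Type*} [CommRing R] (S : Subring R) (c : Fin 6 → Fin 3 → R)
    (h : ∀ s r, c s r ∈ S) (s : Fin 6) : c0G c s ∈ S := by
  fin_cases s <;> exact qG_mem S c h _ _ _ _

theorem range_z (s : Fin 6) : zS (xb k) s ∈ (Psi k).range ∧ zT (xb k) s ∈ (Psi k).range := by
  have h : (⟨zS (xb k) s, zT (xb k) s⟩ : QuadraticAlgebra (GR k) (xb k 48) (xb k 52)) ∈
      QS (Psi k).range (xb k 48) (xb k 52) (range_delta k) (range_tau k) := by
    rw [gr_z]
    apply c0G_mem
    apply cF_mem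
    intro p
    exact ⟨range_xs k p, range_ys k p⟩
  exact h

theorem range_cA {R : Type*} [CommRing R] (S : Subring R) (c : Fin 6 → Fin 3 → R) (z : Fin 6 → R)
    (h : ∀ s r, c s r ∈ S) (hz : ∀ s, z s ∈ S) (s : Fin 6) (r : Fin 4) : cA c z s r ∈ S := by
  fin_cases r
  · exact hz s
  · exact h s 0
  · exact h s 1
  · exact h s 2

theorem range_SM (i : Fin 3) (r c : Fin 4) : SM (xb k) i r c ∈ (Psi k).range := by
  refine Fin.cases ?_ (fun j => ?_) c
  · rw [SM_zero]
    unfold krF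
    split_ifs
    · exact Subring.one_mem _
    · exact Subring.zero_mem _
  · rw [SM_succ]
    exact range_cA _ _ _ (range_cS k) (fun s => (range_z k s).1) _ _

theorem range_TM (i : Fin 3) (r c : Fin 4) : TM (xb k) i r c ∈ (Psi k).range := by
  refine Fin.cases ?_ (fun j => ?_) c
  · rw [TM_zero]
    exact Subring.zero_mem _
  · rw [TM_succ]
    exact range_cA _ _ _ (range_cT k) (fun s => (range_z k s).2) _ _

theorem range_C (r c : Fin 4) (h : r ≠ c) : xb k (8 * (6 + c) + r) ∈ (Psi k).range := by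
  rw [gr_C k r c h]
  simp only [Matrix.add_apply, Matrix.sum_apply, Matrix.smul_apply, smul_eq_mul]
  refine Subring.add_mem _ (Subring.sum_mem _ fun j _ => ?_)
    (Subring.mul_mem _ (range_delta k) (Subring.sum_mem _ fun j _ => ?_))
  · exact Subring.mul_mem _ (range_bb k j) (range_SM k _ _ _)
  · exact Subring.mul_mem _ (range_cc k j) (range_TM k _ _ _)

theorem range_B (r c : Fin 4) (h : r ≠ c) : xb k (8 * (6 + c) + (r + 4)) ∈ (Psi k).range := by
  rw [gr_B k r c h]
  simp only [Matrix.add_apply, Matrix.sum_apply, Matrix.smul_apply, smul_eq_mul]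
  refine Subring.add_mem _ (Subring.add_mem _ (Subring.sum_mem _ fun j _ => ?_)
    (Subring.sum_mem _ fun j _ => ?_))
    (Subring.mul_mem _ (range_tau k) (Subring.sum_mem _ fun j _ => ?_))
  · exact Subring.mul_mem _ (range_bb k j) (range_TM k _ _ _)
  · exact Subring.mul_mem _ (range_cc k j) (range_SM k _ _ _)
  · exact Subring.mul_mem _ (range_cc k j) (range_TM k _ _ _)

theorem range_xb (v : ℕ) (hv : v < 128) : xb k v ∈ (Psi k).range := by
  by_cases h48 : v < 48
  · obtain ⟨s, r, rfl⟩ : ∃ s : Fin 6, ∃ r : Fin 8, v = 8 * s + r :=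
      ⟨⟨v / 8, by omega⟩, ⟨v % 8, by omega⟩, by simp only; omega⟩
    fin_cases r
    · exact (range_z k s).1
    · exact range_cS k s 0
    · exact range_cS k s 1
    · exact range_cS k s 2
    · exact (range_z k s).2
    · exact range_cT k s 0
    · exact range_cT k s 1
    · exact range_cT k s 2
  · by_cases h80 : v < 80
    · obtain ⟨c, r, hv'⟩ : ∃ c : Fin 4, ∃ r : Fin 8, v = 8 * (6 + c) + r :=
        ⟨⟨v / 8 - 6, by omega⟩, ⟨v % 8, by omega⟩, by simp only; omega⟩
      by_cases hr : r.val < 4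
      · by_cases hrc : (⟨r, hr⟩ : Fin 4) = c
        · have h1 : r.val = c.val := congrArg Fin.val hrc
          have h := (gr_diag k c).1
          rw [hv', h1, h]
          exact range_delta k
        · rw [hv']
          exact range_C k ⟨r, hr⟩ c hrc
      · by_cases hrc : (⟨r - 4, by omega⟩ : Fin 4) = c
        · have h1 : r.val - 4 = c.val := congrArg Fin.val hrc
          have h := (gr_diag k c).2
          have h2 : v = 8 * (6 + c) + (c + 4) := by omega
          rw [h2, h]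
          exact range_tau k
        · have h2 : v = 8 * (6 + c) + ((⟨r - 4, by omega⟩ : Fin 4) + 4) := by
            simp only
            omega
          rw [h2]
          exact range_B k _ c hrc
    · obtain ⟨s, r, hv'⟩ : ∃ s : Fin 6, ∃ r : Fin 8, v = 8 * (10 + s) + r :=
        ⟨⟨v / 8 - 10, by omega⟩, ⟨v % 8, by omega⟩, by simp only; omega⟩
      by_cases hr : r.val < 4
      · have h := gr_P k s ⟨r, hr⟩
        have h2 : xb k v = xb k (8 * (10 + s) + (⟨r, hr⟩ : Fin 4)) := by rw [hv']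
        rw [h2, h]
        exact Subring.mul_mem _ (range_delta k)
          (range_cA _ _ _ (range_cT k) (fun s => (range_z k s).2) _ _)
      · have h := gr_Q k s ⟨r - 4, by omega⟩
        have h2 : v = 8 * (10 + s) + ((⟨r - 4, by omega⟩ : Fin 4) + 4) := by
          simp only
          omega
        rw [h2, h]
        exact Subring.add_mem _ (range_cA _ _ _ (range_cS k) (fun s => (range_z k s).1) _ _)
          (Subring.mul_mem _ (range_tau k)
            (range_cA _ _ _ (range_cT k) (fun s => (range_z k s).2) _ _))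

theorem Psi_surj : Function.Surjective (Psi k) := by
  intro y
  obtain ⟨p, rfl⟩ := mkG_surj k y
  change mkG k p ∈ (Psi k).range
  induction p using MvPolynomial.induction_on with
  | C r => exact ⟨MvPolynomial.C r, Psi_C k r⟩
  | add p q hp hq =>
    rw [map_add]
    exact Subring.add_mem _ hp hq
  | mul_X p v hp =>
    rw [map_mul]
    refine Subring.mul_mem _ hp ?_
    have hv : v.val < 128 := v.2
    have h := range_xb k v hv
    have h1 : xb k v = mkG k (MvPolynomial.X v) := by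
      unfold xb Chart.var
      rw [dif_pos v.2]
    rw [h1] at h
    exact h

end Gr

end

end Pool.Agent.Helper90.Hilb8C
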