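import Pool.Agent.Helper90.Hilb8C.Cert
import Pool.Agent.Helper90.Hilb8C.Blk

/-!
# Matrices over the quadratic algebra and consequences of the relations
-/

namespace Pool.Agent.Helper90.Hilb8C

open Matrix

noncomputable section

section Mk

variable {R : Type*} [CommRing R] (δ τ : R)

theorem qa_two (h2 : (2 : R) = 0) : (2 : QuadraticAlgebra R δ τ) = 0 := by
  ext
  · exact h2
  · rfl

/-- The matrix with real part `S` and imaginary part `T`. -/
def mkM (S T : Matrix (Fin 4) (Fin 4) R) : Matrix (Fin 4) (Fin 4) (QuadraticAlgebra R δ τ) :=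
  Matrix.of fun r c => ⟨S r c, T r c⟩

theorem qa_sum_re {ι : Type*} (s : Finset ι) (f : ι → QuadraticAlgebra R δ τ) :
    (∑ i ∈ s, f i).re = ∑ i ∈ s, (f i).re := by
  classical
  induction s using Finset.induction_on with
  | empty => rfl
  | insert a s ha ih => rw [Finset.sum_insert ha, Finset.sum_insert ha, QuadraticAlgebra.re_add, ih]

theorem qa_sum_im {ι : Type*} (s : Finset ι) (f : ι → QuadraticAlgebra R δ τ) :
    (∑ i ∈ s, f i).im = ∑ i ∈ s, (f i).im := by
  classical
  induction s using Finset.induction_on with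
  | empty => rfl
  | insert a s ha ih => rw [Finset.sum_insert ha, Finset.sum_insert ha, QuadraticAlgebra.im_add, ih]

theorem mkM_mul (S T S' T' : Matrix (Fin 4) (Fin 4) R) :
    mkM δ τ S T * mkM δ τ S' T' =
      mkM δ τ (S * S' + δ • (T * T')) (T * S' + S * T' + τ • (T * T')) := by
  ext r c
  · rw [Matrix.mul_apply, qa_sum_re]
    simp only [mkM, Matrix.of_apply, QuadraticAlgebra.re_mul, Matrix.add_apply, Matrix.mul_apply,
      Matrix.smul_apply, smul_eq_mul, Finset.mul_sum]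
    rw [← Finset.sum_add_distrib]
    exact Finset.sum_congr rfl fun s _ => by ring
  · rw [Matrix.mul_apply, qa_sum_im]
    simp only [mkM, Matrix.of_apply, QuadraticAlgebra.im_mul, Matrix.add_apply, Matrix.mul_apply,
      Matrix.smul_apply, smul_eq_mul, Finset.mul_sum]
    rw [← Finset.sum_add_distrib, ← Finset.sum_add_distrib]
    exact Finset.sum_congr rfl fun s _ => by ring

theorem mkM_inj (S T S' T' : Matrix (Fin 4) (Fin 4) R) :
    mkM δ τ S T = mkM δ τ S' T' ↔ S = S' ∧ T = T' := by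
  constructor
  · intro h
    constructor
    · ext r c
      exact congrArg QuadraticAlgebra.re (congrFun (congrFun h r) c)
    · ext r c
      exact congrArg QuadraticAlgebra.im (congrFun (congrFun h r) c)
  · rintro ⟨rfl, rfl⟩
    rfl

theorem LG_mk (c t : Fin 6 → Fin 3 → R) (z u : Fin 6 → R) (i : Fin 3) :
    LG (fun s k => (⟨c s k, t s k⟩ : QuadraticAlgebra R δ τ)) (fun s => ⟨z s, u s⟩) i =
      mkM δ τ (LG c z i) (TG t u i) := by
  have h1 : ∀ r : Fin 4, (krF r i : QuadraticAlgebra R δ τ) = ⟨krF r i, 0⟩ := by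
    intro r
    unfold krF
    split_ifs <;> rfl
  have h2 : ∀ (s : Fin 6) (r : Fin 4),
      cA (fun s k => (⟨c s k, t s k⟩ : QuadraticAlgebra R δ τ)) (fun s => ⟨z s, u s⟩) s r =
        ⟨cA c z s r, cA t u s r⟩ := by
    intro s r
    fin_cases r <;> rfl
  apply Matrix.ext
  intro r s
  refine Fin.cases ?_ (fun k => ?_) s
  · exact h1 r
  · exact h2 _ r

theorem LG_comm_iff (c t : Fin 6 → Fin 3 → R) (z u : Fin 6 → R) (i j : Fin 3) :
    LG (fun s k => (⟨c s k, t s k⟩ : QuadraticAlgebra R δ τ)) (fun s => ⟨z s, u s⟩) i *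
      LG (fun s k => (⟨c s k, t s k⟩ : QuadraticAlgebra R δ τ)) (fun s => ⟨z s, u s⟩) j =
    LG (fun s k => (⟨c s k, t s k⟩ : QuadraticAlgebra R δ τ)) (fun s => ⟨z s, u s⟩) j *
      LG (fun s k => (⟨c s k, t s k⟩ : QuadraticAlgebra R δ τ)) (fun s => ⟨z s, u s⟩) i ↔
    (LG c z i * LG c z j + δ • (TG t u i * TG t u j) =
      LG c z j * LG c z i + δ • (TG t u j * TG t u i)) ∧
    (TG t u i * LG c z j + LG c z i * TG t u j + τ • (TG t u i * TG t u j) =
      TG t u j * LG c z i + LG c z j * TG t u i + τ • (TG t u j * TG t u i)) := by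
  rw [LG_mk, LG_mk, mkM_mul, mkM_mul, mkM_inj]

end Mk

section EvP

variable {R : Type*} [CommRing R] (ρ : ℕ → R)

/-- Evaluation of pairs. -/
def evP (p : PEx) : QuadraticAlgebra R (ρ 31) (ρ 30) := ⟨p.re.ev ρ, p.im.ev ρ⟩

theorem evP_add (p q : PEx) : evP ρ (p + q) = evP ρ p + evP ρ q := rfl

theorem evP_mul (p q : PEx) : evP ρ (p * q) = evP ρ p * evP ρ q := by
  ext
  · change p.re.ev ρ * q.re.ev ρ + ρ 31 * (p.im.ev ρ * q.im.ev ρ) =
      p.re.ev ρ * q.re.ev ρ + ρ 31 * p.im.ev ρ * q.im.ev ρ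
    ring
  · change p.re.ev ρ * q.im.ev ρ + p.im.ev ρ * q.re.ev ρ + ρ 30 * (p.im.ev ρ * q.im.ev ρ) =
      p.re.ev ρ * q.im.ev ρ + p.im.ev ρ * q.re.ev ρ + ρ 30 * p.im.ev ρ * q.im.ev ρ
    ring

theorem evP_Pl (l : ℕ → PEx) (I : Fin 15) : evP ρ (PlF l I) = PlF (fun p => evP ρ (l p)) I := by
  have key : ∀ a b c d e f : PEx, evP ρ (a * b + c * d + e * f) =
      evP ρ a * evP ρ b + evP ρ c * evP ρ d + evP ρ e * evP ρ f := by
    intro a b c d e f
    rw [evP_add, evP_add, evP_mul, evP_mul, evP_mul]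
  fin_cases I <;> exact key _ _ _ _ _ _

theorem evP_cF (l : ℕ → PEx) (s : Fin 6) (k : Fin 3) :
    evP ρ (cF l s k) = cF (fun p => evP ρ (l p)) s k := by
  fin_cases s <;> fin_cases k <;> rfl

theorem evP_qG (c : Fin 6 → Fin 3 → PEx) (i j w k : Fin 3) :
    evP ρ (qG c i j w k) = qG (fun s k => evP ρ (c s k)) i j w k := by
  unfold qG
  simp only [evP_add, evP_mul]

theorem evP_c0G (c : Fin 6 → Fin 3 → PEx) (s : Fin 6) :
    evP ρ (c0G c s) = c0G (fun s k => evP ρ (c s k)) s := by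
  fin_cases s <;> exact evP_qG ρ _ _ _ _ _

end EvP

section Env

variable {R : Type*} [CommRing R]

/-- The environment. -/
def env (x y : ℕ → R) (δ τ : R) (v : ℕ) : R :=
  if v < 15 then x v else if v < 30 then y (v - 15) else if v = 30 then τ else
    if v = 31 then δ else if v < 35 then x (v - 17) else if v < 38 then y (v - 20) else 0

variable (x y : ℕ → R) (δ τ : R)

theorem env_x (p : ℕ) (hp : p < 15) : env x y δ τ p = x p := by
  unfold env
  rw [if_pos hp]

theorem env_y (p : ℕ) (hp : p < 15) : env x y δ τ (15 + p) = y p := by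
  unfold env
  rw [if_neg (by omega), if_pos (by omega), Nat.add_sub_cancel_left]

theorem env_30 : env x y δ τ 30 = τ := rfl

theorem env_31 : env x y δ τ 31 = δ := rfl

theorem evP_lP (p : ℕ) (hp : p < 18) :
    evP (env x y δ τ) (lP p) = (⟨x p, y p⟩ : QuadraticAlgebra R δ τ) := by
  interval_cases p <;> rfl

theorem Pl_congr {D : Type*} [Add D] [Mul D] (l l' : ℕ → D) (h : ∀ p < 18, l p = l' p) (I : Fin 15) :
    PlF l I = PlF l' I := by
  have key : ∀ a b c d e f : ℕ, a < 18 → b < 18 → c < 18 → d < 18 → e < 18 → f < 18 →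
      l a * l b + l c * l d + l e * l f = l' a * l' b + l' c * l' d + l' e * l' f := by
    intro a b c d e f ha hb hc hd he hf
    rw [h a ha, h b hb, h c hc, h d hd, h e he, h f hf]
  fin_cases I <;> exact key _ _ _ _ _ _ (by norm_num) (by norm_num) (by norm_num) (by norm_num)
    (by norm_num) (by norm_num)

theorem cF_congr {D : Type*} [Add D] (l l' : ℕ → D) (h : ∀ p < 18, l p = l' p) :
    cF l = cF l' := by
  funext s k
  fin_cases s <;> fin_cases k
  · exact congrArg₂ _ (h 3 (by norm_num)) (h 5 (by norm_num))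
  · exact h 1 (by norm_num)
  · exact h 0 (by norm_num)
  · exact h 16 (by norm_num)
  · exact h 15 (by norm_num)
  · exact h 2 (by norm_num)
  · exact h 17 (by norm_num)
  · exact h 4 (by norm_num)
  · exact congrArg₂ _ (h 15 (by norm_num)) (h 3 (by norm_num))
  · exact h 12 (by norm_num)
  · exact congrArg₂ _ (h 9 (by norm_num)) (h 7 (by norm_num))
  · exact h 6 (by norm_num)
  · exact h 13 (by norm_num)
  · exact congrArg₂ _ (h 17 (by norm_num)) (h 8 (by norm_num))
  · exact congrArg₂ _ (h 16 (by norm_num)) (h 9 (by norm_num))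
  · exact h 14 (by norm_num)
  · exact h 11 (by norm_num)
  · exact congrArg₂ _ (h 8 (by norm_num)) (h 10 (by norm_num))

variable (hR : ∀ I, PlF (fun p => (⟨x p, y p⟩ : QuadraticAlgebra R δ τ)) I = 0)

include hR

theorem Pl_zero (I : Fin 15) : evP (env x y δ τ) (PlF lP I) = 0 := by
  rw [evP_Pl]
  have h := Pl_congr (fun p => evP (env x y δ τ) (lP p))
    (fun p => (⟨x p, y p⟩ : QuadraticAlgebra R δ τ)) (fun p hp => evP_lP x y δ τ p hp) I
  exact h.trans (hR I)

theorem qsum_zero (l : List (Ex × Fin 15) × List (Ex × Fin 15)) :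
    (qsum l).ev (env x y δ τ) = 0 := by
  unfold qsum
  rw [ev_add', ev_lsum, ev_lsum, add_zero]
  · intro I
    exact congrArg QuadraticAlgebra.im (Pl_zero x y δ τ hR I)
  · intro I
    exact congrArg QuadraticAlgebra.re (Pl_zero x y δ τ hR I)

omit hR in
theorem ev_pfF : (pfF (fun p => Ex.v (15 + p))).ev (env x y δ τ) = pfF y := rfl

omit hR in
theorem ev_pfT : (pfT Ex.v (fun p => Ex.v (15 + p))).ev (env x y δ τ) = pfT x y := rfl

theorem id_X (h2 : (2 : R) = 0) (p : ℕ) (hp : p < 15) : x p * pfF y = y p * pfT x y := by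
  have h := Ex.eq_zero h2 (env x y δ τ) _ (chkX ⟨p, hp⟩)
  rw [ev_add', qsum_zero x y δ τ hR, add_zero, ev_add', ev_mul', ev_mul', ev_v, ev_v, ev_pfF,
    ev_pfT, env_x x y δ τ p hp, env_y x y δ τ p hp] at h
  exact eq_of_add_two h2 h

theorem id_Y (h2 : (2 : R) = 0) (p : ℕ) (hp : p < 15) : δ * (y p * pfF y) = x p * pfT x y := by
  have h := Ex.eq_zero h2 (env x y δ τ) _ (chkY ⟨p, hp⟩)
  rw [ev_add', qsum_zero x y δ τ hR, add_zero, ev_add', ev_mul', ev_mul', ev_mul', ev_v, ev_v,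
    ev_v, ev_pfF, ev_pfT, env_x x y δ τ p hp, env_y x y δ τ p hp, env_31] at h
  exact eq_of_add_two h2 h

theorem id_T1 (h2 : (2 : R) = 0) : τ * pfF y = 0 := by
  have h := Ex.eq_zero h2 (env x y δ τ) _ chkT1
  rw [ev_add', qsum_zero x y δ τ hR, add_zero, ev_mul', ev_v, ev_pfF, env_30] at h
  exact h

theorem id_T2 (h2 : (2 : R) = 0) : τ * pfT x y = 0 := by
  have h := Ex.eq_zero h2 (env x y δ τ) _ chkT2
  rw [ev_add', qsum_zero x y δ τ hR, add_zero, ev_mul', ev_v, ev_pfT, env_30] at h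
  exact h

theorem id_G (h2 : (2 : R) = 0) : gF (cF x) (cF y)
    (fun s => (c0G (cF (fun p => (⟨x p, y p⟩ : QuadraticAlgebra R δ τ))) s).im) 1 2 0 =
      pfT x y := by
  have h := Ex.eq_zero h2 (env x y δ τ) _ chkG
  have e1 : ∀ s k, ((cF lP s k).re).ev (env x y δ τ) = cF x s k := by
    intro s k
    fin_cases s <;> fin_cases k <;> rfl
  have e2 : ∀ s k, ((cF lP s k).im).ev (env x y δ τ) = cF y s k := by
    intro s k
    fin_cases s <;> fin_cases k <;> rfl
  have e3 : ∀ s, ((c0G (cF lP) s).im).ev (env x y δ τ) =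
      (c0G (cF (fun p => (⟨x p, y p⟩ : QuadraticAlgebra R δ τ))) s).im := by
    intro s
    have h1 := evP_c0G (env x y δ τ) (cF lP) s
    have h3 : (fun s k => evP (env x y δ τ) (cF lP s k)) =
        cF (fun p => (⟨x p, y p⟩ : QuadraticAlgebra R δ τ)) := by
      have h4 : (fun s k => evP (env x y δ τ) (cF lP s k)) =
          cF (fun p => evP (env x y δ τ) (lP p)) := by
        funext s k
        exact evP_cF _ _ _ _
      rw [h4]
      exact cF_congr _ _ (fun p hp => evP_lP x y δ τ p hp)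
    rw [h3] at h1
    exact congrArg QuadraticAlgebra.im h1
  have e4 : (gF (fun s k => (cF lP s k).re) (fun s k => (cF lP s k).im)
      (fun s => (c0G (cF lP) s).im) 1 2 0).ev (env x y δ τ) =
      gF (fun s k => ((cF lP s k).re).ev (env x y δ τ))
        (fun s k => ((cF lP s k).im).ev (env x y δ τ))
        (fun s => ((c0G (cF lP) s).im).ev (env x y δ τ)) 1 2 0 := rfl
  rw [ev_add', qsum_zero x y δ τ hR, add_zero, ev_add', ev_add', ev_mul', ev_v, ev_pfF, ev_pfT,
    env_30, id_T1 x y δ τ hR h2, add_zero, e4] at h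
  simp only [e1, e2, e3] at h
  exact eq_of_add_two h2 h

end Env

theorem id_F1 {R : Type*} [CommRing R] (h2 : (2 : R) = 0) (c : Fin 6 → Fin 3 → R) :
    trU c 0 1 2 + trU c 0 2 1 = pfF (lof c) := by
  let ρ : ℕ → R := fun v => if h : v < 18 then c ⟨v / 3, by omega⟩ ⟨v % 3, Nat.mod_lt _ (by omega)⟩
    else 0
  have h1 := Ex.eq_zero h2 ρ _ chkF1
  have hc : ∀ s k, (cV s k).ev ρ = c s k := by
    intro s k
    fin_cases s <;> fin_cases k <;> rfl
  have e1 : ∀ a b d, (trU cV a b d).ev ρ = trU (fun s k => (cV s k).ev ρ) a b d := by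
    intro a b d
    rfl
  have e2 : (pfF (lof cV)).ev ρ = pfF (lof (fun s k => (cV s k).ev ρ)) := rfl
  rw [ev_add', ev_add', e1, e1, e2] at h1
  simp only [hc] at h1
  exact eq_of_add_two h2 h1

end

end Pool.Agent.Helper90.Hilb8C
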