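import Pool.Agent.Helper90.Hilb8C.GBP
import Pool.Agent.Helper90.Hilb8C.Quad

/-!
# The ideal of the first component
-/

set_option maxRecDepth 100000

namespace Pool.Agent.Helper90.Hilb8C

open MvPolynomial Pool.Agent.Helper97.Hilb8 Pool.Agent.Helper97.Hilb8.K Pool.Agent.Helper97.Hilb8.GB

noncomputable section

theorem al2_sound {α β : Type} (f : α → β → Bool) (l : List α) :
    ∀ m : List β, al2 f l m = true → ∀ a ∈ l, ∃ b, f a b = true := by
  induction l with
  | nil => exact fun _ _ a ha => absurd ha List.not_mem_nil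
  | cons a l ih =>
    intro m h x hx
    cases m with
    | nil => exact absurd h (by change ¬ (false = true); simp)
    | cons b m =>
      obtain ⟨h1, h2⟩ := brec_and (b := f a b) (c := al2 f l m) h
      rcases List.mem_cons.mp hx with rfl | hx
      · exact ⟨b, h1⟩
      · exact ih m h2 x hx

section K1

variable (k : Type*) [Field k] [CharP k 2]

omit [CharP k 2] in
theorem two_k [CharP k 2] : (2 : k) = 0 := by exact_mod_cast CharP.cast_eq_zero k 2

theorem two_P : (2 : MvPolynomial (Fin 44) k) = 0 := by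
  have h2 := congrArg (MvPolynomial.C (σ := Fin 44)) (two_k k)
  rw [MvPolynomial.C_0] at h2
  rw [← h2]
  rfl

theorem memchk_sound (x : Nat × Q) (hx : El 44 W44 x) (e : Ex) (h : memchk x e = true) :
    fe k 44 x = e.ev (va k) := by
  obtain ⟨h1, h⟩ := brec_and (b := e.bd 44) (c := _) h
  obtain ⟨h3, h⟩ := brec_and (b := Nat.ble e.deg 15) (c := _) h
  obtain ⟨h4, h5⟩ := nrm_sound (two_k k) vk 44 (va k) (vk_sound k) e (ble_iff.1 h3) h1
  have h6 := ev_of_nil2 (n := 44) (R := k) h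
  rw [ev_addm2 (two_k k) ((gd_zero 44 0).good (by omega)), expo_zero, h5] at h6
  · have h7 : monomial (0 : Fin 44 →₀ ℕ) (1 : k) = 1 := rfl
    rw [h7, one_mul, qev_t] at h6
    have h8 : fe k 44 x = monomial (expo 44 x.1) 1 + x.2.ev 44 k := rfl
    rw [h8]
    apply eq_of_add_two (two_P k)
    rw [add_comm]
    exact h6
  · exact ⟨hx.1, qAll_mono hx.2 fun t ht => ht.1⟩

theorem T49_El : ∀ x ∈ T49, El 44 W44 x := fun x hx =>
  el_sound C44_ok W44_ok x ((al_iff _ _).mp T49_el x hx)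

/-- The ideal generated by the 49 elements. -/
def IG : Ideal (MvPolynomial (Fin 44) k) := Ideal.span (Set.range (fa' k 44 T49))

omit [CharP k 2] in
theorem IG_lead (i : Fin T49.length) : IsLead (kw 44 W44) (fa' k 44 T49 i) (fL 44 T49 i) :=
  lead_el k W44 _ (T49_El _ (List.get_mem T49 i))

theorem IG_ok (i j : Fin T49.length) : OK (kw 44 W44) ∅ (fa' k 44 T49) (fL 44 T49) i j :=
  gb2_sound C44_ok k (two_k k) W44 vkT T49 T49_El T49_pw i j

/-- The ideal of the quadrics. -/
def JQ : Ideal (MvPolynomial (Fin 44) k) :=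
  Ideal.span {q | ∃ I : Fin 15, q = (PlF lP I).re.ev (va k) ∨ q = (PlF lP I).im.ev (va k)}

/-- The first cubic. -/
def F1p : MvPolynomial (Fin 44) k := (pfF (fun p => Ex.v (15 + p))).ev (va k)

/-- The second cubic. -/
def F2p : MvPolynomial (Fin 44) k := (pfT Ex.v (fun p => Ex.v (15 + p))).ev (va k)

omit [CharP k 2] in
theorem lsum_mem {β : Type} (J : Ideal (MvPolynomial (Fin 44) k)) (f : β → Ex)
    (h : ∀ b, (f b).ev (va k) ∈ J) (l : List (Ex × β)) : (lsum f l).ev (va k) ∈ J := by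
  induction l with
  | nil => exact J.zero_mem
  | cons x l ih =>
    change x.1.ev (va k) * (f x.2).ev (va k) + (lsum f l).ev (va k) ∈ J
    exact J.add_mem (J.mul_mem_left _ (h _)) ih

theorem IG_le : IG k ≤ JQ k ⊔ Ideal.span {F1p k, F2p k} := by
  unfold IG
  rw [Ideal.span_le]
  rintro g ⟨i, rfl⟩
  obtain ⟨c, hc⟩ := al2_sound _ _ _ T49_mem (T49.get i) (List.get_mem T49 i)
  have h1 : fa' k 44 T49 i = (memE c).ev (va k) :=
    memchk_sound k _ (T49_El _ (List.get_mem T49 i)) _ hc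
  rw [h1]
  have h2 : (memE c).ev (va k) = (qsum c.1).ev (va k) +
      (c.2.1.ev (va k) * F1p k + c.2.2.ev (va k) * F2p k) := rfl
  rw [h2]
  refine Ideal.add_mem _ (Ideal.mem_sup_left ?_) (Ideal.mem_sup_right ?_)
  · have h3 : (qsum c.1).ev (va k) = (lsum (fun I => (PlF lP I).re) c.1.1).ev (va k) +
      (lsum (fun I => (PlF lP I).im) c.1.2).ev (va k) := rfl
    rw [h3]
    refine Ideal.add_mem _ ?_ ?_
    · exact lsum_mem k (JQ k) _ (fun I => Ideal.subset_span ⟨I, Or.inl rfl⟩) _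
    · exact lsum_mem k (JQ k) _ (fun I => Ideal.subset_span ⟨I, Or.inr rfl⟩) _
  · refine Ideal.add_mem _ (Ideal.mul_mem_left _ _ (Ideal.subset_span ?_))
      (Ideal.mul_mem_left _ _ (Ideal.subset_span ?_))
    · exact Set.mem_insert _ _
    · exact Set.mem_insert_of_mem _ rfl

theorem getD_mem (n : ℕ) (hn : n < T49.length) (e : Ex)
    (h : memchk (T49.getD n (0, .z)) e = true) : e.ev (va k) ∈ IG k := by
  have h1 : T49.getD n (0, .z) = T49.get ⟨n, hn⟩ := by
    rw [List.getD_eq_getElem?_getD, List.getElem?_eq_getElem hn]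
    rfl
  rw [h1] at h
  rw [← memchk_sound k _ (T49_El _ (List.get_mem T49 ⟨n, hn⟩)) _ h]
  exact Ideal.subset_span ⟨⟨n, hn⟩, rfl⟩

theorem re_mem (I : Fin 15) : (PlF lP I).re.ev (va k) ∈ IG k :=
  getD_mem k _ (qre_lt I) _ (T49_re I)

theorem im_mem (I : Fin 15) : (PlF lP I).im.ev (va k) ∈ IG k :=
  getD_mem k _ (qim_lt I) _ (T49_im I)

/-! ### The nonzerodivisor -/

/-- The norm of `Z₁₂`. -/
def exN : Ex := Ex.v 0 * Ex.v 0 + ((Ex.v 30 * Ex.v 0) * Ex.v 15 + (Ex.v 31 * Ex.v 15) * Ex.v 15)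

/-- The norm of `Z₁₂` as an element of the list type. -/
def elN : Nat × Q := (Nat.mul 2 (vk 0), .t (Nat.add (vk 30) (Nat.add (vk 0) (vk 15)))
  (.t (Nat.add (vk 31) (Nat.mul 2 (vk 15))) .z))

theorem elN_ok : elOK C44.G W44 elN = true := by decide +kernel

theorem elN_mem : memchk elN exN = true := by decide +kernel

theorem elN_disj : al (fun x => disj C44.F C44.G' x.1 elN.1) T49 = true := by decide +kernel

/-- The norm. -/
def Np : MvPolynomial (Fin 44) k := exN.ev (va k)

theorem nzd_N (p : MvPolynomial (Fin 44) k) (hp : Np k * p ∈ IG k) : p ∈ IG k := by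
  have hN := el_sound C44_ok W44_ok elN elN_ok
  have h1 : fe k 44 elN = Np k := memchk_sound k _ hN _ elN_mem
  rw [← h1] at hp
  refine nzd_lead (kw 44 W44) (fa' k 44 T49) (fL 44 T49) (IG_lead k) (IG_ok k) (fe k 44 elN)
    (expo 44 elN.1) (lead_el k W44 _ hN) (fun i v => ?_) p hp
  exact disj_sound C44_ok (T49_El _ (List.get_mem T49 i)).1 hN.1
    ((al_iff _ _).mp elN_disj _ (List.get_mem T49 i)) v

/-! ### Elimination of the dependent variables -/

/-- The kept variables. -/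
def inVv (v : Nat) : Bool := (Nat.blt v 9 || (Nat.ble 15 v && Nat.blt v 24) || Nat.ble 30 v) &&
  Nat.blt v 44

/-- The expression contains only kept variables. -/
def Ex.inV (e : Ex) : Bool :=
  Ex.rec true true (fun i => inVv i) (fun _ _ p q => p && q) (fun _ _ p q => p && q) e

/-- The conjugate of `Z₁₂`. -/
def cj : PEx := ⟨Ex.v 0 + Ex.v 30 * Ex.v 15, Ex.v 15⟩

/-- The products in the relations. -/
def rhsP : Fin 6 → PEx :=
  ![cj * (lP 1 * lP 6 + lP 2 * lP 5), cj * (lP 1 * lP 7 + lP 3 * lP 5),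
    cj * (lP 1 * lP 8 + lP 4 * lP 5), cj * (lP 2 * lP 7 + lP 3 * lP 6),
    cj * (lP 2 * lP 8 + lP 4 * lP 6), cj * (lP 3 * lP 8 + lP 4 * lP 7)]

theorem chkN_re : ∀ t : Fin 6, Ex.chk vk 44 ((exN * Ex.v (9 + t) + (rhsP t).re) +
    (cj.re * (PlF lP ⟨t, by omega⟩).re + Ex.v 31 * (cj.im * (PlF lP ⟨t, by omega⟩).im))) = true := by
  decide +kernel

theorem chkN_im : ∀ t : Fin 6, Ex.chk vk 44 ((exN * Ex.v (24 + t) + (rhsP t).im) +
    (cj.re * (PlF lP ⟨t, by omega⟩).im + (cj.im * (PlF lP ⟨t, by omega⟩).re +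
      Ex.v 30 * (cj.im * (PlF lP ⟨t, by omega⟩).im)))) = true := by
  decide +kernel

theorem rhs_inV : ∀ t : Fin 6, (rhsP t).re.inV = true ∧ (rhsP t).im.inV = true := by
  decide +kernel

/-- The subalgebra of the kept variables. -/
def VS : Subalgebra k (MvPolynomial (Fin 44) k) :=
  Algebra.adjoin k {q | ∃ v, inVv v = true ∧ q = va k v}

omit [CharP k 2] in
theorem va_VS (v : ℕ) (hv : inVv v = true) : va k v ∈ VS k :=
  Algebra.subset_adjoin ⟨v, hv, rfl⟩

omit [CharP k 2] in
theorem ev_VS (e : Ex) (h : e.inV = true) : e.ev (va k) ∈ VS k := by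
  induction e with
  | z => exact Subalgebra.zero_mem _
  | o => exact Subalgebra.one_mem _
  | v i => exact va_VS k i h
  | a e f he hf =>
    have h' : (e.inV && f.inV) = true := h
    rw [Bool.and_eq_true] at h'
    exact Subalgebra.add_mem _ (he h'.1) (hf h'.2)
  | m e f he hf =>
    have h' : (e.inV && f.inV) = true := h
    rw [Bool.and_eq_true] at h'
    exact Subalgebra.mul_mem _ (he h'.1) (hf h'.2)

theorem elim_var (v : ℕ) (hv : v < 44) : ∃ r ∈ VS k, Np k * va k v - r ∈ IG k := by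
  by_cases h : inVv v = true
  · exact ⟨Np k * va k v, Subalgebra.mul_mem _ (ev_VS k _ (by decide)) (va_VS k v h), by
      rw [sub_self]
      exact Ideal.zero_mem _⟩
  · have h' : (9 ≤ v ∧ v < 15) ∨ (24 ≤ v ∧ v < 30) := by
      by_contra hc
      apply h
      have h1 : v < 9 ∨ (15 ≤ v ∧ v < 24) ∨ 30 ≤ v := by omega
      interval_cases v <;> first | rfl | omega
    have two := two_P k
    rcases h' with h' | h'
    · obtain ⟨t, rfl⟩ : ∃ t : Fin 6, v = 9 + t := ⟨⟨v - 9, by omega⟩, by simp only; omega⟩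
      have h1 := Ex.eq_zero (two_P k) (va k) _ (chkN_re t)
      have h3 : Np k * va k (9 + t) + (rhsP t).re.ev (va k) +
          (cj.re.ev (va k) * (PlF lP ⟨t, by omega⟩).re.ev (va k) + va k 31 *
          (cj.im.ev (va k) * (PlF lP ⟨t, by omega⟩).im.ev (va k))) = 0 := h1
      refine ⟨(rhsP t).re.ev (va k), ev_VS k _ (rhs_inV t).1, ?_⟩
      have h4 : Np k * va k (9 + t) - (rhsP t).re.ev (va k) =
          -(cj.re.ev (va k) * (PlF lP ⟨t, by omega⟩).re.ev (va k) + va k 31 *
          (cj.im.ev (va k) * (PlF lP ⟨t, by omega⟩).im.ev (va k))) := by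
        linear_combination h3 - (rhsP t).re.ev (va k) * two
      rw [h4]
      exact Ideal.neg_mem_iff _ |>.mpr (Ideal.add_mem _ (Ideal.mul_mem_left _ _ (re_mem k _))
        (Ideal.mul_mem_left _ _ (Ideal.mul_mem_left _ _ (im_mem k _))))
    · obtain ⟨t, rfl⟩ : ∃ t : Fin 6, v = 24 + t := ⟨⟨v - 24, by omega⟩, by simp only; omega⟩
      have h1 := Ex.eq_zero (two_P k) (va k) _ (chkN_im t)
      have h3 : Np k * va k (24 + t) + (rhsP t).im.ev (va k) +
          (cj.re.ev (va k) * (PlF lP ⟨t, by omega⟩).im.ev (va k) +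
          (cj.im.ev (va k) * (PlF lP ⟨t, by omega⟩).re.ev (va k) + va k 30 *
          (cj.im.ev (va k) * (PlF lP ⟨t, by omega⟩).im.ev (va k)))) = 0 := h1
      refine ⟨(rhsP t).im.ev (va k), ev_VS k _ (rhs_inV t).2, ?_⟩
      have h4 : Np k * va k (24 + t) - (rhsP t).im.ev (va k) =
          -(cj.re.ev (va k) * (PlF lP ⟨t, by omega⟩).im.ev (va k) +
          (cj.im.ev (va k) * (PlF lP ⟨t, by omega⟩).re.ev (va k) + va k 30 *
          (cj.im.ev (va k) * (PlF lP ⟨t, by omega⟩).im.ev (va k)))) := by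
        linear_combination h3 - (rhsP t).im.ev (va k) * two
      rw [h4]
      exact Ideal.neg_mem_iff _ |>.mpr (Ideal.add_mem _ (Ideal.mul_mem_left _ _ (im_mem k _))
        (Ideal.add_mem _ (Ideal.mul_mem_left _ _ (re_mem k _))
          (Ideal.mul_mem_left _ _ (Ideal.mul_mem_left _ _ (im_mem k _)))))

theorem elim_all (q : MvPolynomial (Fin 44) k) :
    ∃ m : ℕ, ∃ r ∈ VS k, Np k ^ m * q - r ∈ IG k := by
  have hN : Np k ∈ VS k := ev_VS k _ (by decide)
  induction q using MvPolynomial.induction_on with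
  | C c => exact ⟨0, C c, Subalgebra.algebraMap_mem _ c, by
      rw [pow_zero, one_mul, sub_self]
      exact Ideal.zero_mem _⟩
  | add p q hp hq =>
    obtain ⟨m, r, hr, h1⟩ := hp
    obtain ⟨n, s, hs, h2⟩ := hq
    refine ⟨m + n, Np k ^ n * r + Np k ^ m * s, Subalgebra.add_mem _
      (Subalgebra.mul_mem _ (Subalgebra.pow_mem _ hN _) hr)
      (Subalgebra.mul_mem _ (Subalgebra.pow_mem _ hN _) hs), ?_⟩
    have h3 : Np k ^ (m + n) * (p + q) - (Np k ^ n * r + Np k ^ m * s) =
        Np k ^ n * (Np k ^ m * p - r) + Np k ^ m * (Np k ^ n * q - s) := by ring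
    rw [h3]
    exact Ideal.add_mem _ (Ideal.mul_mem_left _ _ h1) (Ideal.mul_mem_left _ _ h2)
  | mul_X p v hp =>
    obtain ⟨m, r, hr, h1⟩ := hp
    obtain ⟨s, hs, h2⟩ := elim_var k v v.2
    have hv : va k v = X v := by
      unfold va
      rw [dif_pos v.2]
    rw [hv] at h2
    refine ⟨m + 1, r * s, Subalgebra.mul_mem _ hr hs, ?_⟩
    have h3 : Np k ^ (m + 1) * (p * X v) - r * s =
        Np k * X v * (Np k ^ m * p - r) + r * (Np k * X v - s) := by ring
    rw [h3]
    exact Ideal.add_mem _ (Ideal.mul_mem_left _ _ h1) (Ideal.mul_mem_left _ _ h2)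

/-- The kernel of the first homomorphism. -/
theorem ker1 {F : Type*} [Field F] [Algebra k F] [Algebra (MvPolynomial (Fin 44) k) F]
    [IsScalarTower k (MvPolynomial (Fin 44) k) F]
    (hinj : Function.Injective (algebraMap (MvPolynomial (Fin 44) k) F))
    (η : MvPolynomial (Fin 44) k →ₐ[k] F)
    (hη : ∀ v, inVv v = true → η (va k v) = algebraMap _ F (va k v))
    (hI : ∀ q ∈ IG k, η q = 0) (q : MvPolynomial (Fin 44) k) (hq : η q = 0) : q ∈ IG k := by
  obtain ⟨m, r, hr, h1⟩ := elim_all k q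
  have h2 := hI _ h1
  rw [map_sub, map_mul, hq, mul_zero, zero_sub, neg_eq_zero] at h2
  have h3 : ∀ r ∈ VS k, η r = algebraMap _ F r := by
    intro r hr
    unfold VS at hr
    induction hr using Algebra.adjoin_induction with
    | mem x hx =>
      obtain ⟨v, hv, rfl⟩ := hx
      exact hη v hv
    | algebraMap c =>
      rw [AlgHom.commutes, ← IsScalarTower.algebraMap_apply]
    | add x y _ _ hx hy => rw [map_add, map_add, hx, hy]
    | mul x y _ _ hx hy => rw [map_mul, map_mul, hx, hy]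
  rw [h3 r hr] at h2
  have h4 : r = 0 := hinj (by rw [h2, map_zero])
  rw [h4, sub_zero] at h1
  clear h2 h4 hr hq
  induction m with
  | zero => rwa [pow_zero, one_mul] at h1
  | succ m ih =>
    apply ih
    apply nzd_N k
    rw [← mul_assoc, ← pow_succ']
    exact h1

end K1

end

end Pool.Agent.Helper90.Hilb8C
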