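import Pool.Agent.Helper90.Hilb8C.Ker1
import Pool.Agent.Helper90.Hilb8C.Fam1
import Pool.Agent.Helper90.Hilb8C.Fam2
import Pool.Agent.Helper28.Hilb8.Loc

/-!
# The local ring of chart c at the origin in characteristic 2
-/

set_option maxRecDepth 100000

universe u

namespace Pool.Agent.Helper90.Hilb8C

open MvPolynomial Pool.Agent.Helper97.Hilb8 Pool.Agent.Helper28.Hilb8

noncomputable section

section K2

variable (k : Type*) [Field k] [CharP k 2]

theorem map_pfF {R R' : Type*} [CommRing R] [CommRing R'] (g : R →+* R') (y : ℕ → R) :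
    g (pfF y) = pfF (fun p => g (y p)) := by
  simp only [pfF, map_add, map_mul]

/-- Images of values of expressions. -/
theorem Psi_ev (e : Ex) (hb : e.bd 44 = true) : Psi k (e.ev (va k)) = e.ev (ptab k) := by
  rw [Ex.map_ev (Psi k) (va k) e]
  exact Ex.ev_congr _ _ 44 (fun i hi => Psi_va k i hi) e hb

/-- Restriction to the first 38 variables. -/
theorem Psi_ev38 (e : Ex) (hb : e.bd 38 = true) :
    Psi k (e.ev (va k)) = e.ev (env (xs k) (ys k) (xb k 48) (xb k 52)) := by
  rw [Ex.map_ev (Psi k) (va k) e]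
  refine Ex.ev_congr _ _ 38 (fun i hi => ?_) e hb
  rw [Psi_va k i (by omega)]
  unfold ptab
  rw [if_pos hi]

theorem bd_re : ∀ I : Fin 15, (PlF lP I).re.bd 38 = true ∧ (PlF lP I).im.bd 38 = true := by
  decide +kernel

theorem bd_f : (pfF (fun p => Ex.v (15 + p))).bd 38 = true ∧
    (pfT Ex.v (fun p => Ex.v (15 + p))).bd 38 = true := by
  decide +kernel

theorem Psi_JQ (q : MvPolynomial (Fin 44) k) (hq : q ∈ JQ k) : Psi k q = 0 := by
  have h : JQ k ≤ RingHom.ker (Psi k) := by
    unfold JQ
    rw [Ideal.span_le]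
    rintro g ⟨I, rfl | rfl⟩
    · rw [SetLike.mem_coe, RingHom.mem_ker, Psi_ev38 k _ (bd_re I).1]
      exact congrArg QuadraticAlgebra.re (Pl_zero (xs k) (ys k) (xb k 48) (xb k 52) (gr_Pl k) I)
    · rw [SetLike.mem_coe, RingHom.mem_ker, Psi_ev38 k _ (bd_re I).2]
      exact congrArg QuadraticAlgebra.im (Pl_zero (xs k) (ys k) (xb k 48) (xb k 52) (gr_Pl k) I)
  exact h hq

theorem Psi_F1 : Psi k (F1p k) = f1 k := by
  unfold F1p
  rw [Psi_ev38 k _ bd_f.1]
  rfl

theorem Psi_F2 : Psi k (F2p k) = f2 k := by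
  unfold F2p
  rw [Psi_ev38 k _ bd_f.2]
  rfl

/-! ### The second kernel -/

/-- The polynomial ring in `Y`, `a`, `e`, `c`. -/
abbrev BB : Type _ := MvPolynomial (Fin 24) k

/-- The variables. -/
def vb (v : ℕ) : BB k := if h : v < 24 then X ⟨v, h⟩ else 0

/-- The values of the variables in the ring of lowest forms. -/
def psiB : BB k →+* GR k :=
  MvPolynomial.eval₂Hom ((mkG k).comp MvPolynomial.C) (fun v : Fin 24 =>
    if (v : ℕ) < 15 then ys k v else if (v : ℕ) < 18 then xs k v
    else if (v : ℕ) < 21 then ys k (v - 3) else xb k (v + 32))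

theorem psiB_C (r : k) : psiB k (C r) = mkG k (C r) := by
  unfold psiB
  rw [MvPolynomial.coe_eval₂Hom, MvPolynomial.eval₂_C]
  rfl

theorem psiB_v (v : ℕ) (hv : v < 24) : psiB k (vb k v) =
    if v < 15 then ys k v else if v < 18 then xs k v
    else if v < 21 then ys k (v - 3) else xb k (v + 32) := by
  unfold vb psiB
  rw [dif_pos hv, MvPolynomial.coe_eval₂Hom, MvPolynomial.eval₂_X]

/-- The sequence `f₁, f₂, δ f₁, δ f₂, …`. -/
def Ef (n : ℕ) : GR k := xb k 48 ^ (n / 2) * (if n % 2 = 0 then f1 k else f2 k)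

theorem Ef_add (n : ℕ) : Ef k (n + 2) = xb k 48 * Ef k n := by
  unfold Ef
  have h1 : (n + 2) / 2 = n / 2 + 1 := by omega
  have h2 : (n + 2) % 2 = n % 2 := by omega
  rw [h1, h2, pow_succ]
  ring

theorem Ef_even (m : ℕ) : Ef k (2 * m) = xb k 48 ^ m * f1 k := by
  unfold Ef
  rw [if_pos (by omega), Nat.mul_div_cancel_left _ (by norm_num)]

theorem Ef_odd (m : ℕ) : Ef k (2 * m + 1) = xb k 48 ^ m * f2 k := by
  unfold Ef
  rw [if_neg (by omega)]
  congr 2
  omega

theorem Ef_X (p : ℕ) (hp : p < 15) (n : ℕ) : ys k p * Ef k (n + 1) = xs k p * Ef k n := by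
  rcases Nat.even_or_odd' n with ⟨m, rfl | rfl⟩
  · rw [Ef_even, Ef_odd]
    linear_combination -(xb k 48 ^ m) * gr_X k p hp
  · rw [Ef_odd, show 2 * m + 1 + 1 = 2 * (m + 1) by ring, Ef_even, pow_succ]
    linear_combination (xb k 48 ^ m) * gr_Y k p hp

theorem Ef_tau (n : ℕ) : xb k 52 * Ef k n = 0 := by
  rcases Nat.even_or_odd' n with ⟨m, rfl | rfl⟩
  · rw [Ef_even]
    linear_combination (xb k 48 ^ m) * gr_T1 k
  · rw [Ef_odd]
    linear_combination (xb k 48 ^ m) * gr_T2 k

theorem Ef_b (j : Fin 3) (n : ℕ) : cc k j * Ef k (n + 1) = bb k j * Ef k n := by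
  have h2 := two_GR k
  obtain ⟨h3, h4⟩ := gr_bc k j
  rcases Nat.even_or_odd' n with ⟨m, rfl | rfl⟩
  · rw [Ef_even, Ef_odd]
    linear_combination (xb k 48 ^ m) * h3 - (xb k 48 ^ m * (bb k j * f1 k)) * h2
  · rw [Ef_odd, show 2 * m + 1 + 1 = 2 * (m + 1) by ring, Ef_even, pow_succ]
    linear_combination (xb k 48 ^ m) * h4 - (xb k 48 ^ m * (bb k j * f2 k)) * h2

/-- The linear map. -/
def LB (u : Polynomial (BB k)) : GR k := u.sum fun n b => psiB k b * Ef k n

theorem LB_add (u v : Polynomial (BB k)) : LB k (u + v) = LB k u + LB k v := by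
  unfold LB
  apply Polynomial.sum_add_index
  · intro n
    rw [map_zero, zero_mul]
  · intro n a b
    rw [map_add, add_mul]

theorem LB_mon (n : ℕ) (b : BB k) : LB k (Polynomial.monomial n b) = psiB k b * Ef k n := by
  unfold LB
  rw [Polynomial.sum_monomial_index]
  rw [map_zero, zero_mul]

theorem LB_zero : LB k 0 = 0 := by
  unfold LB
  rw [Polynomial.sum_zero_index]

/-- The coordinates of the second family. -/
def ylB (p : ℕ) : Polynomial (BB k) :=
  Polynomial.C (if p < 15 then vb k p else if p < 18 then vb k (p + 3) else 0)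

/-- The second family. -/
def D2 : FamData (Polynomial (BB k)) (M2 (PowerSeries (Polynomial (BB k)))) :=
  fam2 (by
    have h := congrArg (algebraMap k (Polynomial (BB k))) (two_k k)
    rw [map_zero] at h
    rw [← h]
    exact (map_ofNat (algebraMap k (Polynomial (BB k))) 2).symm) (ylB k)
    (fun j => Polynomial.C (vb k (15 + j))) Polynomial.X (fun j => Polynomial.C (vb k (21 + j)))

theorem two_PB : (2 : Polynomial (BB k)) = 0 := by
  have h := congrArg (algebraMap k (Polynomial (BB k))) (two_k k)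
  rw [map_zero] at h
  rw [← h]
  exact (map_ofNat (algebraMap k (Polynomial (BB k))) 2).symm

/-- The second homomorphism. -/
def eta2 : MvPolynomial (Fin 44) k →ₐ[k] Polynomial (BB k) := eta k (D2 k)

theorem eta2_va (v : ℕ) (hv : v < 44) : eta2 k (va k v) = etab (D2 k) v := by
  unfold eta2 eta va
  rw [dif_pos hv, MvPolynomial.aeval_X]

theorem D2_c (p : ℕ) (hp : p < 18) : lof (D2 k).c p =
    xl (ylB k) (fun j => Polynomial.C (vb k (15 + j))) Polynomial.X p :=
  lof_cF (two_PB k) _ p hp

theorem D2_t (p : ℕ) (hp : p < 18) : lof (D2 k).t p = ylB k p :=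
  lof_cF (two_PB k) _ p hp

theorem eta2_x (p : ℕ) (hp : p < 15) : eta2 k (va k p) =
    Polynomial.X * Polynomial.C (vb k p) := by
  rw [eta2_va k p (by omega), etab, if_pos (by omega), env_x _ _ _ _ p hp, D2_c k p (by omega)]
  unfold xl ylB
  rw [if_pos hp, if_pos hp]

theorem eta2_y (p : ℕ) (hp : p < 15) : eta2 k (va k (15 + p)) = Polynomial.C (vb k p) := by
  rw [eta2_va k _ (by omega), etab, if_pos (by omega), env_y _ _ _ _ p hp, D2_t k p (by omega)]
  unfold ylB
  rw [if_pos hp]

theorem eta2_tau : eta2 k (va k 30) = 0 := by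
  rw [eta2_va k _ (by omega)]
  rfl

theorem eta2_delta : eta2 k (va k 31) = Polynomial.X * Polynomial.X := by
  rw [eta2_va k _ (by omega)]
  rfl

theorem eta2_a (j : Fin 3) : eta2 k (va k (32 + j)) = Polynomial.C (vb k (15 + j)) := by
  rw [eta2_va k _ (by omega), etab, if_pos (by omega)]
  have h1 : env (lof (D2 k).c) (lof (D2 k).t) (D2 k).δ (D2 k).τ (32 + j) =
      lof (D2 k).c (15 + j) := by
    fin_cases j <;> rfl
  rw [h1, D2_c k _ (by omega)]
  unfold xl
  rw [if_neg (by omega), dif_pos (by omega)]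
  congr 2
  change 15 + (j : ℕ) - 15 = j
  omega

theorem eta2_e (j : Fin 3) : eta2 k (va k (35 + j)) = Polynomial.C (vb k (18 + j)) := by
  rw [eta2_va k _ (by omega), etab, if_pos (by omega)]
  have h1 : env (lof (D2 k).c) (lof (D2 k).t) (D2 k).δ (D2 k).τ (35 + j) =
      lof (D2 k).t (15 + j) := by
    fin_cases j <;> rfl
  rw [h1, D2_t k _ (by omega)]
  unfold ylB
  rw [if_neg (by omega), if_pos (by omega)]
  congr 2
  omega

theorem eta2_b (j : Fin 3) : eta2 k (va k (38 + j)) =
    Polynomial.X * Polynomial.C (vb k (21 + j)) := by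
  rw [eta2_va k _ (by omega)]
  fin_cases j <;> rfl

theorem eta2_c (j : Fin 3) : eta2 k (va k (41 + j)) = Polynomial.C (vb k (21 + j)) := by
  rw [eta2_va k _ (by omega)]
  fin_cases j <;> rfl

theorem LB_lin (P : Polynomial (BB k)) (x : GR k)
    (h : ∀ n b, LB k (P * Polynomial.monomial n b) = x * (psiB k b * Ef k n))
    (u : Polynomial (BB k)) : LB k (P * u) = x * LB k u := by
  induction u using Polynomial.induction_on' with
  | add p q hp hq => rw [mul_add, LB_add, LB_add, hp, hq, mul_add]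
  | monomial n b => rw [h, LB_mon]

theorem LB_C (b : BB k) (u : Polynomial (BB k)) :
    LB k (Polynomial.C b * u) = psiB k b * LB k u := by
  apply LB_lin
  intro n c
  rw [Polynomial.C_mul_monomial, LB_mon, map_mul]
  ring

theorem LB_XC (b : BB k) (x : GR k) (hx : ∀ n, psiB k b * Ef k (n + 1) = x * Ef k n)
    (u : Polynomial (BB k)) : LB k (Polynomial.X * Polynomial.C b * u) = x * LB k u := by
  apply LB_lin
  intro n c
  rw [mul_assoc, Polynomial.C_mul_monomial, Polynomial.X_mul_monomial, LB_mon, map_mul]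
  linear_combination psiB k c * hx n

theorem LB_var (v : ℕ) (hv : v < 44) (u : Polynomial (BB k)) :
    LB k (eta2 k (va k v) * u) = Psi k (va k v) * LB k u := by
  by_cases h1 : v < 15
  · rw [eta2_x k v h1, Psi_va k v hv]
    apply LB_XC
    intro n
    rw [psiB_v k v (by omega), if_pos h1, Ef_X k v h1]
    congr 1
    unfold ptab
    rw [if_pos (by omega), env_x _ _ _ _ v h1]
  · by_cases h2 : v < 30
    · obtain ⟨p, rfl⟩ : ∃ p, v = 15 + p := ⟨v - 15, by omega⟩
      rw [eta2_y k p (by omega), Psi_va k _ hv, LB_C, psiB_v k p (by omega), if_pos (by omega)]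
      congr 1
      unfold ptab
      rw [if_pos (by omega), env_y _ _ _ _ p (by omega)]
    · by_cases h3 : v = 30
      · subst h3
        rw [eta2_tau, zero_mul, LB_zero, Psi_va k _ hv]
        change 0 = xb k 52 * LB k u
        induction u using Polynomial.induction_on' with
        | add p q hp hq => rw [LB_add, mul_add, ← hp, ← hq, add_zero]
        | monomial n b =>
          rw [LB_mon]
          linear_combination -(psiB k b) * Ef_tau k n
      · by_cases h4 : v = 31
        · subst h4
          rw [eta2_delta, Psi_va k _ hv]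
          apply LB_lin
          intro n c
          rw [mul_assoc, Polynomial.X_mul_monomial, Polynomial.X_mul_monomial, LB_mon, Ef_add]
          change _ = xb k 48 * _
          ring
        · by_cases h5 : v < 35
          · obtain ⟨j, rfl⟩ : ∃ j : Fin 3, v = 32 + j := ⟨⟨v - 32, by omega⟩, by simp only; omega⟩
            rw [eta2_a, Psi_va k _ hv, LB_C, psiB_v k _ (by omega), if_neg (by omega),
              if_pos (by omega)]
            congr 1
            fin_cases j <;> rfl
          · by_cases h6 : v < 38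
            · obtain ⟨j, rfl⟩ : ∃ j : Fin 3, v = 35 + j :=
                ⟨⟨v - 35, by omega⟩, by simp only; omega⟩
              rw [eta2_e, Psi_va k _ hv, LB_C, psiB_v k _ (by omega), if_neg (by omega),
                if_neg (by omega), if_pos (by omega)]
              congr 1
              fin_cases j <;> rfl
            · by_cases h7 : v < 41
              · obtain ⟨j, rfl⟩ : ∃ j : Fin 3, v = 38 + j :=
                  ⟨⟨v - 38, by omega⟩, by simp only; omega⟩
                rw [eta2_b, Psi_va k _ hv]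
                apply LB_XC
                intro n
                have e1 : psiB k (vb k (21 + j)) = cc k j := by
                  rw [psiB_v k _ (by omega), if_neg (by omega), if_neg (by omega),
                    if_neg (by omega)]
                  fin_cases j <;> rfl
                have e2 : ptab k (38 + j) = bb k j := by
                  fin_cases j <;> rfl
                rw [e1, e2, Ef_b]
              · obtain ⟨j, rfl⟩ : ∃ j : Fin 3, v = 41 + j :=
                  ⟨⟨v - 41, by omega⟩, by simp only; omega⟩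
                rw [eta2_c, Psi_va k _ hv, LB_C]
                have e1 : psiB k (vb k (21 + j)) = cc k j := by
                  rw [psiB_v k _ (by omega), if_neg (by omega), if_neg (by omega),
                    if_neg (by omega)]
                  fin_cases j <;> rfl
                have e2 : ptab k (41 + j) = cc k j := by
                  fin_cases j <;> rfl
                rw [e1, e2]

theorem LB_all (q : MvPolynomial (Fin 44) k) : ∀ u : Polynomial (BB k),
    LB k (eta2 k q * u) = Psi k q * LB k u := by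
  induction q using MvPolynomial.induction_on with
  | C r =>
    intro u
    have h1 : eta2 k (C r) = Polynomial.C (C r) := by
      rw [MvPolynomial.algHom_C]
      rfl
    rw [h1, LB_C, psiB_C, Psi_C]
  | add p q hp hq =>
    intro u
    rw [map_add, map_add, add_mul, add_mul, LB_add, hp, hq]
  | mul_X p v hp =>
    intro u
    have hv : va k v = X v := by
      unfold va
      rw [dif_pos v.2]
    rw [map_mul, map_mul, mul_assoc, hp, ← hv, LB_var k v v.2, mul_assoc]

theorem LB_one : LB k 1 = f1 k := by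
  have h := LB_mon k 0 1
  rw [map_one (psiB k), one_mul] at h
  have h1 : (Polynomial.monomial 0) (1 : BB k) = 1 := rfl
  rw [h1] at h
  rw [h]
  unfold Ef
  simp

theorem LB_X : LB k Polynomial.X = f2 k := by
  have h := LB_mon k 1 1
  rw [map_one (psiB k), one_mul] at h
  have h1 : (Polynomial.monomial 1) (1 : BB k) = Polynomial.X := rfl
  rw [h1] at h
  rw [h]
  unfold Ef
  simp

omit [CharP k 2] in
theorem pfF_congr {R : Type*} [CommRing R] (y y' : ℕ → R) (h : ∀ p < 15, y p = y' p) :
    pfF y = pfF y' := by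
  have h0 := h 0 (by norm_num)
  have h1 := h 1 (by norm_num)
  have h2 := h 2 (by norm_num)
  have h3 := h 3 (by norm_num)
  have h4 := h 4 (by norm_num)
  have h5 := h 5 (by norm_num)
  have h6 := h 6 (by norm_num)
  have h7 := h 7 (by norm_num)
  have h8 := h 8 (by norm_num)
  have h9 := h 9 (by norm_num)
  have h10 := h 10 (by norm_num)
  have h11 := h 11 (by norm_num)
  have h12 := h 12 (by norm_num)
  have h13 := h 13 (by norm_num)
  have h14 := h 14 (by norm_num)
  simp only [pfF, h0, h1, h2, h3, h4, h5, h6, h7, h8, h9, h10, h11, h12, h13, h14]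

/-- The Pfaffian is not zero. -/
theorem eta2_F1 : eta2 k (F1p k) ≠ 0 := by
  intro h
  have h2 := congrArg ((MvPolynomial.aeval (fun v : Fin 24 =>
    if (v : ℕ) = 0 ∨ (v : ℕ) = 9 ∨ (v : ℕ) = 14 then (1 : k) else 0) :
      BB k →ₐ[k] k).toRingHom.comp (Polynomial.evalRingHom 0)) h
  have h3 := map_pfF (((MvPolynomial.aeval (fun v : Fin 24 =>
    if (v : ℕ) = 0 ∨ (v : ℕ) = 9 ∨ (v : ℕ) = 14 then (1 : k) else 0) :
      BB k →ₐ[k] k).toRingHom.comp (Polynomial.evalRingHom 0)).comp
      (eta2 k : MvPolynomial (Fin 44) k →+* Polynomial (BB k))) (fun p => va k (15 + p))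
  have h4 := h3.symm.trans h2
  rw [map_zero] at h4
  rw [pfF_congr _ (fun p => if p = 0 ∨ p = 9 ∨ p = 14 then (1 : k) else 0)] at h4
  · have h5 : pfF (fun p => if p = 0 ∨ p = 9 ∨ p = 14 then (1 : k) else 0) = 1 := by
      simp [pfF]
    rw [h5] at h4
    exact one_ne_zero h4
  · intro p hp
    rw [RingHom.comp_apply, RingHom.comp_apply]
    change (MvPolynomial.aeval _ : BB k →ₐ[k] k) (Polynomial.eval 0 (eta2 k (va k (15 + p)))) = _
    rw [eta2_y k p hp, Polynomial.eval_C]
    unfold vb
    rw [dif_pos (by omega), MvPolynomial.aeval_X]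

theorem eta2_F2 : eta2 k (F2p k) = Polynomial.X * eta2 k (F1p k) := by
  have h1 := congrArg (fbar k (D2 k)) (gr_X k 0 (by norm_num))
  rw [map_mul, map_mul, ← Psi_F1, ← Psi_F2, fbar_Psi, fbar_Psi] at h1
  have h2 : fbar k (D2 k) (xs k 0) = Polynomial.X * Polynomial.C (vb k 0) := by
    rw [fbar_xs, D2_c k 0 (by norm_num)]
    rfl
  have h3 : fbar k (D2 k) (ys k 0) = Polynomial.C (vb k 0) := by
    rw [fbar_ys, D2_t k 0 (by norm_num)]
    rfl
  rw [h2, h3] at h1
  have h4 : Polynomial.C (vb k 0) ≠ 0 := by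
    rw [Ne, Polynomial.C_eq_zero]
    unfold vb
    rw [dif_pos (by norm_num)]
    exact MvPolynomial.X_ne_zero _
  apply mul_left_cancel₀ h4
  change _ * eta k (D2 k) (F2p k) = _ * (_ * eta k (D2 k) (F1p k))
  rw [← h1]
  ring

/-- The kernel of the presentation. -/
theorem Psi_zero (q : MvPolynomial (Fin 44) k) (h1 : q ∈ IG k) (h2 : eta2 k q = 0) :
    Psi k q = 0 := by
  have h3 := IG_le k h1
  obtain ⟨j, hj, r, hr, rfl⟩ := Submodule.mem_sup.mp h3
  obtain ⟨g1, g2, rfl⟩ := Ideal.mem_span_pair.mp hr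
  have hj0 := Psi_JQ k j hj
  have hj1 : eta2 k j = 0 := by
    have h := fbar_Psi k (D2 k) j
    rw [hj0, map_zero] at h
    exact h.symm
  rw [map_add, map_add, map_mul, map_mul, hj1, zero_add, eta2_F2] at h2
  have h4 : eta2 k g1 + eta2 k g2 * Polynomial.X = 0 := by
    have h5 : (eta2 k g1 + eta2 k g2 * Polynomial.X) * eta2 k (F1p k) = 0 := by
      rw [← h2]
      ring
    exact (mul_eq_zero.mp h5).resolve_right (eta2_F1 k)
  rw [map_add, map_add, map_mul, map_mul, hj0, zero_add, Psi_F1, Psi_F2, ← LB_one, ← LB_X,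
    ← LB_all, ← LB_all, ← LB_add, mul_one, h4, LB_zero]

/-! ### The first kernel -/

/-- The field of the first family. -/
abbrev FF1 : Type _ := FractionRing (MvPolynomial (Fin 44) k)

/-- Variables in the field. -/
def vf (v : ℕ) : FF1 k := algebraMap (MvPolynomial (Fin 44) k) (FF1 k) (va k v)

theorem two_F : (2 : FF1 k) = 0 := by
  have h := congrArg (algebraMap k (FF1 k)) (two_k k)
  rw [map_zero] at h
  rw [← h]
  exact (map_ofNat (algebraMap k (FF1 k)) 2).symm

/-- The quadratic algebra over the field. -/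
abbrev QF1 : Type _ := QuadraticAlgebra (FF1 k) (vf k 31) (vf k 30)

/-- The free coordinates. -/
def zf (p : ℕ) : QF1 k := if p < 15 then ⟨vf k p, vf k (15 + p)⟩ else ⟨vf k (p + 17), vf k (p + 20)⟩

/-- The norm. -/
def nf : FF1 k := vf k 0 * vf k 0 + (vf k 30 * vf k 0 * vf k 15 + vf k 31 * vf k 15 * vf k 15)

/-- The inverse of `Z₁₂`. -/
def uf : QF1 k := ⟨(nf k)⁻¹ * (vf k 0 + vf k 30 * vf k 15), (nf k)⁻¹ * vf k 15⟩

theorem vf_ne (v : ℕ) (hv : v < 44) : vf k v ≠ 0 := by
  unfold vf va
  rw [dif_pos hv]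
  intro h
  exact MvPolynomial.X_ne_zero (R := k) (⟨v, hv⟩ : Fin 44)
    ((IsFractionRing.injective (MvPolynomial (Fin 44) k) (FF1 k)) (by rw [h, map_zero]))

theorem nf_ne : nf k ≠ 0 := by
  have h1 : nf k = algebraMap (MvPolynomial (Fin 44) k) (FF1 k) (Np k) := by
    have h2 : Np k = va k 0 * va k 0 + (va k 30 * va k 0 * va k 15 + va k 31 * va k 15 * va k 15) :=
      rfl
    rw [h2]
    simp only [map_add, map_mul]
    rfl
  rw [h1]
  intro h
  have h3 : Np k = 0 :=
    (IsFractionRing.injective (MvPolynomial (Fin 44) k) (FF1 k)) (by rw [h, map_zero])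
  have hN := el_sound C44_ok W44_ok elN elN_ok
  have h4 : fe k 44 elN = Np k := memchk_sound k _ hN _ elN_mem
  have h5 : coeff (K.expo 44 elN.1) (fe k 44 elN) = 1 := coeff_lead k W44 elN hN
  rw [h4, h3, coeff_zero] at h5
  exact zero_ne_one h5

theorem uf_mul : zf k 0 * uf k = 1 := by
  have h := two_F k
  have hn := nf_ne k
  ext1
  · change vf k 0 * ((nf k)⁻¹ * (vf k 0 + vf k 30 * vf k 15)) +
      vf k 31 * vf k 15 * ((nf k)⁻¹ * vf k 15) = 1
    have h1 : vf k 0 * ((nf k)⁻¹ * (vf k 0 + vf k 30 * vf k 15)) +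
      vf k 31 * vf k 15 * ((nf k)⁻¹ * vf k 15) = (nf k)⁻¹ * nf k := by
      unfold nf
      ring
    rw [h1, inv_mul_cancel₀ hn]
  · change vf k 0 * ((nf k)⁻¹ * vf k 15) + vf k 15 * ((nf k)⁻¹ * (vf k 0 + vf k 30 * vf k 15)) +
      vf k 30 * vf k 15 * ((nf k)⁻¹ * vf k 15) = 0
    linear_combination ((nf k)⁻¹ * vf k 15 * (vf k 0 + vf k 30 * vf k 15)) * h

/-- The coordinates of a decomposable bivector. -/
def lD {D : Type*} [CommRing D] (l : ℕ → D) (u : D) (p : ℕ) : D :=
  if p = 9 then u * (l 1 * l 6 + l 2 * l 5)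
  else if p = 10 then u * (l 1 * l 7 + l 3 * l 5)
  else if p = 11 then u * (l 1 * l 8 + l 4 * l 5)
  else if p = 12 then u * (l 2 * l 7 + l 3 * l 6)
  else if p = 13 then u * (l 2 * l 8 + l 4 * l 6)
  else if p = 14 then u * (l 3 * l 8 + l 4 * l 7)
  else l p

omit [CharP k 2] in
theorem lD_Pl {D : Type*} [CommRing D] (h2 : (2 : D) = 0) (l : ℕ → D) (u : D)
    (hu : l 0 * u = 1) (I : Fin 15) : PlF (lD l u) I = 0 := by
  have e9 : lD l u 9 = u * (l 1 * l 6 + l 2 * l 5) := rfl
  have e10 : lD l u 10 = u * (l 1 * l 7 + l 3 * l 5) := rfl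
  have e11 : lD l u 11 = u * (l 1 * l 8 + l 4 * l 5) := rfl
  have e12 : lD l u 12 = u * (l 2 * l 7 + l 3 * l 6) := rfl
  have e13 : lD l u 13 = u * (l 2 * l 8 + l 4 * l 6) := rfl
  have e14 : lD l u 14 = u * (l 3 * l 8 + l 4 * l 7) := rfl
  have e0 : lD l u 0 = l 0 := rfl
  have e1 : lD l u 1 = l 1 := rfl
  have e2 : lD l u 2 = l 2 := rfl
  have e3 : lD l u 3 = l 3 := rfl
  have e4 : lD l u 4 = l 4 := rfl
  have e5 : lD l u 5 = l 5 := rfl
  have e6 : lD l u 6 = l 6 := rfl
  have e7 : lD l u 7 = l 7 := rfl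
  have e8 : lD l u 8 = l 8 := rfl
  generalize lD l u = L at *
  fin_cases I
  · change L 0 * L 9 + L 1 * L 6 + L 2 * L 5 = 0
    rw [e0, e9, e1, e6, e2, e5]
    linear_combination (l 1 * l 6 + l 2 * l 5) * hu + (l 1 * l 6 + l 2 * l 5) * h2
  · change L 0 * L 10 + L 1 * L 7 + L 3 * L 5 = 0
    rw [e0, e10, e1, e7, e3, e5]
    linear_combination (l 1 * l 7 + l 3 * l 5) * hu + (l 1 * l 7 + l 3 * l 5) * h2
  · change L 0 * L 11 + L 1 * L 8 + L 4 * L 5 = 0
    rw [e0, e11, e1, e8, e4, e5]
    linear_combination (l 1 * l 8 + l 4 * l 5) * hu + (l 1 * l 8 + l 4 * l 5) * h2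
  · change L 0 * L 12 + L 2 * L 7 + L 3 * L 6 = 0
    rw [e0, e12, e2, e7, e3, e6]
    linear_combination (l 2 * l 7 + l 3 * l 6) * hu + (l 2 * l 7 + l 3 * l 6) * h2
  · change L 0 * L 13 + L 2 * L 8 + L 4 * L 6 = 0
    rw [e0, e13, e2, e8, e4, e6]
    linear_combination (l 2 * l 8 + l 4 * l 6) * hu + (l 2 * l 8 + l 4 * l 6) * h2
  · change L 0 * L 14 + L 3 * L 8 + L 4 * L 7 = 0
    rw [e0, e14, e3, e8, e4, e7]
    linear_combination (l 3 * l 8 + l 4 * l 7) * hu + (l 3 * l 8 + l 4 * l 7) * h2
  · change L 1 * L 12 + L 2 * L 10 + L 3 * L 9 = 0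
    rw [e9, e10, e12, e1, e2, e3]
    linear_combination (u * (l 1 * l 2 * l 7 + l 1 * l 3 * l 6 + l 2 * l 3 * l 5)) * h2
  · change L 1 * L 13 + L 2 * L 11 + L 4 * L 9 = 0
    rw [e9, e11, e13, e1, e2, e4]
    linear_combination (u * (l 1 * l 2 * l 8 + l 1 * l 4 * l 6 + l 2 * l 4 * l 5)) * h2
  · change L 1 * L 14 + L 3 * L 11 + L 4 * L 10 = 0
    rw [e10, e11, e14, e1, e3, e4]
    linear_combination (u * (l 1 * l 3 * l 8 + l 1 * l 4 * l 7 + l 3 * l 4 * l 5)) * h2
  · change L 2 * L 14 + L 3 * L 13 + L 4 * L 12 = 0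
    rw [e12, e13, e14, e2, e3, e4]
    linear_combination (u * (l 2 * l 3 * l 8 + l 2 * l 4 * l 7 + l 3 * l 4 * l 6)) * h2
  · change L 5 * L 12 + L 6 * L 10 + L 7 * L 9 = 0
    rw [e9, e10, e12, e5, e6, e7]
    linear_combination (u * (l 5 * l 2 * l 7 + l 5 * l 3 * l 6 + l 6 * l 1 * l 7)) * h2
  · change L 5 * L 13 + L 6 * L 11 + L 8 * L 9 = 0
    rw [e9, e11, e13, e5, e6, e8]
    linear_combination (u * (l 5 * l 2 * l 8 + l 5 * l 4 * l 6 + l 6 * l 1 * l 8)) * h2
  · change L 5 * L 14 + L 7 * L 11 + L 8 * L 10 = 0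
    rw [e10, e11, e14, e5, e7, e8]
    linear_combination (u * (l 5 * l 3 * l 8 + l 5 * l 4 * l 7 + l 7 * l 1 * l 8)) * h2
  · change L 6 * L 14 + L 7 * L 13 + L 8 * L 12 = 0
    rw [e12, e13, e14, e6, e7, e8]
    linear_combination (u * (l 6 * l 3 * l 8 + l 6 * l 4 * l 7 + l 7 * l 2 * l 8)) * h2
  · change L 9 * L 14 + L 10 * L 13 + L 11 * L 12 = 0
    rw [e9, e10, e11, e12, e13, e14]
    linear_combination (u * u * (l 1 * l 6 * l 3 * l 8 + l 1 * l 6 * l 4 * l 7 +
      l 2 * l 5 * l 3 * l 8 + l 2 * l 5 * l 4 * l 7 + l 1 * l 7 * l 2 * l 8 +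
      l 3 * l 5 * l 4 * l 6)) * h2

/-- The coordinates of the first family. -/
def lf : ℕ → QF1 k := lD (zf k) (uf k)

theorem lf_Pl (I : Fin 15) : PlF (fun p => (⟨(lf k p).re, (lf k p).im⟩ : QF1 k)) I = 0 :=
  lD_Pl (qa_two _ _ (two_F k)) (zf k) (uf k) (uf_mul k) I

/-- The first family. -/
def D1 : FamData (FF1 k) (M1 (vf k 31) (vf k 30)) :=
  fam1 (base1 (vf k 31) (vf k 30) (two_F k) (fun p => (lf k p).re) (fun p => (lf k p).im) (lf_Pl k))
    (fun j => (vf k 30)⁻¹ * vf k (38 + j)) (fun j => (vf k 30)⁻¹ * vf k (41 + j))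

/-- The first homomorphism. -/
def eta1 : MvPolynomial (Fin 44) k →ₐ[k] FF1 k := eta k (D1 k)

theorem D1_c (p : ℕ) (hp : p < 18) : lof (D1 k).c p = (lf k p).re :=
  lof_cF (two_F k) (fun p => (lf k p).re) p hp

theorem D1_t (p : ℕ) (hp : p < 18) : lof (D1 k).t p = (lf k p).im :=
  lof_cF (two_F k) (fun p => (lf k p).im) p hp

theorem eta1_va (v : ℕ) (hv : inVv v = true) : eta1 k (va k v) = vf k v := by
  have hv44 : v < 44 := by
    by_contra h
    have h1 : Nat.blt v 44 = false := by
      rw [Bool.eq_false_iff]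
      intro h2
      exact h (Nat.blt_eq.mp h2)
    unfold inVv at hv
    rw [h1, Bool.and_false] at hv
    exact absurd hv (by simp)
  have h0 : eta1 k (va k v) = etab (D1 k) v := by
    unfold eta1 eta va
    rw [dif_pos hv44, MvPolynomial.aeval_X]
  rw [h0]
  have hx : ∀ p < 18, p < 9 ∨ 15 ≤ p → (lf k p).re = (zf k p).re := by
    intro p hp hp'
    unfold lf lD
    rw [if_neg (by omega), if_neg (by omega), if_neg (by omega), if_neg (by omega),
      if_neg (by omega), if_neg (by omega)]
  have hy : ∀ p < 18, p < 9 ∨ 15 ≤ p → (lf k p).im = (zf k p).im := by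
    intro p hp hp'
    unfold lf lD
    rw [if_neg (by omega), if_neg (by omega), if_neg (by omega), if_neg (by omega),
      if_neg (by omega), if_neg (by omega)]
  by_cases h1 : v < 9
  · rw [etab, if_pos (by omega), env_x _ _ _ _ v (by omega), D1_c k v (by omega),
      hx v (by omega) (by omega)]
    unfold zf
    rw [if_pos (by omega)]
  · by_cases h2 : v < 15
    · interval_cases v <;> exact absurd hv (by decide)
    · by_cases h3 : v < 24
      · obtain ⟨p, rfl⟩ : ∃ p, v = 15 + p := ⟨v - 15, by omega⟩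
        rw [etab, if_pos (by omega), env_y _ _ _ _ p (by omega), D1_t k p (by omega),
          hy p (by omega) (by omega)]
        unfold zf
        rw [if_pos (by omega)]
      · by_cases h4 : v < 30
        · interval_cases v <;> exact absurd hv (by decide)
        · by_cases h5 : v = 30
          · subst h5
            rfl
          · by_cases h6 : v = 31
            · subst h6
              rfl
            · by_cases h7 : v < 35
              · obtain ⟨j, rfl⟩ : ∃ j : Fin 3, v = 32 + j :=
                  ⟨⟨v - 32, by omega⟩, by simp only; omega⟩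
                have h8 : etab (D1 k) (32 + j) = lof (D1 k).c (15 + j) := by
                  fin_cases j <;> rfl
                rw [h8, D1_c k _ (by omega), hx _ (by omega) (by omega)]
                unfold zf
                rw [if_neg (by omega)]
                change vf k (15 + j + 17) = _
                congr 1
                omega
              · by_cases h9 : v < 38
                · obtain ⟨j, rfl⟩ : ∃ j : Fin 3, v = 35 + j :=
                    ⟨⟨v - 35, by omega⟩, by simp only; omega⟩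
                  have h8 : etab (D1 k) (35 + j) = lof (D1 k).t (15 + j) := by
                    fin_cases j <;> rfl
                  rw [h8, D1_t k _ (by omega), hy _ (by omega) (by omega)]
                  unfold zf
                  rw [if_neg (by omega)]
                  change vf k (15 + j + 20) = _
                  congr 1
                  omega
                · have ht := vf_ne k 30 (by norm_num)
                  by_cases h10 : v < 41
                  · obtain ⟨j, rfl⟩ : ∃ j : Fin 3, v = 38 + j :=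
                      ⟨⟨v - 38, by omega⟩, by simp only; omega⟩
                    have h8 : etab (D1 k) (38 + j) =
                        vf k 30 * ((vf k 30)⁻¹ * vf k (38 + j)) := by
                      fin_cases j <;> rfl
                    rw [h8, ← mul_assoc, mul_inv_cancel₀ ht, one_mul]
                  · obtain ⟨j, rfl⟩ : ∃ j : Fin 3, v = 41 + j :=
                      ⟨⟨v - 41, by omega⟩, by simp only; omega⟩
                    have h8 : etab (D1 k) (41 + j) =
                        vf k 30 * ((vf k 30)⁻¹ * vf k (41 + j)) := by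
                      fin_cases j <;> rfl
                    rw [h8, ← mul_assoc, mul_inv_cancel₀ ht, one_mul]

theorem eta1_IG (q : MvPolynomial (Fin 44) k) (hq : q ∈ IG k) : eta1 k q = 0 := by
  have ht : fbar k (D1 k) (xb k 52) = vf k 30 := by
    rw [fbar_xb, fth_tau]
    rfl
  have h1 : eta1 k (F1p k) = 0 := by
    have h := congrArg (fbar k (D1 k)) (gr_T1 k)
    rw [map_mul, map_zero, ht, ← Psi_F1, fbar_Psi] at h
    exact (mul_eq_zero.mp h).resolve_left (vf_ne k 30 (by norm_num))
  have h2 : eta1 k (F2p k) = 0 := by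
    have h := congrArg (fbar k (D1 k)) (gr_T2 k)
    rw [map_mul, map_zero, ht, ← Psi_F2, fbar_Psi] at h
    exact (mul_eq_zero.mp h).resolve_left (vf_ne k 30 (by norm_num))
  obtain ⟨j, hj, r, hr, rfl⟩ := Submodule.mem_sup.mp (IG_le k hq)
  obtain ⟨g1, g2, rfl⟩ := Ideal.mem_span_pair.mp hr
  have hj1 : eta1 k j = 0 := by
    have h := fbar_Psi k (D1 k) j
    rw [Psi_JQ k j hj, map_zero] at h
    exact h.symm
  rw [map_add, map_add, map_mul, map_mul, hj1, h1, h2, mul_zero, mul_zero, add_zero, add_zero]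

theorem eta1_ker (q : MvPolynomial (Fin 44) k) (hq : eta1 k q = 0) : q ∈ IG k :=
  ker1 k (IsFractionRing.injective (MvPolynomial (Fin 44) k) (FF1 k)) (eta1 k) (eta1_va k)
    (eta1_IG k) q hq

/-! ### Conclusion -/

/-- The two rings. -/
def FT : Bool → Type _
  | false => FF1 k
  | true => Polynomial (BB k)

instance instCR : ∀ b : Bool, CommRing (FT k b)
  | false => inferInstanceAs (CommRing (FF1 k))
  | true => inferInstanceAs (CommRing (Polynomial (BB k)))

instance instDom : ∀ b : Bool, IsDomain (FT k b)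
  | false => inferInstanceAs (IsDomain (FF1 k))
  | true => inferInstanceAs (IsDomain (Polynomial (BB k)))

instance instAlg : ∀ b : Bool, Algebra k (FT k b)
  | false => inferInstanceAs (Algebra k (FF1 k))
  | true => inferInstanceAs (Algebra k (Polynomial (BB k)))

/-- The first homomorphism. -/
def th1 : SC k →ₐ[k] FF1 k := fth k (D1 k)

/-- The second homomorphism. -/
def th2 : SC k →ₐ[k] Polynomial (BB k) := fth k (D2 k)

/-- The two homomorphisms. -/
def thT : ∀ b : Bool, SC k →ₐ[k] FT k b
  | false => th1 k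
  | true => th2 k

theorem ker_all (p : SC k) (h1 : fth k (D1 k) p = 0) (h2 : fth k (D2 k) p = 0) :
    p ∈ Ideal.span (GC k) := by
  rw [← mkG_eq_zero]
  obtain ⟨q, hq⟩ := Psi_surj k (mkG k p)
  rw [← hq]
  apply Psi_zero k q
  · apply eta1_ker
    unfold eta1
    rw [← fbar_Psi, hq, fbar_mk, h1]
  · unfold eta2
    rw [← fbar_Psi, hq, fbar_mk, h2]

end K2

/-- Chart c is reduced near the origin in characteristic 2. -/
theorem locRed_chartC (k : Type u) [Field k] [CharP k 2] : LocRed chartC k := by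
  unfold LocRed
  refine exists_loc wF (chartC.ideal k) (GC k) (fun g hg => hg) (FT k) (thT k) ?_ ?_
  · intro b
    cases b
    · have h : HasFam wF (chartC.ideal k) (th1 k) := fth_fam k (D1 k)
      exact h
    · have h : HasFam wF (chartC.ideal k) (th2 k) := fth_fam k (D2 k)
      exact h
  · intro d p _ h
    have h1 : th1 k p = 0 := h false
    have h2 : th2 k p = 0 := h true
    exact ker_all k p h1 h2

end

end Pool.Agent.Helper90.Hilb8C
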