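import Pool.Agent.Helper90.Hilb8C.Blk
import Pool.Agent.Helper28.Hilb8.Low

/-!
# Lowest forms for chart c
-/

namespace Pool.Agent.Helper90.Hilb8C

open Pool.Agent.Helper97.Hilb8 Pool.Agent.Helper97.Hilb8.TopAux Pool.Agent.Helper28.Hilb8 Matrix

noncomputable section

/-! ### Naturality -/

section Nat

variable {R R' : Type*} [CommRing R] [CommRing R'] (g : R →+* R')

theorem mapMatrix_smul {n : Type*} [Fintype n] [DecidableEq n] (x : R) (M : Matrix n n R) :
    g.mapMatrix (x • M) = g x • g.mapMatrix M := by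
  ext i j
  simp

theorem map_krF (r : Fin 4) (i : Fin 3) : g (krF r i) = krF r i := by
  unfold krF
  split_ifs
  · exact map_one g
  · exact map_zero g

theorem map_cA (c : Fin 6 → Fin 3 → R) (z : Fin 6 → R) (s : Fin 6) (r : Fin 4) :
    g (cA c z s r) = cA (fun s k => g (c s k)) (fun s => g (z s)) s r := by
  fin_cases r <;> rfl

theorem map_LG (c : Fin 6 → Fin 3 → R) (z : Fin 6 → R) (i : Fin 3) :
    g.mapMatrix (LG c z i) = LG (fun s k => g (c s k)) (fun s => g (z s)) i := by
  ext r s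
  change g (LG c z i r s) = _
  refine Fin.cases ?_ (fun k => ?_) s
  · exact map_krF g r i
  · exact map_cA g c z _ r

theorem map_TG (c : Fin 6 → Fin 3 → R) (z : Fin 6 → R) (i : Fin 3) :
    g.mapMatrix (TG c z i) = TG (fun s k => g (c s k)) (fun s => g (z s)) i := by
  ext r s
  change g (TG c z i r s) = _
  refine Fin.cases ?_ (fun k => ?_) s
  · exact map_zero g
  · exact map_cA g c z _ r

variable (a : ℕ → R)

theorem map_SM (i : Fin 3) : g.mapMatrix (SM a i) = SM (fun v => g (a v)) i :=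
  map_LG g _ _ i

theorem map_TM (i : Fin 3) : g.mapMatrix (TM a i) = TM (fun v => g (a v)) i :=
  map_TG g _ _ i

theorem map_CM : g.mapMatrix (CM a) = CM (fun v => g (a v)) := rfl

theorem map_BM : g.mapMatrix (BM a) = BM (fun v => g (a v)) := rfl

/-- The first matrix with coefficients `b`, `c`. -/
def FM (b c : Fin 3 → R) : Matrix (Fin 4) (Fin 4) R :=
  ∑ k : Fin 3, b k • SM a k + CM a * ∑ k : Fin 3, c k • TM a k

/-- The second matrix with coefficients `b`, `c`. -/
def GM (b c : Fin 3 → R) : Matrix (Fin 4) (Fin 4) R :=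
  ∑ k : Fin 3, b k • TM a k + ∑ k : Fin 3, c k • SM a k + BM a * ∑ k : Fin 3, c k • TM a k

theorem map_FM (b c : Fin 3 → R) : g.mapMatrix (FM a b c) =
    FM (fun v => g (a v)) (fun k => g (b k)) (fun k => g (c k)) := by
  unfold FM
  rw [map_add, map_mul, map_sum, map_sum, map_CM]
  simp only [mapMatrix_smul, map_SM, map_TM]

theorem map_GM (b c : Fin 3 → R) : g.mapMatrix (GM a b c) =
    GM (fun v => g (a v)) (fun k => g (b k)) (fun k => g (c k)) := by
  unfold GM
  rw [map_add, map_add, map_mul, map_sum, map_sum, map_sum, map_BM]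
  simp only [mapMatrix_smul, map_SM, map_TM]

/-- The commutator of `T_i` and `T_j`. -/
def KM (i j : Fin 3) : Matrix (Fin 4) (Fin 4) R := TM a i * TM a j - TM a j * TM a i

theorem map_KM (i j : Fin 3) : g.mapMatrix (KM a i j) = KM (fun v => g (a v)) i j := by
  unfold KM
  rw [map_sub, map_mul, map_mul, map_TM, map_TM]

theorem FM_smul (t : R) (b c : Fin 3 → R) :
    FM a (fun k => t * b k) (fun k => t * c k) = t • FM a b c := by
  unfold FM
  simp only [mul_smul, ← Finset.smul_sum, Matrix.mul_smul, smul_add]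

theorem GM_smul (t : R) (b c : Fin 3 → R) :
    GM a (fun k => t * b k) (fun k => t * c k) = t • GM a b c := by
  unfold GM
  simp only [mul_smul, ← Finset.smul_sum, Matrix.mul_smul, smul_add]

theorem map_trace' {n : Type*} [Fintype n] [DecidableEq n] (M : Matrix n n R) :
    g (Matrix.trace M) = Matrix.trace (g.mapMatrix M) := by
  unfold Matrix.trace
  rw [map_sum]
  rfl

end Nat

/-- A homomorphism killing the chart ideal gives a point of the chart. -/
theorem isPt_of_kill (k : Type*) [Field k] {A : Type*} [CommRing A]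
    (φ : MvPolynomial (Fin (8 * chartC.nb)) k →+* A) (h : ∀ p ∈ chartC.ideal k, φ p = 0) :
    chartC.IsPt (fun v => φ (chartC.var k v)) := by
  intro i j
  have h1 := chartC.map_mat φ (chartC.var k) (fun v => φ (chartC.var k v)) (fun v _ => rfl)
  rw [← h1, ← h1, ← Matrix.map_mul, ← Matrix.map_mul, ← sub_eq_zero,
    ← Matrix.map_sub _ (fun x y => map_sub _ x y)]
  ext r c
  rw [Matrix.map_apply, Matrix.zero_apply]
  exact h _ (Ideal.subset_span ⟨i, j, r, c, rfl⟩)

/-- The weights. -/
def wC (v : ℕ) : ℕ := if 48 ≤ v ∧ v < 80 ∧ v % 4 ≠ v / 8 - 6 then 1 else 0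

section Low

variable (k : Type*) [Field k]

/-- The polynomial ring of the chart. -/
abbrev SC : Type _ := MvPolynomial (Fin (8 * chartC.nb)) k

/-- The weights of the variables. -/
abbrev wF : Fin (8 * chartC.nb) → ℕ := fun v => wC v

/-- All lowest forms of the chart ideal. -/
def GC : Set (SC k) := {g | ∃ f ∈ chartC.ideal k, ∃ d, IsBot wF f g d}

/-- The homomorphism to power series. -/
def psi0 : SC k →ₐ[k] PowerSeries (SC k) :=
  MvPolynomial.aeval (fun v => PowerSeries.C (MvPolynomial.X v) * PowerSeries.X ^ (wF v))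

theorem psi0_var (v : ℕ) : psi0 k (chartC.var k v) =
    PowerSeries.C (chartC.var k v) * PowerSeries.X ^ (wC v) := by
  unfold Chart.var psi0
  split_ifs with h
  · rw [MvPolynomial.aeval_X]
  · rw [map_zero, map_zero, zero_mul]

theorem st_psi0 (v : Fin (8 * chartC.nb)) :
    LowAux.St (psi0 k (MvPolynomial.X v)) (wF v) (AlgHom.id k (SC k) (MvPolynomial.X v)) := by
  unfold psi0
  rw [MvPolynomial.aeval_X]
  constructor
  · intro n hn
    rw [PowerSeries.coeff_C_mul, PowerSeries.coeff_X_pow, if_neg (by omega), mul_zero]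
  · rw [PowerSeries.coeff_C_mul, PowerSeries.coeff_X_pow, if_pos rfl, mul_one]
    rfl

theorem mem_GC (f : SC k) (hf : f ∈ chartC.ideal k) (d : ℕ)
    (hd : ∀ e, wt wF e < d → MvPolynomial.coeff e f = 0) :
    PowerSeries.coeff d (psi0 k f) ∈ Ideal.span (GC k) := by
  have h1 := LowAux.coeff_fam (st_psi0 k) d f hd
  rw [h1]
  apply Ideal.subset_span
  refine ⟨f, hf, d, ?_⟩
  rw [LowAux.isBot_iff]
  refine ⟨fun e he => ?_, fun e he => ?_⟩
  · change MvPolynomial.coeff e (comp wF d f) = 0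
    rw [coeff_comp, if_neg he]
  · change _ = MvPolynomial.coeff e (comp wF d f)
    rw [coeff_comp]
    split_ifs with h
    · rfl
    · exact hd e (by omega)

theorem low0 (f : SC k) (hf : f ∈ chartC.ideal k) :
    PowerSeries.constantCoeff (psi0 k f) ∈ Ideal.span (GC k) := by
  rw [← PowerSeries.coeff_zero_eq_constantCoeff_apply]
  exact mem_GC k f hf 0 fun e he => absurd he (Nat.not_lt_zero _)

theorem low1 (f : SC k) (hf : f ∈ chartC.ideal k) (u : PowerSeries (SC k))
    (hu : psi0 k f = PowerSeries.X * u) : PowerSeries.constantCoeff u ∈ Ideal.span (GC k) := by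
  have h0 : ∀ e, wt wF e < 1 → MvPolynomial.coeff e f = 0 := by
    intro e he
    have h1 := LowAux.coeff_fam (st_psi0 k) 0 f (fun e he => absurd he (Nat.not_lt_zero _))
    have h2 : comp wF 0 f = 0 := by
      have h3 : PowerSeries.coeff 0 (psi0 k f) = 0 := by
        rw [hu, PowerSeries.coeff_zero_eq_constantCoeff_apply, map_mul,
          PowerSeries.constantCoeff_X, zero_mul]
      rw [← h3, h1]
      rfl
    have h3 := congrArg (MvPolynomial.coeff e) h2
    rw [coeff_comp, if_pos (by omega), MvPolynomial.coeff_zero] at h3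
    exact h3
  have h1 := mem_GC k f hf 1 h0
  have h2 : PowerSeries.coeff 1 (PowerSeries.X * u) = PowerSeries.constantCoeff u := by
    rw [show (1 : ℕ) = 0 + 1 from rfl, PowerSeries.coeff_succ_X_mul,
      PowerSeries.coeff_zero_eq_constantCoeff_apply]
  rw [hu, h2] at h1
  exact h1

/-- The ring of lowest forms. -/
def GR : Type _ := SC k ⧸ Ideal.span (GC k)

instance : CommRing (GR k) := inferInstanceAs (CommRing (SC k ⧸ Ideal.span (GC k)))

/-- The quotient map. -/
def mkG : SC k →+* GR k := Ideal.Quotient.mk (Ideal.span (GC k))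

theorem mkG_eq_zero (p : SC k) : mkG k p = 0 ↔ p ∈ Ideal.span (GC k) :=
  Ideal.Quotient.eq_zero_iff_mem

theorem mkG_surj : Function.Surjective (mkG k) := Ideal.Quotient.mk_surjective

/-- The coordinates in the ring of lowest forms. -/
def xb (v : ℕ) : GR k := mkG k (chartC.var k v)

/-- The part of weight zero. -/
def phi0 : SC k →+* GR k :=
  (mkG k).comp ((PowerSeries.constantCoeff (R := SC k)).comp (psi0 k).toRingHom)

theorem phi0_var (v : ℕ) : phi0 k (chartC.var k v) = if wC v = 0 then xb k v else 0 := by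
  change mkG k (PowerSeries.constantCoeff (psi0 k (chartC.var k v))) = _
  rw [psi0_var, map_mul, map_pow, PowerSeries.constantCoeff_X]
  split_ifs with h
  · rw [h, pow_zero, mul_one, PowerSeries.constantCoeff_C]
    rfl
  · rw [zero_pow h, mul_zero, map_zero]

/-- The point of weight zero. -/
def a0 (v : ℕ) : GR k := phi0 k (chartC.var k v)

theorem a0_isPt : chartC.IsPt (a0 k) := by
  apply isPt_of_kill
  intro p hp
  change mkG k _ = _
  rw [mkG_eq_zero]
  exact low0 k p hp

theorem a0_of (v : ℕ) (hv : wC v = 0) : a0 k v = xb k v := by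
  unfold a0
  rw [phi0_var, if_pos hv]

theorem a0_of' (v : ℕ) (hv : wC v = 1) : a0 k v = 0 := by
  unfold a0
  rw [phi0_var, if_neg (by omega)]

theorem wC_lt (v : ℕ) (hv : v < 48) : wC v = 0 := by
  unfold wC
  rw [if_neg (by omega)]

theorem SM_congr {R : Type*} [CommRing R] (a a' : ℕ → R) (h : ∀ v < 48, a v = a' v) (i : Fin 3) :
    SM a i = SM a' i := by
  have hc : cS a = cS a' := by
    funext s k
    exact h _ (by omega)
  have hz : zS a = zS a' := by
    funext s
    exact h _ (by omega)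
  unfold SM
  rw [hc, hz]

theorem TM_congr {R : Type*} [CommRing R] (a a' : ℕ → R) (h : ∀ v < 48, a v = a' v) (i : Fin 3) :
    TM a i = TM a' i := by
  have hc : cT a = cT a' := by
    funext s k
    exact h _ (by omega)
  have hz : zT a = zT a' := by
    funext s
    exact h _ (by omega)
  unfold TM
  rw [hc, hz]

theorem SM_a0 (i : Fin 3) : SM (a0 k) i = SM (xb k) i :=
  SM_congr _ _ (fun v hv => a0_of k v (wC_lt v hv)) i

theorem TM_a0 (i : Fin 3) : TM (a0 k) i = TM (xb k) i :=
  TM_congr _ _ (fun v hv => a0_of k v (wC_lt v hv)) i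

theorem wC_off (r c : Fin 4) (h : r ≠ c) : wC (8 * (6 + c) + r) = 1 := by
  revert h
  revert r c
  decide

theorem wC_off' (r c : Fin 4) (h : r ≠ c) : wC (8 * (6 + c) + (r + 4)) = 1 := by
  revert h
  revert r c
  decide

theorem wC_diag : ∀ r : Fin 4, wC (8 * (6 + r) + r) = 0 ∧ wC (8 * (6 + r) + (r + 4)) = 0 := by
  decide

theorem wC_hi (v : ℕ) (hv : 80 ≤ v) : wC v = 0 := by
  unfold wC
  rw [if_neg (by omega)]

theorem CM_a0_off (r c : Fin 4) (h : r ≠ c) : CM (a0 k) r c = 0 :=
  a0_of' k _ (wC_off r c h)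

theorem BM_a0_off (r c : Fin 4) (h : r ≠ c) : BM (a0 k) r c = 0 :=
  a0_of' k _ (wC_off' r c h)

theorem CM_a0_diag (r : Fin 4) : CM (a0 k) r r = xb k (8 * (6 + r) + r) :=
  a0_of k _ (wC_diag r).1

theorem BM_a0_diag (r : Fin 4) : BM (a0 k) r r = xb k (8 * (6 + r) + (r + 4)) :=
  a0_of k _ (wC_diag r).2

theorem CM_a0 : CM (a0 k) = xb k 48 • (1 : Matrix (Fin 4) (Fin 4) (GR k)) := by
  have h := CM_eq (a0 k) (a0_isPt k)
  have h1 : ∀ j : Fin 3, CM (a0 k) j.succ 0 = 0 := fun j => CM_a0_off k _ _ (Fin.succ_ne_zero j)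
  have h2 : ∀ j : Fin 3, BM (a0 k) j.succ 0 = 0 := fun j => BM_a0_off k _ _ (Fin.succ_ne_zero j)
  simp only [h1, h2, zero_smul, Finset.sum_const_zero, mul_zero, add_zero] at h
  have h3 : CM (a0 k) 0 0 = xb k 48 := CM_a0_diag k 0
  rw [h, h3]

theorem BM_a0 : BM (a0 k) = xb k 52 • (1 : Matrix (Fin 4) (Fin 4) (GR k)) := by
  have h := BM_eq (a0 k) (a0_isPt k)
  have h1 : ∀ j : Fin 3, CM (a0 k) j.succ 0 = 0 := fun j => CM_a0_off k _ _ (Fin.succ_ne_zero j)
  have h2 : ∀ j : Fin 3, BM (a0 k) j.succ 0 = 0 := fun j => BM_a0_off k _ _ (Fin.succ_ne_zero j)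
  simp only [h1, h2, zero_smul, Finset.sum_const_zero, mul_zero, add_zero] at h
  have h3 : BM (a0 k) 0 0 = xb k 52 := BM_a0_diag k 0
  rw [h, h3]

/-- Diagonal entries. -/
theorem gr_diag (r : Fin 4) : xb k (8 * (6 + r) + r) = xb k 48 ∧
    xb k (8 * (6 + r) + (r + 4)) = xb k 52 := by
  rw [← CM_a0_diag, ← BM_a0_diag, CM_a0, BM_a0]
  constructor
  · rw [Matrix.smul_apply, Matrix.one_apply_eq, smul_eq_mul, mul_one]
  · rw [Matrix.smul_apply, Matrix.one_apply_eq, smul_eq_mul, mul_one]

/-- Relations of weight zero. -/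
theorem gr_rel0 (i j : Fin 3) :
    SM (xb k) i * SM (xb k) j + xb k 48 • (TM (xb k) i * TM (xb k) j) =
      SM (xb k) j * SM (xb k) i + xb k 48 • (TM (xb k) j * TM (xb k) i) ∧
    TM (xb k) i * SM (xb k) j + SM (xb k) i * TM (xb k) j + xb k 52 • (TM (xb k) i * TM (xb k) j) =
      TM (xb k) j * SM (xb k) i + SM (xb k) j * TM (xb k) i +
        xb k 52 • (TM (xb k) j * TM (xb k) i) := by
  have h := rel2 (a0 k) (a0_isPt k) i j
  rw [CM_a0, BM_a0, SM_a0, SM_a0, TM_a0, TM_a0] at h
  simpa only [smul_mul_assoc, one_mul] using h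

theorem gr_PQ (i : Fin 3) : PM (a0 k) i = xb k 48 • TM (xb k) i ∧
    QM (a0 k) i = SM (xb k) i + xb k 52 • TM (xb k) i := by
  obtain ⟨h1, h2, -, -⟩ := rel1 (a0 k) (a0_isPt k) i
  rw [h1, h2, CM_a0, BM_a0, SM_a0, TM_a0, smul_mul_assoc, one_mul, smul_mul_assoc, one_mul]
  exact ⟨rfl, rfl⟩

/-- The coordinates of border monomials with `x_i x_j x₄`. -/
theorem gr_P (s : Fin 6) (r : Fin 4) : xb k (8 * (10 + s) + r) =
    xb k 48 * cA (cT (xb k)) (zT (xb k)) s r := by
  obtain ⟨i, j, rfl⟩ : ∃ i j, s = sy i j := by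
    fin_cases s
    · exact ⟨0, 0, rfl⟩
    · exact ⟨0, 1, rfl⟩
    · exact ⟨0, 2, rfl⟩
    · exact ⟨1, 1, rfl⟩
    · exact ⟨1, 2, rfl⟩
    · exact ⟨2, 2, rfl⟩
  have h := congrFun (congrFun (gr_PQ k i).1 r) j.succ
  have h1 : PM (a0 k) i r j.succ = xb k (8 * (10 + sy i j) + r) :=
    a0_of k _ (wC_hi _ (by omega))
  rw [h1] at h
  exact h

theorem gr_Q (s : Fin 6) (r : Fin 4) : xb k (8 * (10 + s) + (r + 4)) =
    cA (cS (xb k)) (zS (xb k)) s r + xb k 52 * cA (cT (xb k)) (zT (xb k)) s r := by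
  obtain ⟨i, j, rfl⟩ : ∃ i j, s = sy i j := by
    fin_cases s
    · exact ⟨0, 0, rfl⟩
    · exact ⟨0, 1, rfl⟩
    · exact ⟨0, 2, rfl⟩
    · exact ⟨1, 1, rfl⟩
    · exact ⟨1, 2, rfl⟩
    · exact ⟨2, 2, rfl⟩
  have h := congrFun (congrFun (gr_PQ k i).2 r) j.succ
  have h1 : QM (a0 k) i r j.succ = xb k (8 * (10 + sy i j) + (r + 4)) :=
    a0_of k _ (wC_hi _ (by omega))
  rw [h1] at h
  exact h

/-! ### Weight one -/

/-- The hat point. -/
def ha (v : ℕ) : PowerSeries (SC k) := psi0 k (chartC.var k v)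

theorem ha_of (v : ℕ) (hv : wC v = 0) : ha k v = PowerSeries.C (chartC.var k v) := by
  unfold ha
  rw [psi0_var, hv, pow_zero, mul_one]

theorem ha_of' (v : ℕ) (hv : wC v = 1) :
    ha k v = PowerSeries.X * PowerSeries.C (chartC.var k v) := by
  unfold ha
  rw [psi0_var, hv, pow_one, mul_comm]

/-- Reduction of the hat point. -/
def ev0 : PowerSeries (SC k) →+* GR k :=
  (mkG k).comp (PowerSeries.constantCoeff (R := SC k))

theorem ev0_ha : (fun v => ev0 k (ha k v)) = a0 k := rfl

theorem ev0_C (p : SC k) : ev0 k (PowerSeries.C p) = mkG k p := by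
  change mkG k (PowerSeries.constantCoeff (PowerSeries.C p)) = _
  rw [PowerSeries.constantCoeff_C]

theorem kill1 (f : SC k) (hf : f ∈ chartC.ideal k) (u : PowerSeries (SC k))
    (hu : psi0 k f = PowerSeries.X * u) : ev0 k u = 0 := by
  change mkG k _ = _
  rw [mkG_eq_zero]
  exact low1 k f hf u hu

theorem var_mem (F : (ℕ → SC k) → SC k) (F' : (ℕ → (SC k ⧸ chartC.ideal k)) → (SC k ⧸ chartC.ideal k))
    (hF : Ideal.Quotient.mk (chartC.ideal k) (F (chartC.var k)) =
      F' (fun v => Ideal.Quotient.mk _ (chartC.var k v)))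
    (h : ∀ a, chartC.IsPt a → F' a = 0) : F (chartC.var k) ∈ chartC.ideal k := by
  rw [← Ideal.Quotient.eq_zero_iff_mem, hF]
  apply h
  apply isPt_of_kill k (Ideal.Quotient.mk (chartC.ideal k))
  intro p hp
  exact Ideal.Quotient.eq_zero_iff_mem.mpr hp

theorem wC_b (j : Fin 3) : wC (8 * (6 + (0 : Fin 4).val) + (j.succ : Fin 4).val) = 1 := by
  fin_cases j <;> rfl

theorem wC_c (j : Fin 3) : wC (8 * (6 + (0 : Fin 4).val) + ((j.succ : Fin 4).val + 4)) = 1 := by
  fin_cases j <;> rfl

theorem CM_ha (j : Fin 3) : CM (ha k) j.succ 0 =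
    PowerSeries.X * PowerSeries.C (chartC.var k (49 + j)) := by
  have h : CM (ha k) j.succ 0 = ha k (8 * (6 + (0 : Fin 4).val) + (j.succ : Fin 4).val) := rfl
  rw [h, ha_of' k _ (wC_b j)]
  fin_cases j <;> rfl

theorem BM_ha (j : Fin 3) : BM (ha k) j.succ 0 =
    PowerSeries.X * PowerSeries.C (chartC.var k (53 + j)) := by
  have h : BM (ha k) j.succ 0 = ha k (8 * (6 + (0 : Fin 4).val) + ((j.succ : Fin 4).val + 4)) := rfl
  rw [h, ha_of' k _ (wC_c j)]
  fin_cases j <;> rfl

/-- `b_k` in the ring of lowest forms. -/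
def bb (j : Fin 3) : GR k := xb k (49 + j)

/-- `c_k` in the ring of lowest forms. -/
def cc (j : Fin 3) : GR k := xb k (53 + j)

theorem FM_ha : FM (ha k) (fun j => CM (ha k) j.succ 0) (fun j => BM (ha k) j.succ 0) =
    (PowerSeries.X : PowerSeries (SC k)) • FM (ha k)
      (fun j => PowerSeries.C (chartC.var k (49 + j)))
      (fun j => PowerSeries.C (chartC.var k (53 + j))) := by
  rw [← FM_smul]
  congr 1
  · funext j
    exact CM_ha k j
  · funext j
    exact BM_ha k j

theorem GM_ha : GM (ha k) (fun j => CM (ha k) j.succ 0) (fun j => BM (ha k) j.succ 0) =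
    (PowerSeries.X : PowerSeries (SC k)) • GM (ha k)
      (fun j => PowerSeries.C (chartC.var k (49 + j)))
      (fun j => PowerSeries.C (chartC.var k (53 + j))) := by
  rw [← GM_smul]
  congr 1
  · funext j
    exact CM_ha k j
  · funext j
    exact BM_ha k j

theorem ev0_FM : (ev0 k).mapMatrix (FM (ha k)
      (fun j => PowerSeries.C (chartC.var k (49 + j)))
      (fun j => PowerSeries.C (chartC.var k (53 + j)))) =
    ∑ j : Fin 3, bb k j • SM (xb k) j + xb k 48 • ∑ j : Fin 3, cc k j • TM (xb k) j := by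
  rw [map_FM, ev0_ha]
  unfold FM
  simp only [SM_a0, TM_a0, CM_a0, ev0_C, smul_mul_assoc, one_mul]
  rfl

theorem ev0_GM : (ev0 k).mapMatrix (GM (ha k)
      (fun j => PowerSeries.C (chartC.var k (49 + j)))
      (fun j => PowerSeries.C (chartC.var k (53 + j)))) =
    ∑ j : Fin 3, bb k j • TM (xb k) j + ∑ j : Fin 3, cc k j • SM (xb k) j +
      xb k 52 • ∑ j : Fin 3, cc k j • TM (xb k) j := by
  rw [map_GM, ev0_ha]
  unfold GM
  simp only [SM_a0, TM_a0, BM_a0, ev0_C, smul_mul_assoc, one_mul]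
  rfl

/-- First trace relation. -/
theorem gr_tr1 (i j : Fin 3) : Matrix.trace ((∑ j : Fin 3, bb k j • SM (xb k) j +
    xb k 48 • ∑ j : Fin 3, cc k j • TM (xb k) j) * KM (xb k) i j) = 0 := by
  have hmem := var_mem k
    (fun a => Matrix.trace (FM a (fun j => CM a j.succ 0) (fun j => BM a j.succ 0) * KM a i j))
    (fun a => Matrix.trace (FM a (fun j => CM a j.succ 0) (fun j => BM a j.succ 0) * KM a i j))
    (by rw [map_trace', map_mul, map_FM, map_KM]; rfl)
    (fun a ha => tr1 a ha i j)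
  have h1 : psi0 k (Matrix.trace (FM (chartC.var k) (fun j => CM (chartC.var k) j.succ 0)
      (fun j => BM (chartC.var k) j.succ 0) * KM (chartC.var k) i j)) =
      PowerSeries.X * Matrix.trace (FM (ha k)
      (fun j => PowerSeries.C (chartC.var k (49 + j)))
      (fun j => PowerSeries.C (chartC.var k (53 + j))) * KM (ha k) i j) := by
    have h2 : psi0 k (Matrix.trace (FM (chartC.var k) (fun j => CM (chartC.var k) j.succ 0)
      (fun j => BM (chartC.var k) j.succ 0) * KM (chartC.var k) i j)) =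
      Matrix.trace (FM (ha k) (fun j => CM (ha k) j.succ 0) (fun j => BM (ha k) j.succ 0) *
        KM (ha k) i j) := by
      change (psi0 k).toRingHom _ = _
      rw [map_trace', map_mul, map_FM, map_KM]
      rfl
    rw [h2, FM_ha, smul_mul_assoc, Matrix.trace_smul, smul_eq_mul]
  have h2 := kill1 k _ hmem _ h1
  rw [map_trace', map_mul, ev0_FM, map_KM, ev0_ha] at h2
  have h3 : KM (a0 k) i j = KM (xb k) i j := by
    unfold KM
    rw [TM_a0, TM_a0]
  rw [h3] at h2
  exact h2

/-- Second trace relation. -/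
theorem gr_tr2 (i j : Fin 3) : Matrix.trace ((∑ j : Fin 3, bb k j • TM (xb k) j +
    ∑ j : Fin 3, cc k j • SM (xb k) j +
    xb k 52 • ∑ j : Fin 3, cc k j • TM (xb k) j) * KM (xb k) i j) = 0 := by
  have hmem := var_mem k
    (fun a => Matrix.trace (GM a (fun j => CM a j.succ 0) (fun j => BM a j.succ 0) * KM a i j))
    (fun a => Matrix.trace (GM a (fun j => CM a j.succ 0) (fun j => BM a j.succ 0) * KM a i j))
    (by rw [map_trace', map_mul, map_GM, map_KM]; rfl)
    (fun a ha => tr2 a ha i j)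
  have h1 : psi0 k (Matrix.trace (GM (chartC.var k) (fun j => CM (chartC.var k) j.succ 0)
      (fun j => BM (chartC.var k) j.succ 0) * KM (chartC.var k) i j)) =
      PowerSeries.X * Matrix.trace (GM (ha k)
      (fun j => PowerSeries.C (chartC.var k (49 + j)))
      (fun j => PowerSeries.C (chartC.var k (53 + j))) * KM (ha k) i j) := by
    have h2 : psi0 k (Matrix.trace (GM (chartC.var k) (fun j => CM (chartC.var k) j.succ 0)
      (fun j => BM (chartC.var k) j.succ 0) * KM (chartC.var k) i j)) =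
      Matrix.trace (GM (ha k) (fun j => CM (ha k) j.succ 0) (fun j => BM (ha k) j.succ 0) *
        KM (ha k) i j) := by
      change (psi0 k).toRingHom _ = _
      rw [map_trace', map_mul, map_GM, map_KM]
      rfl
    rw [h2, GM_ha, smul_mul_assoc, Matrix.trace_smul, smul_eq_mul]
  have h2 := kill1 k _ hmem _ h1
  rw [map_trace', map_mul, ev0_GM, map_KM, ev0_ha] at h2
  have h3 : KM (a0 k) i j = KM (xb k) i j := by
    unfold KM
    rw [TM_a0, TM_a0]
  rw [h3] at h2
  exact h2

/-- Off-diagonal entries of `C`. -/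
theorem gr_C (r c : Fin 4) (h : r ≠ c) : xb k (8 * (6 + c) + r) =
    (∑ j : Fin 3, bb k j • SM (xb k) j + xb k 48 • ∑ j : Fin 3, cc k j • TM (xb k) j) r c := by
  have hmem := var_mem k
    (fun a => (CM a - FM a (fun j => CM a j.succ 0) (fun j => BM a j.succ 0)) r c)
    (fun a => (CM a - FM a (fun j => CM a j.succ 0) (fun j => BM a j.succ 0)) r c)
    (by
      change (Ideal.Quotient.mk (chartC.ideal k)).mapMatrix _ r c = _
      rw [map_sub, map_FM, map_CM]
      rfl)
    (fun a ha => by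
      have h1 := CM_eq a ha
      rw [add_assoc] at h1
      have h2 : CM a - FM a (fun j => CM a j.succ 0) (fun j => BM a j.succ 0) =
          CM a 0 0 • (1 : Matrix (Fin 4) (Fin 4) (SC k ⧸ chartC.ideal k)) := by
        rw [sub_eq_iff_eq_add]
        exact h1
      rw [h2, Matrix.smul_apply, Matrix.one_apply_ne h, smul_zero])
  have h1 : psi0 k ((CM (chartC.var k) - FM (chartC.var k)
      (fun j => CM (chartC.var k) j.succ 0) (fun j => BM (chartC.var k) j.succ 0)) r c) =
      PowerSeries.X * (PowerSeries.C (chartC.var k (8 * (6 + c) + r)) - FM (ha k)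
      (fun j => PowerSeries.C (chartC.var k (49 + j)))
      (fun j => PowerSeries.C (chartC.var k (53 + j))) r c) := by
    have h2 : psi0 k ((CM (chartC.var k) - FM (chartC.var k)
      (fun j => CM (chartC.var k) j.succ 0) (fun j => BM (chartC.var k) j.succ 0)) r c) =
      (CM (ha k) - FM (ha k) (fun j => CM (ha k) j.succ 0) (fun j => BM (ha k) j.succ 0)) r c := by
      change (psi0 k).toRingHom.mapMatrix _ r c = _
      rw [map_sub, map_FM, map_CM]
      rfl
    rw [h2, FM_ha, Matrix.sub_apply, Matrix.smul_apply, smul_eq_mul, mul_sub]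
    congr 1
    exact ha_of' k _ (wC_off r c h)
  have h2 := kill1 k _ hmem _ h1
  rw [map_sub, ev0_C, sub_eq_zero] at h2
  have h3 := congrFun (congrFun (ev0_FM k) r) c
  rw [← h3]
  exact h2

/-- Off-diagonal entries of `B`. -/
theorem gr_B (r c : Fin 4) (h : r ≠ c) : xb k (8 * (6 + c) + (r + 4)) =
    (∑ j : Fin 3, bb k j • TM (xb k) j + ∑ j : Fin 3, cc k j • SM (xb k) j +
      xb k 52 • ∑ j : Fin 3, cc k j • TM (xb k) j) r c := by
  have hmem := var_mem k
    (fun a => (BM a - GM a (fun j => CM a j.succ 0) (fun j => BM a j.succ 0)) r c)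
    (fun a => (BM a - GM a (fun j => CM a j.succ 0) (fun j => BM a j.succ 0)) r c)
    (by
      change (Ideal.Quotient.mk (chartC.ideal k)).mapMatrix _ r c = _
      rw [map_sub, map_GM, map_BM]
      rfl)
    (fun a ha => by
      have h1 := BM_eq a ha
      rw [add_assoc, add_assoc] at h1
      have h2 : BM a - GM a (fun j => CM a j.succ 0) (fun j => BM a j.succ 0) =
          BM a 0 0 • (1 : Matrix (Fin 4) (Fin 4) (SC k ⧸ chartC.ideal k)) := by
        rw [sub_eq_iff_eq_add]
        unfold GM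
        rw [add_assoc (∑ k : Fin 3, CM a k.succ 0 • TM a k)]
        exact h1
      rw [h2, Matrix.smul_apply, Matrix.one_apply_ne h, smul_zero])
  have h1 : psi0 k ((BM (chartC.var k) - GM (chartC.var k)
      (fun j => CM (chartC.var k) j.succ 0) (fun j => BM (chartC.var k) j.succ 0)) r c) =
      PowerSeries.X * (PowerSeries.C (chartC.var k (8 * (6 + c) + (r + 4))) - GM (ha k)
      (fun j => PowerSeries.C (chartC.var k (49 + j)))
      (fun j => PowerSeries.C (chartC.var k (53 + j))) r c) := by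
    have h2 : psi0 k ((BM (chartC.var k) - GM (chartC.var k)
      (fun j => CM (chartC.var k) j.succ 0) (fun j => BM (chartC.var k) j.succ 0)) r c) =
      (BM (ha k) - GM (ha k) (fun j => CM (ha k) j.succ 0) (fun j => BM (ha k) j.succ 0)) r c := by
      change (psi0 k).toRingHom.mapMatrix _ r c = _
      rw [map_sub, map_GM, map_BM]
      rfl
    rw [h2, GM_ha, Matrix.sub_apply, Matrix.smul_apply, smul_eq_mul, mul_sub]
    congr 1
    exact ha_of' k _ (wC_off' r c h)
  have h2 := kill1 k _ hmem _ h1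
  rw [map_sub, ev0_C, sub_eq_zero] at h2
  have h3 := congrFun (congrFun (ev0_GM k) r) c
  rw [← h3]
  exact h2

end Low

end

end Pool.Agent.Helper90.Hilb8C
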